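import Mathlib

set_option autoImplicit false
open Classical

namespace Pool.Agent.H71

/-- Finite covering constant: some finite `m` works for Borsuk partitions in dimension `d`. -/
lemma exists_partition (d : ℕ) : ∃ m : ℕ,
    ∀ K : Set (EuclideanSpace ℝ (Fin d)), IsCompact K → Metric.diam K = 1 →
      ∃ f : EuclideanSpace ℝ (Fin d) → Fin m,
        ∀ i : Fin m, Metric.diam (K ∩ f ⁻¹' {i}) < 1 := by
  obtain ⟨t, -, htfin, htcov⟩ := (isCompact_closedBall (0 : EuclideanSpace ℝ (Fin d)) 1).finite_cover_balls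
    (show (0:ℝ) < 1/4 by norm_num)
  have : Fintype t := htfin.fintype
  have htne : Nonempty t := by
    have h0 : (0 : EuclideanSpace ℝ (Fin d)) ∈ Metric.closedBall (0 : EuclideanSpace ℝ (Fin d)) 1 := by
      simp
    have := htcov h0
    simp only [Set.mem_iUnion] at this
    obtain ⟨c, hc, -⟩ := this
    exact ⟨⟨c, hc⟩⟩
  refine ⟨Fintype.card t, ?_⟩
  intro K hK hdiam
  have hKne : K.Nonempty := by
    by_contra h
    rw [Set.not_nonempty_iff_eq_empty] at h
    rw [h, Metric.diam_empty] at hdiam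
    norm_num at hdiam
  obtain ⟨x0, hx0⟩ := hKne
  let e := Fintype.equivFin t
  have hsel : ∀ x ∈ K, ∃ c : t, dist (x - x0) (c : EuclideanSpace ℝ (Fin d)) < 1/4 := by
    intro x hx
    have h1 : dist x x0 ≤ 1 := by
      rw [← hdiam]; exact Metric.dist_le_diam_of_mem hK.isBounded hx hx0
    have h2 : x - x0 ∈ Metric.closedBall (0 : EuclideanSpace ℝ (Fin d)) 1 := by
      rw [mem_closedBall_zero_iff, ← dist_eq_norm]; exact h1
    have := htcov h2
    simp only [Set.mem_iUnion] at this
    obtain ⟨c, hc, hc'⟩ := this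
    exact ⟨⟨c, hc⟩, hc'⟩
  let g : EuclideanSpace ℝ (Fin d) → t := fun x =>
    if h : ∃ c : t, dist (x - x0) (c : EuclideanSpace ℝ (Fin d)) < 1/4 then h.choose else Classical.arbitrary t
  refine ⟨fun x => e (g x), ?_⟩
  intro i
  have hle : Metric.diam (K ∩ (fun x => e (g x)) ⁻¹' {i}) ≤ 1/2 := by
    apply Metric.diam_le_of_forall_dist_le (by norm_num)
    rintro x ⟨hx, hxi⟩ y ⟨hy, hyi⟩
    have hxi' : e (g x) = i := hxi
    have hyi' : e (g y) = i := hyi
    have hgg : g x = g y := e.injective (hxi'.trans hyi'.symm)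
    have hgx : dist (x - x0) (g x : EuclideanSpace ℝ (Fin d)) < 1/4 := by
      have h := hsel x hx
      simp only [g, dif_pos h]
      exact h.choose_spec
    have hgy : dist (y - x0) (g y : EuclideanSpace ℝ (Fin d)) < 1/4 := by
      have h := hsel y hy
      simp only [g, dif_pos h]
      exact h.choose_spec
    have h3 : dist x y = dist (x - x0) (y - x0) := by
      rw [dist_sub_right]
    rw [h3]
    calc dist (x - x0) (y - x0) ≤ dist (x - x0) (g x : EuclideanSpace ℝ (Fin d))
            + dist (g x : EuclideanSpace ℝ (Fin d)) (y - x0) := dist_triangle _ _ _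
      _ ≤ 1/4 + 1/4 := by
          refine add_le_add hgx.le ?_
          rw [hgg, dist_comm]; exact hgy.le
      _ = 1/2 := by norm_num
  linarith

/-- Points of the unit sphere are in convex position. -/
lemma not_mem_convexHull_of_sphere {d : ℕ} (S : Set (EuclideanSpace ℝ (Fin d)))
    (hS : ∀ x ∈ S, ‖x‖ = 1) (x : EuclideanSpace ℝ (Fin d)) (hx : x ∈ S) :
    x ∉ convexHull ℝ (S \ {x}) := by
  intro hmem
  have hsub : S \ {x} ⊆ {y | inner ℝ x y < 1} := by
    rintro y ⟨hy, hyx⟩
    have hne : x ≠ y := fun h => hyx (by simp [h])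
    exact (inner_lt_one_iff_real_of_norm_eq_one (hS x hx) (hS y hy)).2 hne
  have hconv : Convex ℝ {y : EuclideanSpace ℝ (Fin d) | inner ℝ x y < 1} := by
    apply convex_halfSpace_lt
    exact ⟨fun a b => inner_add_right _ _ _, fun c a => by simp [inner_smul_right]⟩
  have h1 := convexHull_min hsub hconv hmem
  have h2 : inner ℝ x x = (1:ℝ) := by
    rw [real_inner_self_eq_norm_sq, hS x hx]; norm_num
  simp only [Set.mem_ofPred_eq] at h1
  linarith

/-- A finite set has a positive separation. -/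
lemma exists_sep {d : ℕ} (X : Finset (EuclideanSpace ℝ (Fin d))) :
    ∃ δ : ℝ, 0 < δ ∧ ∀ x ∈ X, ∀ y ∈ X, x ≠ y → δ ≤ dist x y := by
  by_cases hne : X.offDiag.Nonempty
  · obtain ⟨p, hp, hmin⟩ := Finset.exists_min_image X.offDiag (fun p => dist p.1 p.2) hne
    refine ⟨dist p.1 p.2, dist_pos.2 (Finset.mem_offDiag.1 hp).2.2, ?_⟩
    intro x hx y hy hxy
    exact hmin (x, y) (Finset.mem_offDiag.2 ⟨hx, hy, hxy⟩)
  · refine ⟨1, one_pos, ?_⟩
    intro x hx y hy hxy
    exact absurd ⟨(x, y), Finset.mem_offDiag.2 ⟨hx, hy, hxy⟩⟩ hne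

end Pool.Agent.H71
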