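import Mathlib

set_option autoImplicit false

namespace Pool.Agent.H71.Match

/-- The length `min (|x - y|, 2n - |x - y|)` of the edge `{x, y}` of the complete graph on `ZMod (2 * n)`, where
`x` and `y` are represented by integers in `{0, ..., 2n - 1}`. -/
def edgeLength (n : ℕ) : Sym2 (ZMod (2 * n)) → ℕ :=
  Sym2.lift ⟨fun x y => min ((x.val : ℤ) - (y.val : ℤ)).natAbs (2 * n - ((x.val : ℤ) - (y.val : ℤ)).natAbs), by
    intro x y
    have h : ((x.val : ℤ) - (y.val : ℤ)).natAbs = ((y.val : ℤ) - (x.val : ℤ)).natAbs := by omega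
    simp only [h]⟩

/-- `F` is a perfect matching of the complete graph on the vertex set `ZMod (2 * n)`: a finite set of edges (unordered
pairs of distinct vertices) such that every vertex is in exactly one of them. -/
def IsPerfectMatching (n : ℕ) (F : Finset (Sym2 (ZMod (2 * n)))) : Prop :=
  (∀ e ∈ F, ¬ e.IsDiag) ∧ ∀ v : ZMod (2 * n), ∃! e : Sym2 (ZMod (2 * n)), e ∈ F ∧ v ∈ e

end Pool.Agent.H71.Match
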