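import Mathlib

set_option autoImplicit false

namespace Pool.Agent.H71.Match

open Finset Equiv

set_option linter.unusedSectionVars false

variable {H : Type*} [Fintype H] [DecidableEq H]

/-- the flip of the second coordinate -/
def fl : Perm (H × Bool) := Equiv.prodCongr (Equiv.refl H) Equiv.boolNot

@[simp] lemma fl_apply (t : H) (b : Bool) : fl (t, b) = (t, !b) := rfl

@[simp] lemma fl_fl (v : H × Bool) : fl (fl v) = v := by
  obtain ⟨t, b⟩ := v; simp

lemma fl_ne (v : H × Bool) : fl v ≠ v := by
  obtain ⟨t, b⟩ := v; cases b <;> simp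

/-- sign of a permutation commuting with the flip -/
lemma hyper {F : Type*} [CommRing F] (ρ : Perm (H × Bool)) (hρ : ∀ v, ρ (fl v) = fl (ρ v)) (G : H × Bool → F)
    (hG : ∀ v, G (fl v) = - G v) :
    ((Perm.sign ρ : ℤ) : F) * ∏ t : H, G (ρ (t, true)) = ∏ t : H, G (t, true) := by
  have hinj : Function.Injective (fun t : H => (ρ (t, true)).1) := by
    intro t t' h
    simp only at h
    by_cases hb : (ρ (t, true)).2 = (ρ (t', true)).2
    · have : ρ (t, true) = ρ (t', true) := Prod.ext h hb
      exact (Prod.ext_iff.1 (ρ.injective this)).1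
    · have h2 : ρ (t, true) = fl (ρ (t', true)) := by
        apply Prod.ext
        · exact h
        · show (ρ (t, true)).2 = !(ρ (t', true)).2
          revert hb
          cases (ρ (t, true)).2 <;> cases (ρ (t', true)).2 <;> simp
      rw [← hρ] at h2
      exact (Prod.ext_iff.1 (ρ.injective h2)).1
  let π : Perm H := Equiv.ofBijective _ (Finite.injective_iff_bijective.1 hinj)
  have hπ : ∀ t, π t = (ρ (t, true)).1 := fun t => rfl
  let β : H → Perm Bool := fun t => if (ρ (t, true)).2 then 1 else Equiv.boolNot
  have hdec : ρ = (prodCongrLeft (fun _ : Bool => π)) * (prodCongrRight β) := by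
    ext1 v
    obtain ⟨t, b⟩ := v
    have e1 : ∀ b, ((prodCongrLeft (fun _ : Bool => π)) * (prodCongrRight β)) (t, b) = (π t, β t b) := fun b => rfl
    rw [e1]
    cases b
    · have h1 : ρ (t, false) = fl (ρ (t, true)) := by rw [← hρ]; rfl
      rw [h1]
      apply Prod.ext
      · rfl
      · show (!(ρ (t, true)).2) = β t false
        simp only [β]
        cases (ρ (t, true)).2 <;> rfl
    · apply Prod.ext
      · rfl
      · show (ρ (t, true)).2 = β t true
        simp only [β]
        cases (ρ (t, true)).2 <;> rfl
  have hsign : ((Perm.sign ρ : ℤ) : F) = ∏ t : H, (if (ρ (t, true)).2 then (1 : F) else -1) := by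
    have h1 : Perm.sign ρ = ∏ t : H, Perm.sign (β t) := by
      conv_lhs => rw [hdec]
      rw [Perm.sign_mul, Perm.sign_prodCongrLeft, Perm.sign_prodCongrRight]
      simp
    rw [h1]
    push_cast
    apply prod_congr rfl
    intro t _
    simp only [β]
    cases (ρ (t, true)).2
    · have : Perm.sign Equiv.boolNot = -1 := by decide
      simp [this]
    · simp
  rw [hsign, ← prod_mul_distrib]
  have h2 : ∀ t : H, (if (ρ (t, true)).2 then (1 : F) else -1) * G (ρ (t, true)) = G (π t, true) := by
    intro t
    rw [hπ]
    have h3 : ρ (t, true) = ((ρ (t, true)).1, (ρ (t, true)).2) := rfl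
    cases hb : (ρ (t, true)).2
    · have h4 : ρ (t, true) = fl ((ρ (t, true)).1, true) := by
        rw [h3, hb]; rfl
      conv_lhs => rw [h4, hG]
      simp
    · rw [h3, hb]; simp
  rw [prod_congr rfl (fun t _ => h2 t)]
  exact Equiv.prod_comp π (fun t => G (t, true))

/-- permutations compatible with the flip on the pairs in `J` -/
def Com (J : Finset H) : Finset (Perm (H × Bool)) :=
  univ.filter (fun σ => ∀ j ∈ J, σ (j, true) = fl (σ (j, false)))

lemma card_positions (J : Finset H) (t : H) (ht : t ∉ J) :
    (univ.filter (fun r : H × Bool => r.1 ∉ J ∧ r ≠ (t, false))).card = 2 * (Fintype.card H - J.card) - 1 := by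
  have h1 : (univ.filter (fun r : H × Bool => r.1 ∉ J ∧ r ≠ (t, false))) = ((univ \ J) ×ˢ univ).erase (t, false) := by
    ext r
    simp only [mem_filter, mem_univ, true_and, mem_erase, mem_product, mem_sdiff]
    tauto
  rw [h1, card_erase_of_mem (by simp [ht]), card_product, card_sdiff_of_subset (subset_univ J), card_univ, card_univ,
    Fintype.card_bool, mul_comm]

lemma card_Com_step (J : Finset H) (t : H) (ht : t ∉ J) :
    (Com J).card = (2 * (Fintype.card H - J.card) - 1) * (Com (insert t J)).card := by
  have hmaps : Set.MapsTo (fun σ : Perm (H × Bool) => σ.symm (fl (σ (t, false)))) (Com J : Set (Perm (H × Bool)))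
      ((univ.filter (fun r : H × Bool => r.1 ∉ J ∧ r ≠ (t, false)) : Finset (H × Bool)) : Set (H × Bool)) := by
    intro σ hσ
    simp only [Com, coe_filter, mem_univ, true_and] at hσ
    have hσ' : ∀ j ∈ J, σ (j, true) = fl (σ (j, false)) := hσ
    simp only [coe_filter, mem_univ, true_and]
    show (σ.symm (fl (σ (t, false)))).1 ∉ J ∧ σ.symm (fl (σ (t, false))) ≠ (t, false)
    constructor
    · intro hj
      generalize hr : σ.symm (fl (σ (t, false))) = r at hj
      rw [Equiv.symm_apply_eq] at hr
      obtain ⟨j, b⟩ := r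
      simp only at hj
      have h1 := hσ' j hj
      cases b
      · rw [← hr, fl_fl] at h1
        have := (Prod.ext_iff.1 (σ.injective h1)).2
        simp at this
      · rw [h1] at hr
        have h2 := fl.injective hr
        have h3 := (Prod.ext_iff.1 (σ.injective h2)).1
        simp only at h3
        exact ht (h3 ▸ hj)
    · intro h
      rw [Equiv.symm_apply_eq] at h
      exact fl_ne _ h
  rw [← card_positions J t ht, ← smul_eq_mul, ← sum_const, card_eq_sum_card_fiberwise hmaps]
  apply sum_congr rfl
  intro r hr
  simp only [mem_filter, mem_univ, true_and] at hr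
  obtain ⟨hr1, hr2⟩ := hr
  apply card_bij' (fun σ _ => σ * swap r (t, true)) (fun σ _ => σ * swap r (t, true))
  · intro σ hσ
    simp only [Com, mem_filter, mem_univ, true_and] at hσ ⊢
    obtain ⟨h1, h2⟩ := hσ
    have h3 : σ r = fl (σ (t, false)) := by rw [← h2]; simp
    intro j hj
    rw [mem_insert] at hj
    rcases hj with rfl | hj
    · rw [Perm.mul_apply, Perm.mul_apply, swap_apply_right, swap_apply_of_ne_of_ne (Ne.symm hr2) (by simp)]
      exact h3
    · have hne : ∀ b, (j, b) ≠ r := fun b h => hr1 (by rw [← h]; exact hj)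
      have hne' : ∀ b, (j, b) ≠ (t, true) := fun b h => ht ((show j = t from congrArg Prod.fst h) ▸ hj)
      rw [Perm.mul_apply, Perm.mul_apply, swap_apply_of_ne_of_ne (hne _) (hne' _),
        swap_apply_of_ne_of_ne (hne _) (hne' _)]
      exact h1 j hj
  · intro σ hσ
    simp only [Com, mem_filter, mem_univ, true_and] at hσ ⊢
    have h1 := hσ t (mem_insert_self _ _)
    have htf : swap r (t, true) (t, false) = (t, false) := swap_apply_of_ne_of_ne (Ne.symm hr2) (by simp)
    constructor
    · intro j hj
      have hne : ∀ b, (j, b) ≠ r := fun b h => hr1 (by rw [← h]; exact hj)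
      have hne' : ∀ b, (j, b) ≠ (t, true) := fun b h => ht ((show j = t from congrArg Prod.fst h) ▸ hj)
      rw [Perm.mul_apply, Perm.mul_apply, swap_apply_of_ne_of_ne (hne _) (hne' _),
        swap_apply_of_ne_of_ne (hne _) (hne' _)]
      exact hσ j (mem_insert_of_mem hj)
    · rw [Equiv.symm_apply_eq, Perm.mul_apply, Perm.mul_apply, htf, swap_apply_left]
      exact h1.symm
  · intro σ _
    rw [mul_assoc, swap_mul_self, mul_one]
  · intro σ _
    rw [mul_assoc, swap_mul_self, mul_one]

lemma card_Com_dvd (J : Finset H) : (Com J).card ∣ (2 * Fintype.card H).factorial := by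
  induction J using Finset.induction_on with
  | empty =>
    have : (Com (∅ : Finset H)) = univ := by
      ext σ; simp [Com]
    rw [this, card_univ, Fintype.card_perm, Fintype.card_prod, Fintype.card_bool, mul_comm]
  | insert t J ht ih =>
    rw [card_Com_step J t ht] at ih
    exact dvd_trans (Dvd.intro_left _ rfl) ih

end Pool.Agent.H71.Match
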