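import Mathlib
import Pool.Agent.H71.MatchPerm

set_option autoImplicit false
set_option linter.unusedSectionVars false

namespace Pool.Agent.H71.Match

open Finset Equiv

variable {A K : Type*} [Fintype A] [DecidableEq A] [Fintype K] [DecidableEq K]

/-- the compatible pairs of permutations -/
def Om (σ τ : Perm ((A ⊕ K) × Bool)) : Prop :=
  (∀ (a : A) (b : Bool), σ (Sum.inl a, b) = fl (τ (Sum.inl a, b))) ∧
  (∀ j : K, σ (Sum.inr j, true) = fl (σ (Sum.inr j, false))) ∧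
  (∀ j : K, τ (Sum.inr j, true) = fl (τ (Sum.inr j, false)))

lemma com_both {σ : Perm ((A ⊕ K) × Bool)} (h : ∀ j : K, σ (Sum.inr j, true) = fl (σ (Sum.inr j, false)))
    (j : K) (b : Bool) : σ (Sum.inr j, !b) = fl (σ (Sum.inr j, b)) := by
  cases b
  · exact h j
  · show σ (Sum.inr j, false) = fl (σ (Sum.inr j, true))
    rw [h j, fl_fl]

/-- the subgroup of permutations commuting with the flip and fixing the `A` part -/
def CK (A K : Type*) : Subgroup (Perm ((A ⊕ K) × Bool)) where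
  carrier := {ρ | (∀ v, ρ (fl v) = fl (ρ v)) ∧ ∀ (a : A) (b : Bool), ρ (Sum.inl a, b) = (Sum.inl a, b)}
  mul_mem' := by
    rintro ρ ρ' ⟨h1, h2⟩ ⟨h3, h4⟩
    refine ⟨fun v => ?_, fun a b => ?_⟩
    · rw [Perm.mul_apply, Perm.mul_apply, h3, h1]
    · rw [Perm.mul_apply, h4, h2]
  one_mem' := ⟨fun v => rfl, fun a b => rfl⟩
  inv_mem' := by
    rintro ρ ⟨h1, h2⟩
    refine ⟨fun v => ?_, fun a b => ?_⟩
    · rw [Perm.inv_eq_iff_eq, h1]; simp
    · rw [Perm.inv_eq_iff_eq, h2]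

lemma mem_CK {ρ : Perm ((A ⊕ K) × Bool)} : ρ ∈ CK A K ↔ (∀ v, ρ (fl v) = fl (ρ v)) ∧
    ∀ (a : A) (b : Bool), ρ (Sum.inl a, b) = (Sum.inl a, b) := Iff.rfl

lemma fl_mul_fl : (fl * fl : Perm ((A ⊕ K) × Bool)) = 1 := by
  ext1 v; simp [Perm.mul_apply]

/-- a permutation fixing the `A` part preserves the `K` part -/
lemma inr_of_fix {ρ : Perm ((A ⊕ K) × Bool)} (h : ∀ (a : A) (b : Bool), ρ (Sum.inl a, b) = (Sum.inl a, b))
    (j : K) (b : Bool) : ∃ j' b', ρ (Sum.inr j, b) = (Sum.inr j', b') := by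
  rcases hv : ρ (Sum.inr j, b) with ⟨a | j', b'⟩
  · exfalso
    rw [← h a b'] at hv
    have := ρ.injective hv
    simp at this
  · exact ⟨j', b', rfl⟩

lemma rho_mem {σ τ : Perm ((A ⊕ K) × Bool)} (h : Om σ τ) : σ⁻¹ * fl * τ ∈ CK A K := by
  obtain ⟨h1, h2, h3⟩ := h
  have hfix : ∀ (a : A) (b : Bool), (σ⁻¹ * fl * τ : Perm ((A ⊕ K) × Bool)) (Sum.inl a, b) = (Sum.inl a, b) := by
    intro a b
    rw [Perm.mul_apply, Perm.mul_apply, ← h1]
    exact σ.symm_apply_apply _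
  refine ⟨?_, hfix⟩
  rintro ⟨a | j, b⟩
  · rw [fl_apply, hfix, hfix]; rfl
  · obtain ⟨j', b', hv⟩ := inr_of_fix hfix j b
    rw [hv]
    rw [Perm.mul_apply, Perm.mul_apply, Perm.inv_eq_iff_eq] at hv ⊢
    rw [show fl ((Sum.inr j, b) : (A ⊕ K) × Bool) = (Sum.inr j, !b) from rfl, com_both h3, fl_fl,
      show fl ((Sum.inr j', b') : (A ⊕ K) × Bool) = (Sum.inr j', !b') from rfl, com_both h2, ← hv, fl_fl]

lemma om_of_rho {σ ρ : Perm ((A ⊕ K) × Bool)} (h2 : ∀ j : K, σ (Sum.inr j, true) = fl (σ (Sum.inr j, false)))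
    (hρ : ρ ∈ CK A K) : Om σ (fl * σ * ρ) := by
  obtain ⟨h3, h4⟩ := hρ
  refine ⟨?_, h2, ?_⟩
  · intro a b
    rw [Perm.mul_apply, Perm.mul_apply, h4, fl_fl]
  · intro j
    obtain ⟨j', b', hv⟩ := inr_of_fix h4 j false
    have h5 : ρ (Sum.inr j, true) = fl (ρ (Sum.inr j, false)) := by rw [← h3]; rfl
    rw [Perm.mul_apply, Perm.mul_apply, Perm.mul_apply, Perm.mul_apply, h5, hv,
      show fl ((Sum.inr j', b') : (A ⊕ K) × Bool) = (Sum.inr j', !b') from rfl, com_both h2]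

/-- index set of the `K` part -/
def JK (A K : Type*) [Fintype K] [DecidableEq A] [DecidableEq K] : Finset (A ⊕ K) := univ.image Sum.inr

lemma mem_Com_JK {σ : Perm ((A ⊕ K) × Bool)} :
    σ ∈ Com (JK A K) ↔ ∀ j : K, σ (Sum.inr j, true) = fl (σ (Sum.inr j, false)) := by
  simp [Com, JK]

open Classical in
/-- the finset of compatible pairs -/
noncomputable def OmF (A K : Type*) [Fintype A] [DecidableEq A] [Fintype K] [DecidableEq K] :
    Finset (Perm ((A ⊕ K) × Bool) × Perm ((A ⊕ K) × Bool)) :=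
  univ.filter (fun q => Om q.1 q.2)

open Classical in
lemma card_OmF : (OmF A K).card = (Com (JK A K)).card * Nat.card (CK A K) := by
  have h1 : Nat.card (CK A K) = (univ.filter (fun ρ : Perm ((A ⊕ K) × Bool) => ρ ∈ CK A K)).card := by
    rw [Nat.card_eq_fintype_card, Fintype.card_subtype]
  rw [h1, ← card_product]
  refine card_bij' (fun q _ => (q.1, q.1⁻¹ * fl * q.2)) (fun q _ => (q.1, fl * q.1 * q.2)) ?_ ?_ ?_ ?_
  · rintro ⟨σ, τ⟩ h
    simp only [OmF, mem_filter, mem_univ, true_and] at h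
    simp only [mem_product, mem_filter, mem_univ, true_and]
    exact ⟨mem_Com_JK.2 h.2.1, rho_mem h⟩
  · rintro ⟨σ, ρ⟩ h
    simp only [mem_product, mem_filter, mem_univ, true_and] at h
    simp only [OmF, mem_filter, mem_univ, true_and]
    exact om_of_rho (mem_Com_JK.1 h.1) h.2
  · rintro ⟨σ, τ⟩ h
    have : fl * σ * (σ⁻¹ * fl * τ) = τ := by
      rw [mul_assoc, mul_assoc, mul_inv_cancel_left, ← mul_assoc, fl_mul_fl, one_mul]
    simp only [this]
  · rintro ⟨σ, ρ⟩ h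
    have : σ⁻¹ * fl * (fl * σ * ρ) = ρ := by
      rw [mul_assoc, ← mul_assoc fl, ← mul_assoc fl, fl_mul_fl, one_mul, inv_mul_cancel_left]
    simp only [this]

lemma not_dvd_card_OmF {p : ℕ} (hp : p.Prime) (hc : 2 * (Fintype.card A + Fintype.card K) < p) :
    ¬ p ∣ (OmF A K).card := by
  rw [card_OmF]
  intro h
  have hfac : ¬ p ∣ (2 * (Fintype.card A + Fintype.card K)).factorial := by
    rw [hp.dvd_factorial]; omega
  rcases hp.dvd_mul.1 h with h | h
  · apply hfac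
    have h2 := card_Com_dvd (JK A K)
    rw [Fintype.card_sum] at h2
    exact h.trans h2
  · apply hfac
    have h2 := Subgroup.card_subgroup_dvd_card (CK A K)
    rw [Nat.card_eq_fintype_card (α := Perm ((A ⊕ K) × Bool)), Fintype.card_perm, Fintype.card_prod,
      Fintype.card_sum, Fintype.card_bool, mul_comm] at h2
    exact h.trans h2

/-- all compatible pairs contribute the same amount -/
lemma om_const {F : Type*} [CommRing F] {σ τ : Perm ((A ⊕ K) × Bool)} (h : Om σ τ) (f : (A ⊕ K) × Bool → F)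
    (hf : ∀ v, f (fl v) = - f v) :
    ((Perm.sign σ : ℤ) : F) * ((Perm.sign τ : ℤ) : F) * ((∏ i : A × Bool, f (τ (Sum.inl i.1, i.2))) *
      (∏ j : K, f (σ (Sum.inr j, true))) * ∏ j : K, f (τ (Sum.inr j, true))) =
      ((Perm.sign (fl : Perm ((A ⊕ K) × Bool)) : ℤ) : F) * ∏ v, f v := by
  have hρ := rho_mem h
  set ρ := σ⁻¹ * fl * τ with hρdef
  have hτ : τ = fl * σ * ρ := by
    rw [hρdef, mul_assoc, mul_assoc, mul_inv_cancel_left, ← mul_assoc, fl_mul_fl, one_mul]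
  obtain ⟨h1, h2, h3⟩ := h
  obtain ⟨hρ1, hρ2⟩ := hρ
  have hτv : ∀ v, τ v = fl (σ (ρ v)) := fun v => by
    conv_lhs => rw [hτ]
    rfl
  have hs : ((Perm.sign σ : ℤ) : F) * ((Perm.sign τ : ℤ) : F) =
      ((Perm.sign (fl : Perm ((A ⊕ K) × Bool)) : ℤ) : F) * ((Perm.sign ρ : ℤ) : F) := by
    rw [hτ, Perm.sign_mul, Perm.sign_mul]
    push_cast
    have : ((Perm.sign σ : ℤ) : F) * ((Perm.sign σ : ℤ) : F) = 1 := by
      rcases Int.units_eq_one_or (Perm.sign σ) with h | h <;> simp [h]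
    calc _ = (((Perm.sign σ : ℤ) : F) * ((Perm.sign σ : ℤ) : F)) * (((Perm.sign (fl : Perm ((A ⊕ K) × Bool)) : ℤ) : F) * ((Perm.sign ρ : ℤ) : F)) := by ring
      _ = _ := by rw [this, one_mul]
  -- the auxiliary antisymmetric function
  let G : (A ⊕ K) × Bool → F := fun v => match v with
    | (Sum.inl _, b) => if b then 1 else -1
    | (Sum.inr j, b) => f (σ (Sum.inr j, b))
  have hG : ∀ v, G (fl v) = - G v := by
    rintro ⟨a | j, b⟩
    · cases b <;> simp [G]
    · show f (σ (Sum.inr j, !b)) = - f (σ (Sum.inr j, b))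
      rw [com_both h2, hf]
  have hyp := hyper ρ hρ1 G hG
  rw [Fintype.prod_sum_type, Fintype.prod_sum_type] at hyp
  have e1 : ∏ a : A, G (ρ (Sum.inl a, true)) = 1 := by
    apply prod_eq_one
    intro a _
    rw [hρ2]; rfl
  have e2 : ∏ a : A, G (Sum.inl a, true) = 1 := by
    apply prod_eq_one
    intro a _
    rfl
  have e3 : ∀ j : K, G (ρ (Sum.inr j, true)) = f (σ (ρ (Sum.inr j, true))) := by
    intro j
    obtain ⟨j', b', hv⟩ := inr_of_fix hρ2 j true
    rw [hv]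
  rw [e1, e2, one_mul, one_mul, prod_congr rfl (fun j _ => e3 j)] at hyp
  have hyp' : ((Perm.sign ρ : ℤ) : F) * ∏ j : K, f (σ (ρ (Sum.inr j, true))) = ∏ j : K, f (σ (Sum.inr j, true)) := hyp
  have p1 : ∏ i : A × Bool, f (τ (Sum.inl i.1, i.2)) = ∏ i : A × Bool, f (σ (Sum.inl i.1, i.2)) := by
    have : ∀ i : A × Bool, f (τ (Sum.inl i.1, i.2)) = (-1) * f (σ (Sum.inl i.1, i.2)) := by
      intro i
      rw [hτv, hρ2, hf]; ring
    rw [prod_congr rfl (fun i _ => this i), prod_mul_distrib, prod_const, card_univ, Fintype.card_prod,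
      Fintype.card_bool, mul_comm (Fintype.card A) 2, pow_mul]
    simp
  have p2 : ∏ j : K, f (τ (Sum.inr j, true)) = (∏ j : K, (-1 : F)) * ∏ j : K, f (σ (ρ (Sum.inr j, true))) := by
    rw [← prod_mul_distrib]
    apply prod_congr rfl
    intro j _
    rw [hτv, hf]; ring
  rw [hs, p1, p2]
  calc _ = ((Perm.sign (fl : Perm ((A ⊕ K) × Bool)) : ℤ) : F) * ((∏ i : A × Bool, f (σ (Sum.inl i.1, i.2))) *
        ((∏ j : K, f (σ (Sum.inr j, true))) * ((∏ j : K, (-1 : F)) *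
          (((Perm.sign ρ : ℤ) : F) * ∏ j : K, f (σ (ρ (Sum.inr j, true))))))) := by ring
    _ = ((Perm.sign (fl : Perm ((A ⊕ K) × Bool)) : ℤ) : F) * ((∏ i : A × Bool, f (σ (Sum.inl i.1, i.2))) *
        ((∏ j : K, f (σ (Sum.inr j, true))) * ((∏ j : K, (-1 : F)) * ∏ j : K, f (σ (Sum.inr j, true))))) := by
        rw [hyp']
    _ = ((Perm.sign (fl : Perm ((A ⊕ K) × Bool)) : ℤ) : F) * ((∏ i : A × Bool, f (σ (Sum.inl i.1, i.2))) *
        ((∏ j : K, f (σ (Sum.inr j, true))) * ∏ j : K, f (σ (Sum.inr j, false)))) := by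
        congr 3
        rw [← prod_mul_distrib]
        apply prod_congr rfl
        intro j _
        rw [h2, hf]; ring
    _ = _ := by
        congr 1
        rw [← Equiv.prod_comp σ f, Fintype.prod_prod_type (f := fun v => f (σ v)), Fintype.prod_sum_type,
          Fintype.prod_prod_type]
        simp only [Fintype.prod_bool]
        rw [prod_mul_distrib (s := (univ : Finset K))]

end Pool.Agent.H71.Match
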