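import Mathlib

set_option autoImplicit false

namespace Pool.Agent.H71.Match

open Finset

variable {p : ℕ} [hp : Fact p.Prime]

/-- power sums over `ZMod p` -/
lemma psum_lt {j : ℕ} (hj : j < p - 1) : ∑ x : ZMod p, x ^ j = 0 := by
  have h := FiniteField.sum_pow_lt_card_sub_one (ZMod p) j (by rw [ZMod.card]; exact hj)
  exact h

lemma psum_top : ∑ x : ZMod p, x ^ (p - 1) = -1 := by
  have h1 : ∀ x : ZMod p, x ^ (p - 1) = if x = 0 then 0 else 1 := by
    intro x
    split_ifs with hx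
    · rw [hx]; exact zero_pow (by have := hp.out.two_le; omega)
    · exact ZMod.pow_card_sub_one_eq_one hx
  rw [Finset.sum_congr rfl (fun x _ => h1 x)]
  have h2 : ∀ x : ZMod p, (if x = 0 then (0 : ZMod p) else 1) = 1 - (if x = 0 then 1 else 0) := by
    intro x; split_ifs <;> simp
  rw [Finset.sum_congr rfl (fun x _ => h2 x), Finset.sum_sub_distrib]
  simp

/-- the basic one-edge sum before antisymmetrisation -/
lemma edge_sum (u : ZMod p) (k k' : ℕ) (hk' : 1 ≤ k') (h : k + k' ≤ p) :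
    ∑ x : ZMod p, x ^ k * (x + u) ^ k' = ∑ x : ZMod p, x ^ (k + k') + u * k' * ∑ x : ZMod p, x ^ (k + k' - 1) := by
  obtain ⟨m, rfl⟩ : ∃ m, k' = m + 1 := ⟨k' - 1, by omega⟩
  have h1 : ∀ x : ZMod p, x ^ k * (x + u) ^ (m + 1) =
      ∑ i ∈ range m, x ^ (k + i) * (u ^ (m + 1 - i) * ((m + 1).choose i : ZMod p)) +
        x ^ (k + m) * (u * (m + 1 : ℕ)) + x ^ (k + (m + 1)) := by
    intro x
    rw [add_pow, sum_range_succ, sum_range_succ, mul_add, mul_add, mul_sum]
    congr 1
    · congr 1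
      · apply sum_congr rfl
        intro i _
        rw [pow_add]; ring
      · rw [show m + 1 - m = 1 by omega, pow_one, Nat.choose_succ_self_right, pow_add]
        ring
    · simp [pow_add]
  rw [sum_congr rfl (fun x _ => h1 x), sum_add_distrib, sum_add_distrib, sum_comm]
  have h2 : ∑ i ∈ range m, ∑ x : ZMod p, x ^ (k + i) * (u ^ (m + 1 - i) * ((m + 1).choose i : ZMod p)) = 0 := by
    apply sum_eq_zero
    intro i hi
    rw [mem_range] at hi
    rw [← sum_mul, psum_lt (by omega), zero_mul]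
  rw [h2, zero_add, ← sum_mul, show k + (m + 1) - 1 = k + m by omega]
  ring

/-- sign as an element of `ZMod p` -/
def sg (b : Bool) : ZMod p := if b then 1 else -1

/-- the one-edge functional -/
def B (c c0 : ZMod p) (k k' : ℕ) : ZMod p :=
  ∑ t : ZMod p × Bool, sg t.2 * (t.1 ^ k * (t.1 + sg t.2 * c - c0) ^ k')

lemma B_eq_sub (c c0 : ZMod p) (k k' : ℕ) :
    B c c0 k k' = ∑ x : ZMod p, x ^ k * (x + (c - c0)) ^ k' - ∑ x : ZMod p, x ^ k * (x + (-c - c0)) ^ k' := by
  unfold B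
  rw [Fintype.sum_prod_type]
  simp only [Fintype.sum_bool, sg, if_true, Bool.false_eq_true, if_false, one_mul, neg_mul]
  rw [sum_add_distrib, sum_neg_distrib, ← sub_eq_add_neg]
  congr 1
  · apply sum_congr rfl; intro x _; rw [add_sub_assoc]
  · apply sum_congr rfl; intro x _; rw [add_sub_assoc]

lemma B_zero (c c0 : ZMod p) (k k' : ℕ) (hk' : 1 ≤ k') (h : k + k' < p) : B c c0 k k' = 0 := by
  rw [B_eq_sub, edge_sum _ _ _ hk' h.le, edge_sum _ _ _ hk' h.le, psum_lt (j := k + k' - 1) (by omega)]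
  ring

lemma B_top (c c0 : ZMod p) (k k' : ℕ) (hk' : 1 ≤ k') (h : k + k' = p) : B c c0 k k' = -(2 * c * k') := by
  rw [B_eq_sub, edge_sum _ _ _ hk' h.le, edge_sum _ _ _ hk' h.le, h, psum_top]
  ring

end Pool.Agent.H71.Match
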