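import Mathlib
import Pool.Agent.H71.MatchOmega
import Pool.Agent.H71.MatchSums

set_option autoImplicit false
set_option linter.unusedSectionVars false

namespace Pool.Agent.H71.Match

open Finset Equiv

section exponents

variable {A K : Type*} [Fintype A] [DecidableEq A] [Fintype K] [DecidableEq K]

/-- exponents -/
noncomputable def ex (p : ℕ) (v : (A ⊕ K) × Bool) : ℕ :=
  if v.2 then p - 1 - (Fintype.equivFin (A ⊕ K) v.1).1 else (Fintype.equivFin (A ⊕ K) v.1).1 + 1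

variable {p : ℕ} (hc : 2 * (Fintype.card A + Fintype.card K) + 1 = p)
include hc

lemma ex_pos (v : (A ⊕ K) × Bool) : 1 ≤ ex p v := by
  have h := (Fintype.equivFin (A ⊕ K) v.1).2
  have hS : Fintype.card (A ⊕ K) = Fintype.card A + Fintype.card K := Fintype.card_sum
  unfold ex
  split_ifs <;> omega

lemma ex_add_fl (v : (A ⊕ K) × Bool) : ex p v + ex p (fl v) = p := by
  obtain ⟨t, b⟩ := v
  have h := (Fintype.equivFin (A ⊕ K) t).2
  have hS : Fintype.card (A ⊕ K) = Fintype.card A + Fintype.card K := Fintype.card_sum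
  cases b <;> simp [ex] <;> omega

lemma ex_lt (v : (A ⊕ K) × Bool) : ex p v < p := by
  have h1 := ex_add_fl hc v
  have h2 := ex_pos hc (fl v)
  omega

lemma ex_inj {u v : (A ⊕ K) × Bool} (h : ex p u = ex p v) : u = v := by
  obtain ⟨t, b⟩ := u
  obtain ⟨t', b'⟩ := v
  have h1 := (Fintype.equivFin (A ⊕ K) t).2
  have h2 := (Fintype.equivFin (A ⊕ K) t').2
  have hS : Fintype.card (A ⊕ K) = Fintype.card A + Fintype.card K := Fintype.card_sum
  cases b <;> cases b' <;> simp only [ex, Bool.false_eq_true, if_false, if_true] at h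
  · have : (Fintype.equivFin (A ⊕ K) t) = (Fintype.equivFin (A ⊕ K) t') := Fin.ext (by omega)
    rw [(Fintype.equivFin (A ⊕ K)).injective this]
  · exfalso; omega
  · exfalso; omega
  · have : (Fintype.equivFin (A ⊕ K) t) = (Fintype.equivFin (A ⊕ K) t') := Fin.ext (by omega)
    rw [(Fintype.equivFin (A ⊕ K)).injective this]

lemma ex_add_eq {u v : (A ⊕ K) × Bool} (h : ex p u + ex p v = p) : v = fl u := by
  have h1 := ex_add_fl hc u
  exact ex_inj hc (by omega)

lemma ex_sum : ∑ v : (A ⊕ K) × Bool, ex p v = p * (Fintype.card A + Fintype.card K) := by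
  rw [Fintype.sum_prod_type]
  have : ∀ t : A ⊕ K, ∑ b : Bool, ex p (t, b) = p := by
    intro t
    rw [Fintype.sum_bool]
    have := ex_add_fl hc (t, true)
    simpa using this
  rw [sum_congr rfl (fun t _ => this t), sum_const, card_univ, Fintype.card_sum, smul_eq_mul, mul_comm]

lemma exF_fl (v : (A ⊕ K) × Bool) : ((ex p (fl v) : ℕ) : ZMod p) = - ((ex p v : ℕ) : ZMod p) := by
  have h := ex_add_fl hc v
  have h2 : ((ex p v : ℕ) : ZMod p) + ((ex p (fl v) : ℕ) : ZMod p) = 0 := by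
    rw [← Nat.cast_add, h, ZMod.natCast_self]
  linear_combination h2

lemma exF_ne [Fact p.Prime] (v : (A ⊕ K) × Bool) : ((ex p v : ℕ) : ZMod p) ≠ 0 := by
  have h1 := ex_pos hc v
  have h2 := ex_lt hc v
  intro h
  rw [ZMod.natCast_eq_zero_iff] at h
  exact absurd (Nat.le_of_dvd (by omega) h) (by omega)

end exponents

section main

variable {A K : Type*} [Fintype A] [DecidableEq A] [Fintype K] [DecidableEq K]
variable {p : ℕ} [hp : Fact p.Prime]

/-- points of the first layer -/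
def ptA (d : K → ZMod p) (X : A × Bool → ZMod p × Bool) (Y : K → ZMod p × Bool) : (A ⊕ K) × Bool → ZMod p
  | (Sum.inl a, b) => (X (a, b)).1
  | (Sum.inr j, false) => (Y j).1
  | (Sum.inr j, true) => (Y j).1 + sg (Y j).2 * d j

/-- points of the second layer -/
def ptB (c : A × Bool → ZMod p) (c0 : ZMod p) (d : K → ZMod p) (X : A × Bool → ZMod p × Bool)
    (Z : K → ZMod p × Bool) : (A ⊕ K) × Bool → ZMod p
  | (Sum.inl a, b) => (X (a, b)).1 + sg (X (a, b)).2 * c (a, b) - c0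
  | (Sum.inr j, false) => (Z j).1
  | (Sum.inr j, true) => (Z j).1 + sg (Z j).2 * d j

/-- generalised Vandermonde matrix -/
noncomputable def vm (pt : (A ⊕ K) × Bool → ZMod p) : Matrix ((A ⊕ K) × Bool) ((A ⊕ K) × Bool) (ZMod p) :=
  Matrix.of (fun v r => pt r ^ ex p v)

lemma det_vm (pt : (A ⊕ K) × Bool → ZMod p) :
    (vm pt).det = ∑ σ : Perm ((A ⊕ K) × Bool), ((Perm.sign σ : ℤ) : ZMod p) * ∏ r, pt r ^ ex p (σ r) := by
  rw [Matrix.det_apply']
  rfl

lemma inj_of_det_ne (pt : (A ⊕ K) × Bool → ZMod p) (h : (vm pt).det ≠ 0) : Function.Injective pt := by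
  intro r r' hr
  by_contra hne
  apply h
  apply Matrix.det_zero_of_column_eq hne
  intro v
  simp [vm, hr]

lemma ne_zero_of_det_ne (hc : 2 * (Fintype.card A + Fintype.card K) + 1 = p) (pt : (A ⊕ K) × Bool → ZMod p)
    (h : (vm pt).det ≠ 0) (r : (A ⊕ K) × Bool) : pt r ≠ 0 := by
  intro hr
  apply h
  apply Matrix.det_eq_zero_of_column_eq_zero r
  intro v
  have := ex_pos hc v
  simp [vm, hr]
  omega

lemma sum_prod_fn {ι T R : Type*} [Fintype ι] [DecidableEq ι] [Fintype T] [CommSemiring R] (φ : ι → T → R) :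
    ∑ X : ι → T, ∏ i, φ i (X i) = ∏ i, ∑ t, φ i t := by
  classical
  rw [Finset.prod_univ_sum, Fintype.piFinset_univ]

/-- product over all slots -/
lemma prod_slots {R : Type*} [CommMonoid R] (g : (A ⊕ K) × Bool → R) :
    ∏ r, g r = (∏ i : A × Bool, g (Sum.inl i.1, i.2)) * ∏ j : K, g (Sum.inr j, false) * g (Sum.inr j, true) := by
  rw [Fintype.prod_prod_type, Fintype.prod_sum_type, Fintype.prod_prod_type]
  simp only [Fintype.prod_bool]
  congr 1
  apply prod_congr rfl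
  intro j _
  exact mul_comm _ _

lemma sum_slots (g : (A ⊕ K) × Bool → ℕ) :
    ∑ r, g r = (∑ i : A × Bool, g (Sum.inl i.1, i.2)) + ∑ j : K, (g (Sum.inr j, false) + g (Sum.inr j, true)) := by
  rw [Fintype.sum_prod_type, Fintype.sum_sum_type, Fintype.sum_prod_type]
  simp only [Fintype.sum_bool]
  congr 1
  apply sum_congr rfl
  intro j _
  exact add_comm _ _

/-- product of the edge functionals -/
noncomputable def inner (c : A × Bool → ZMod p) (c0 : ZMod p) (d d' : K → ZMod p) (σ τ : Perm ((A ⊕ K) × Bool)) :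
    ZMod p :=
  (∏ i : A × Bool, B (c i) c0 (ex p (σ (Sum.inl i.1, i.2))) (ex p (τ (Sum.inl i.1, i.2)))) *
  (∏ j : K, B (d j) 0 (ex p (σ (Sum.inr j, false))) (ex p (σ (Sum.inr j, true)))) *
  (∏ j : K, B (d' j) 0 (ex p (τ (Sum.inr j, false))) (ex p (τ (Sum.inr j, true))))

lemma inner_eq (c : A × Bool → ZMod p) (c0 : ZMod p) (d d' : K → ZMod p) (σ τ : Perm ((A ⊕ K) × Bool)) :
    ∑ X : A × Bool → ZMod p × Bool, ∑ Y : K → ZMod p × Bool, ∑ Z : K → ZMod p × Bool,
      ((∏ i, sg (X i).2) * (∏ j, sg (Y j).2) * (∏ j, sg (Z j).2)) *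
        ((∏ r, ptA d X Y r ^ ex p (σ r)) * ∏ r, ptB c c0 d' X Z r ^ ex p (τ r)) = inner c c0 d d' σ τ := by
  have h1 : ∀ X Y Z, ((∏ i, sg (X i).2) * (∏ j, sg (Y j).2) * (∏ j, sg (Z j).2)) *
        ((∏ r, ptA d X Y r ^ ex p (σ r)) * ∏ r, ptB c c0 d' X Z r ^ ex p (τ r)) =
      (∏ i : A × Bool, sg (X i).2 * ((X i).1 ^ ex p (σ (Sum.inl i.1, i.2)) *
        ((X i).1 + sg (X i).2 * c i - c0) ^ ex p (τ (Sum.inl i.1, i.2)))) *
      ((∏ j : K, sg (Y j).2 * ((Y j).1 ^ ex p (σ (Sum.inr j, false)) *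
        ((Y j).1 + sg (Y j).2 * d j - 0) ^ ex p (σ (Sum.inr j, true)))) *
      (∏ j : K, sg (Z j).2 * ((Z j).1 ^ ex p (τ (Sum.inr j, false)) *
        ((Z j).1 + sg (Z j).2 * d' j - 0) ^ ex p (τ (Sum.inr j, true))))) := by
    intro X Y Z
    rw [prod_slots, prod_slots]
    simp only [ptA, ptB, sub_zero, prod_mul_distrib]
    ring
  simp only [h1, ← mul_sum, ← sum_mul]
  rw [sum_prod_fn (fun (i : A × Bool) (t : ZMod p × Bool) => sg t.2 * (t.1 ^ ex p (σ (Sum.inl i.1, i.2)) *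
        (t.1 + sg t.2 * c i - c0) ^ ex p (τ (Sum.inl i.1, i.2)))),
    sum_prod_fn (fun (j : K) (t : ZMod p × Bool) => sg t.2 * (t.1 ^ ex p (σ (Sum.inr j, false)) *
        (t.1 + sg t.2 * d j - 0) ^ ex p (σ (Sum.inr j, true)))),
    sum_prod_fn (fun (j : K) (t : ZMod p × Bool) => sg t.2 * (t.1 ^ ex p (τ (Sum.inr j, false)) *
        (t.1 + sg t.2 * d' j - 0) ^ ex p (τ (Sum.inr j, true))))]
  unfold inner B
  ring

/-- all parameters of a configuration -/
abbrev W (A K : Type*) (p : ℕ) := (A × Bool → ZMod p × Bool) × (K → ZMod p × Bool) × (K → ZMod p × Bool)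

/-- product of all the signs -/
def wt (w : W A K p) : ZMod p := (∏ i, sg (w.1 i).2) * (∏ j, sg (w.2.1 j).2) * (∏ j, sg (w.2.2 j).2)

/-- the total sum -/
lemma total_eq (c : A × Bool → ZMod p) (c0 : ZMod p) (d d' : K → ZMod p) :
    ∑ w : W A K p, wt w * ((vm (ptA d w.1 w.2.1)).det * (vm (ptB c c0 d' w.1 w.2.2)).det) =
    ∑ q : Perm ((A ⊕ K) × Bool) × Perm ((A ⊕ K) × Bool),
      ((Perm.sign q.1 : ℤ) : ZMod p) * ((Perm.sign q.2 : ℤ) : ZMod p) * inner c c0 d d' q.1 q.2 := by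
  have h1 : ∀ w : W A K p, wt w * ((vm (ptA d w.1 w.2.1)).det * (vm (ptB c c0 d' w.1 w.2.2)).det) =
      ∑ q : Perm ((A ⊕ K) × Bool) × Perm ((A ⊕ K) × Bool),
        ((Perm.sign q.1 : ℤ) : ZMod p) * ((Perm.sign q.2 : ℤ) : ZMod p) * (wt w *
          ((∏ r, ptA d w.1 w.2.1 r ^ ex p (q.1 r)) * ∏ r, ptB c c0 d' w.1 w.2.2 r ^ ex p (q.2 r))) := by
    intro w
    rw [det_vm, det_vm, sum_mul_sum, mul_sum, Fintype.sum_prod_type]
    apply sum_congr rfl
    intro σ _
    rw [mul_sum]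
    apply sum_congr rfl
    intro τ _
    ring
  rw [sum_congr rfl (fun w _ => h1 w), sum_comm]
  apply sum_congr rfl
  intro q _
  rw [← mul_sum, ← inner_eq, Fintype.sum_prod_type]
  congr 1
  apply sum_congr rfl
  intro X _
  rw [Fintype.sum_prod_type]
  rfl

/-- the value of `inner` at a compatible pair -/
lemma inner_om (hc : 2 * (Fintype.card A + Fintype.card K) + 1 = p) (c : A × Bool → ZMod p) (c0 : ZMod p)
    (d d' : K → ZMod p) {σ τ : Perm ((A ⊕ K) × Bool)} (h : Om σ τ) :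
    ((Perm.sign σ : ℤ) : ZMod p) * ((Perm.sign τ : ℤ) : ZMod p) * inner c c0 d d' σ τ =
      (∏ i, (-(2 * c i))) * (∏ j, (-(2 * d j))) * (∏ j, (-(2 * d' j))) *
      (((Perm.sign (fl : Perm ((A ⊕ K) × Bool)) : ℤ) : ZMod p) * ∏ v : (A ⊕ K) × Bool, ((ex p v : ℕ) : ZMod p)) := by
  have key := om_const h (fun v => ((ex p v : ℕ) : ZMod p)) (exF_fl hc)
  rw [← key]
  obtain ⟨h1, h2, h3⟩ := h
  have e1 : ∀ i : A × Bool, B (c i) c0 (ex p (σ (Sum.inl i.1, i.2))) (ex p (τ (Sum.inl i.1, i.2))) =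
      (-(2 * c i)) * ((ex p (τ (Sum.inl i.1, i.2)) : ℕ) : ZMod p) := by
    intro i
    rw [B_top _ _ _ _ (ex_pos hc _)]
    · ring
    · rw [h1, add_comm]; exact ex_add_fl hc _
  have e2 : ∀ j : K, B (d j) 0 (ex p (σ (Sum.inr j, false))) (ex p (σ (Sum.inr j, true))) =
      (-(2 * d j)) * ((ex p (σ (Sum.inr j, true)) : ℕ) : ZMod p) := by
    intro j
    rw [B_top _ _ _ _ (ex_pos hc _)]
    · ring
    · rw [h2]; exact ex_add_fl hc _
  have e3 : ∀ j : K, B (d' j) 0 (ex p (τ (Sum.inr j, false))) (ex p (τ (Sum.inr j, true))) =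
      (-(2 * d' j)) * ((ex p (τ (Sum.inr j, true)) : ℕ) : ZMod p) := by
    intro j
    rw [B_top _ _ _ _ (ex_pos hc _)]
    · ring
    · rw [h3]; exact ex_add_fl hc _
  unfold inner
  rw [prod_congr rfl (fun i _ => e1 i), prod_congr rfl (fun j _ => e2 j), prod_congr rfl (fun j _ => e3 j),
    prod_mul_distrib, prod_mul_distrib, prod_mul_distrib]
  ring

/-- `inner` vanishes off the compatible pairs -/
lemma om_of_inner_ne (hc : 2 * (Fintype.card A + Fintype.card K) + 1 = p) (c : A × Bool → ZMod p) (c0 : ZMod p)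
    (d d' : K → ZMod p) {σ τ : Perm ((A ⊕ K) × Bool)} (h : inner c c0 d d' σ τ ≠ 0) : Om σ τ := by
  unfold inner at h
  have h3 := right_ne_zero_of_mul h
  have h2 := right_ne_zero_of_mul (left_ne_zero_of_mul h)
  have h1 := left_ne_zero_of_mul (left_ne_zero_of_mul h)
  rw [prod_ne_zero_iff] at h1 h2 h3
  have g1 : ∀ i ∈ (univ : Finset (A × Bool)), p ≤ ex p (σ (Sum.inl i.1, i.2)) + ex p (τ (Sum.inl i.1, i.2)) := by
    intro i hi
    by_contra hlt
    exact h1 i hi (B_zero _ _ _ _ (ex_pos hc _) (by omega))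
  have g2 : ∀ j ∈ (univ : Finset K), p ≤ ex p (σ (Sum.inr j, false)) + ex p (σ (Sum.inr j, true)) := by
    intro j hj
    by_contra hlt
    exact h2 j hj (B_zero _ _ _ _ (ex_pos hc _) (by omega))
  have g3 : ∀ j ∈ (univ : Finset K), p ≤ ex p (τ (Sum.inr j, false)) + ex p (τ (Sum.inr j, true)) := by
    intro j hj
    by_contra hlt
    exact h3 j hj (B_zero _ _ _ _ (ex_pos hc _) (by omega))
  have t1 : ∑ v, ex p (σ v) = p * (Fintype.card A + Fintype.card K) := by
    rw [Equiv.sum_comp σ (fun v => ex p v), ex_sum hc]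
  have t2 : ∑ v, ex p (τ v) = p * (Fintype.card A + Fintype.card K) := by
    rw [Equiv.sum_comp τ (fun v => ex p v), ex_sum hc]
  rw [sum_slots] at t1 t2
  have l1 := sum_le_sum g1
  have l2 := sum_le_sum g2
  have l3 := sum_le_sum g3
  rw [sum_add_distrib] at l1
  rw [sum_const, card_univ, smul_eq_mul] at l1 l2 l3
  rw [Fintype.card_prod, Fintype.card_bool] at l1
  have q1 : ∑ i : A × Bool, p = ∑ i : A × Bool, (ex p (σ (Sum.inl i.1, i.2)) + ex p (τ (Sum.inl i.1, i.2))) := by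
    rw [sum_add_distrib, sum_const, card_univ, smul_eq_mul, Fintype.card_prod, Fintype.card_bool]
    nlinarith
  have q2 : ∑ j : K, p = ∑ j : K, (ex p (σ (Sum.inr j, false)) + ex p (σ (Sum.inr j, true))) := by
    rw [sum_const, card_univ, smul_eq_mul]
    nlinarith
  have q3 : ∑ j : K, p = ∑ j : K, (ex p (τ (Sum.inr j, false)) + ex p (τ (Sum.inr j, true))) := by
    rw [sum_const, card_univ, smul_eq_mul]
    nlinarith
  rw [sum_eq_sum_iff_of_le g1] at q1
  rw [sum_eq_sum_iff_of_le g2] at q2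
  rw [sum_eq_sum_iff_of_le g3] at q3
  refine ⟨fun a b => ?_, fun j => ?_, fun j => ?_⟩
  · have := q1 (a, b) (mem_univ _)
    exact ex_add_eq hc (by rw [add_comm]; exact this.symm)
  · exact ex_add_eq hc (q2 j (mem_univ _)).symm
  · exact ex_add_eq hc (q3 j (mem_univ _)).symm

/-- **Core theorem.** -/
theorem core (hc : 2 * (Fintype.card A + Fintype.card K) + 1 = p) (_hA : p ≠ 2) (c : A × Bool → ZMod p) (c0 : ZMod p)
    (d d' : K → ZMod p) (hc' : ∀ i, c i ≠ 0) (hd : ∀ j, d j ≠ 0) (hd' : ∀ j, d' j ≠ 0) :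
    ∃ w : W A K p, Function.Injective (ptA d w.1 w.2.1) ∧ (∀ r, ptA d w.1 w.2.1 r ≠ 0) ∧
      Function.Injective (ptB c c0 d' w.1 w.2.2) ∧ ∀ r, ptB c c0 d' w.1 w.2.2 r ≠ 0 := by
  have hne : ∑ w : W A K p, wt w * ((vm (ptA d w.1 w.2.1)).det * (vm (ptB c c0 d' w.1 w.2.2)).det) ≠ 0 := by
    rw [total_eq]
    have h1 : ∑ q : Perm ((A ⊕ K) × Bool) × Perm ((A ⊕ K) × Bool),
        ((Perm.sign q.1 : ℤ) : ZMod p) * ((Perm.sign q.2 : ℤ) : ZMod p) * inner c c0 d d' q.1 q.2 =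
        ∑ q ∈ OmF A K, ((Perm.sign q.1 : ℤ) : ZMod p) * ((Perm.sign q.2 : ℤ) : ZMod p) * inner c c0 d d' q.1 q.2 := by
      symm
      apply sum_subset (subset_univ _)
      intro q _ hq
      by_contra hne
      apply hq
      simp only [OmF, mem_filter, mem_univ, true_and]
      exact om_of_inner_ne hc c c0 d d' (right_ne_zero_of_mul hne)
    rw [h1]
    have h2 : ∀ q ∈ OmF A K, ((Perm.sign q.1 : ℤ) : ZMod p) * ((Perm.sign q.2 : ℤ) : ZMod p) * inner c c0 d d' q.1 q.2 =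
        (∏ i, (-(2 * c i))) * (∏ j, (-(2 * d j))) * (∏ j, (-(2 * d' j))) *
        (((Perm.sign (fl : Perm ((A ⊕ K) × Bool)) : ℤ) : ZMod p) * ∏ v : (A ⊕ K) × Bool, ((ex p v : ℕ) : ZMod p)) := by
      intro q hq
      simp only [OmF, mem_filter, mem_univ, true_and] at hq
      exact inner_om hc c c0 d d' hq
    rw [sum_congr rfl h2, sum_const, nsmul_eq_mul]
    have h20 : (2 : ZMod p) ≠ 0 := by
      intro h
      have h3 : ((2 : ℕ) : ZMod p) = 0 := by exact_mod_cast h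
      rw [ZMod.natCast_eq_zero_iff] at h3
      have h4 := Nat.le_of_dvd (by norm_num) h3
      have h5 := hp.out.two_le
      omega
    apply mul_ne_zero
    · rw [Ne, ZMod.natCast_eq_zero_iff]
      exact not_dvd_card_OmF hp.out (by omega)
    · refine mul_ne_zero (mul_ne_zero (mul_ne_zero ?_ ?_) ?_) (mul_ne_zero ?_ ?_)
      · exact prod_ne_zero_iff.2 (fun i _ => neg_ne_zero.2 (mul_ne_zero h20 (hc' i)))
      · exact prod_ne_zero_iff.2 (fun i _ => neg_ne_zero.2 (mul_ne_zero h20 (hd i)))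
      · exact prod_ne_zero_iff.2 (fun i _ => neg_ne_zero.2 (mul_ne_zero h20 (hd' i)))
      · rcases Int.units_eq_one_or (Perm.sign (fl : Perm ((A ⊕ K) × Bool))) with h | h <;> simp [h]
      · exact prod_ne_zero_iff.2 (fun v _ => exF_ne hc v)
  obtain ⟨w, -, hw⟩ := exists_ne_zero_of_sum_ne_zero hne
  have h1 := right_ne_zero_of_mul hw
  have hA' := left_ne_zero_of_mul h1
  have hB' := right_ne_zero_of_mul h1
  exact ⟨w, inj_of_det_ne _ hA', ne_zero_of_det_ne hc _ hA', inj_of_det_ne _ hB', ne_zero_of_det_ne hc _ hB'⟩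

end main

end Pool.Agent.H71.Match
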