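import Mathlib
import Pool.Agent.H71.MatchDefs
import Pool.Agent.H71.MatchMain

set_option autoImplicit false
set_option linter.unusedSectionVars false

namespace Pool.Agent.H71.Match

open Finset

lemma edgeLength_mk (n : ℕ) (x y : ZMod (2 * n)) : edgeLength n s(x, y) =
    min ((x.val : ℤ) - (y.val : ℤ)).natAbs (2 * n - ((x.val : ℤ) - (y.val : ℤ)).natAbs) := rfl

lemma edgeLength_add (n l : ℕ) (hl : 1 ≤ l) (hl' : l < n) (u : ZMod (2 * n)) :
    edgeLength n s(u, u + (l : ZMod (2 * n))) = l := by
  have hn : 0 < 2 * n := by omega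
  have : NeZero (2 * n) := ⟨hn.ne'⟩
  rw [edgeLength_mk]
  have h1 : (u + (l : ZMod (2 * n))).val = (u.val + l) % (2 * n) := by
    rw [ZMod.val_add, ZMod.val_natCast, Nat.mod_eq_of_lt (a := l) (by omega)]
  have h2 := ZMod.val_lt u
  rw [h1]
  by_cases h3 : u.val + l < 2 * n
  · rw [Nat.mod_eq_of_lt h3]
    omega
  · rw [Nat.mod_eq_sub_mod (by omega), Nat.mod_eq_of_lt (by omega)]
    omega

lemma edgeLength_add' (n l : ℕ) (hl : 1 ≤ l) (hl' : l < n) (u v : ZMod (2 * n)) (h : v = u + (l : ZMod (2 * n)) ∨
    u = v + (l : ZMod (2 * n))) : edgeLength n s(u, v) = l := by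
  rcases h with rfl | rfl
  · exact edgeLength_add n l hl hl' u
  · rw [Sym2.eq_swap]; exact edgeLength_add n l hl hl' v

/-- enumerate a multiset by a finite type -/
lemma exists_enum (s : Multiset ℕ) (T : Type) [Fintype T] (h : Fintype.card T = Multiset.card s) :
    ∃ f : T → ℕ, (univ : Finset T).val.map f = s := by
  obtain ⟨l, rfl⟩ := Quot.exists_rep s
  have hl : Fintype.card T = l.length := by simpa using h
  let e : T ≃ Fin l.length := (Fintype.equivFin T).trans (finCongr hl)
  refine ⟨fun t => l.get (e t), ?_⟩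
  have h1 : (univ : Finset T).val.map e = (univ : Finset (Fin l.length)).val := by
    have := congrArg Finset.val (Finset.map_univ_equiv e)
    simp
  have h2 : (univ : Finset T).val.map (fun t => l.get (e t)) = ((univ : Finset T).val.map e).map l.get := by
    rw [Multiset.map_map]; rfl
  rw [h2, h1]
  show ((List.finRange l.length : List (Fin l.length)) : Multiset (Fin l.length)).map l.get = _
  rw [Multiset.map_coe]
  congr 1
  exact List.map_get_finRange l


section construction

variable {p : ℕ} [hp : Fact p.Prime] {A K : Type} [Fintype A] [DecidableEq A] [Fintype K] [DecidableEq K]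

/-- edge index type -/
abbrev EI (A K : Type) := Option (A × Bool) ⊕ (K ⊕ K)

/-- slots: layer and position -/
def slot : EI A K × Bool → Bool × Option ((A ⊕ K) × Bool)
  | (Sum.inl none, b) => (b, none)
  | (Sum.inl (some i), b) => (b, some (Sum.inl i.1, i.2))
  | (Sum.inr (Sum.inl j), b) => (false, some (Sum.inr j, b))
  | (Sum.inr (Sum.inr j), b) => (true, some (Sum.inr j, b))

lemma slot_inj : Function.Injective (slot : EI A K × Bool → Bool × Option ((A ⊕ K) × Bool)) := by
  rintro ⟨e, b⟩ ⟨e', b'⟩ h
  rcases e with (_ | ⟨a, x⟩) | (j | j) <;> rcases e' with (_ | ⟨a', x'⟩) | (j' | j') <;>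
    simp only [slot, Prod.mk.injEq, Option.some.injEq, Sum.inl.injEq, Sum.inr.injEq, reduceCtorEq, and_false,
      false_and, and_true, true_and, Bool.true_eq_false, Bool.false_eq_true] at h ⊢
  · exact h
  · exact ⟨⟨h.2.1, h.2.2⟩, h.1⟩
  · exact h
  · exact h

/-- position of a slot -/
def pos (PA PB : (A ⊕ K) × Bool → ZMod p) (c0 : ZMod p) : Bool × Option ((A ⊕ K) × Bool) → ZMod 2 × ZMod p
  | (false, none) => (0, 0)
  | (false, some r) => (0, PA r)
  | (true, none) => (1, c0)
  | (true, some r) => (1, PB r + c0)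

lemma pos_inj {PA PB : (A ⊕ K) × Bool → ZMod p} {c0 : ZMod p} (hA : Function.Injective PA) (hA' : ∀ r, PA r ≠ 0)
    (hB : Function.Injective PB) (hB' : ∀ r, PB r ≠ 0) : Function.Injective (pos PA PB c0) := by
  have h01 : (0 : ZMod 2) ≠ 1 := by decide
  rintro ⟨b, o⟩ ⟨b', o'⟩ h
  cases b <;> cases b' <;> rcases o with _ | r <;> rcases o' with _ | r' <;>
    simp only [pos, Prod.mk.injEq] at h
  · rfl
  · exact absurd h.2.symm (hA' r')
  · exact absurd h.2 (hA' r)
  · rw [hA h.2]
  · exact absurd h.1 h01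
  · exact absurd h.1 h01
  · exact absurd h.1 h01
  · exact absurd h.1 h01
  · exact absurd h.1.symm h01
  · exact absurd h.1.symm h01
  · exact absurd h.1.symm h01
  · exact absurd h.1.symm h01
  · rfl
  · exact absurd (by linear_combination -h.2 : PB r' = 0) (hB' r')
  · exact absurd (by linear_combination h.2 : PB r = 0) (hB' r)
  · have h2 : PB r = PB r' := by linear_combination h.2
    rw [hB h2]

/-- a perfect matching from a bijective labelling of edge ends -/
lemma matching_of_bij {n : ℕ} {E : Type} [Fintype E] (f : E × Bool → ZMod (2 * n)) (hf : Function.Bijective f) :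
    ∃ F : Finset (Sym2 (ZMod (2 * n))), IsPerfectMatching n F ∧
      F.val.map (edgeLength n) = (univ : Finset E).val.map (fun e => edgeLength n s(f (e, false), f (e, true))) := by
  classical
  have hmem : ∀ e v, v ∈ s(f (e, false), f (e, true)) ↔ ∃ b, v = f (e, b) := by
    intro e v
    rw [Sym2.mem_iff]
    constructor
    · rintro (h | h)
      · exact ⟨false, h⟩
      · exact ⟨true, h⟩
    · rintro ⟨b, h⟩
      cases b
      · exact Or.inl h
      · exact Or.inr h
  have huniq : ∀ e e' v, v ∈ s(f (e, false), f (e, true)) → v ∈ s(f (e', false), f (e', true)) → e = e' := by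
    intro e e' v h h'
    rw [hmem] at h h'
    obtain ⟨b, rfl⟩ := h
    obtain ⟨b', h'⟩ := h'
    exact congrArg Prod.fst (hf.1 h')
  have hinj : Function.Injective (fun e => s(f (e, false), f (e, true))) := by
    intro e e' h
    have h1 : f (e, false) ∈ s(f (e, false), f (e, true)) := Sym2.mem_mk_left _ _
    have h2 : f (e, false) ∈ s(f (e', false), f (e', true)) := by
      have := h
      simp only at this
      rw [← this]; exact h1
    exact huniq e e' _ h1 h2
  refine ⟨univ.image (fun e => s(f (e, false), f (e, true))), ⟨?_, ?_⟩, ?_⟩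
  · intro e he
    rw [mem_image] at he
    obtain ⟨e', -, rfl⟩ := he
    rw [Sym2.mk_isDiag_iff]
    intro h
    have := congrArg Prod.snd (hf.1 h)
    simp at this
  · intro v
    obtain ⟨⟨e, b⟩, rfl⟩ := hf.2 v
    refine ⟨s(f (e, false), f (e, true)), ⟨mem_image_of_mem _ (mem_univ _), (hmem _ _).2 ⟨b, rfl⟩⟩, ?_⟩
    rintro e' ⟨he', hv⟩
    rw [mem_image] at he'
    obtain ⟨e'', -, rfl⟩ := he'
    rw [huniq e'' e _ hv ((hmem _ _).2 ⟨b, rfl⟩)]
  · rw [image_val_of_injOn (hinj.injOn), Multiset.map_map]
    rfl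

theorem sufficiency (hodd : p ≠ 2) (L : Multiset ℕ) (hL : Multiset.card L = p) (hL' : ∀ l ∈ L, 1 ≤ l ∧ l ≤ p - 1)
    (heven : Even (L.countP (fun l => Even l))) :
    ∃ F : Finset (Sym2 (ZMod (2 * p))), IsPerfectMatching p F ∧ F.val.map (edgeLength p) = L := by
  classical
  have hpodd : p % 2 = 1 := by
    rcases hp.out.eq_two_or_odd with h | h
    · exact absurd h hodd
    · exact h
  obtain ⟨e, he⟩ := heven
  set Lev := L.filter (fun l => Even l) with hLev
  set Lod := L.filter (fun l => ¬ Even l) with hLod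
  have hsplit : Lev + Lod = L := Multiset.filter_add_not _ _
  have hcev : Multiset.card Lev = e + e := by rw [hLev, ← Multiset.countP_eq_card_filter, he]
  have hcsum : Multiset.card Lev + Multiset.card Lod = p := by rw [← Multiset.card_add, hsplit, hL]
  have hcod : Multiset.card Lod = ((p - 1) / 2 - e) * 2 + 1 := by omega
  let A := Fin ((p - 1) / 2 - e)
  let K := Fin e
  obtain ⟨fe, hfe⟩ := exists_enum Lev (K ⊕ K) (by simp [K, hcev])
  obtain ⟨fo, hfo⟩ := exists_enum Lod (Option (A × Bool)) (by simp [A, hcod])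
  have hfe' : ∀ t, fe t ∈ Lev := by
    intro t; rw [← hfe]; exact Multiset.mem_map_of_mem _ (Finset.mem_univ_val _)
  have hfo' : ∀ t, fo t ∈ Lod := by
    intro t; rw [← hfo]; exact Multiset.mem_map_of_mem _ (Finset.mem_univ_val _)
  have hrange : ∀ l, l ∈ L → 1 ≤ l ∧ l < p := by
    intro l hl
    have := hL' l hl
    have := hp.out.two_le
    omega
  have hfer : ∀ t, 1 ≤ fe t ∧ fe t < p := fun t => hrange _ (Multiset.mem_of_mem_filter (hfe' t))
  have hfor : ∀ t, 1 ≤ fo t ∧ fo t < p := fun t => hrange _ (Multiset.mem_of_mem_filter (hfo' t))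
  have hnz : ∀ l : ℕ, 1 ≤ l → l < p → (l : ZMod p) ≠ 0 := by
    intro l h1 h2 h3
    rw [ZMod.natCast_eq_zero_iff] at h3
    exact absurd (Nat.le_of_dvd (by omega) h3) (by omega)
  have hc : 2 * (Fintype.card A + Fintype.card K) + 1 = p := by
    simp only [A, K, Fintype.card_fin]; omega
  set c : A × Bool → ZMod p := fun i => (fo (some i) : ZMod p) with hcdef
  set c0 : ZMod p := (fo none : ZMod p) with hc0
  set d : K → ZMod p := fun j => (fe (Sum.inl j) : ZMod p) with hd
  set d' : K → ZMod p := fun j => (fe (Sum.inr j) : ZMod p) with hd'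
  obtain ⟨w, hA1, hA2, hB1, hB2⟩ := core hc hodd c c0 d d' (fun i => hnz _ (hfor _).1 (hfor _).2)
    (fun j => hnz _ (hfer _).1 (hfer _).2) (fun j => hnz _ (hfer _).1 (hfer _).2)
  have hcop : Nat.Coprime 2 p := by
    rw [Nat.coprime_two_left]; exact Nat.odd_iff.2 hpodd
  let Φ : ZMod (2 * p) ≃+* ZMod 2 × ZMod p := ZMod.chineseRemainder hcop
  set g : EI A K × Bool → ZMod 2 × ZMod p := fun x => pos (ptA d w.1 w.2.1) (ptB c c0 d' w.1 w.2.2) c0 (slot x)
    with hg
  have hginj : Function.Injective g := (pos_inj hA1 hA2 hB1 hB2).comp slot_inj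
  have hgbij : Function.Bijective g := by
    rw [Fintype.bijective_iff_injective_and_card]
    refine ⟨hginj, ?_⟩
    simp only [EI, Fintype.card_prod, Fintype.card_sum, Fintype.card_option, Fintype.card_bool, ZMod.card]
    have : Fintype.card A * 2 + 1 + (Fintype.card K + Fintype.card K) = p := by omega
    rw [this, mul_comm]
  obtain ⟨F, hF, hFL⟩ := matching_of_bij (n := p) (fun x => Φ.symm (g x)) (Φ.symm.bijective.comp hgbij)
  refine ⟨F, hF, ?_⟩
  rw [hFL]
  -- lengths
  have hcast : ∀ l : ℕ, Φ (l : ZMod (2 * p)) = ((l : ZMod 2), (l : ZMod p)) := by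
    intro l; rw [map_natCast]; rfl
  have hlen : ∀ (l : ℕ) (u v : ZMod 2 × ZMod p), 1 ≤ l → l < p →
      (v = u + ((l : ZMod 2), (l : ZMod p)) ∨ u = v + ((l : ZMod 2), (l : ZMod p))) →
      edgeLength p s(Φ.symm u, Φ.symm v) = l := by
    intro l u v h1 h2 h
    apply edgeLength_add' p l h1 h2
    rcases h with h | h
    · left
      rw [RingEquiv.symm_apply_eq, map_add, RingEquiv.apply_symm_apply, hcast, h]
    · right
      rw [RingEquiv.symm_apply_eq, map_add, RingEquiv.apply_symm_apply, hcast, h]
  have hodd1 : ∀ t, ((fo t : ℕ) : ZMod 2) = 1 := by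
    intro t
    have := (Multiset.mem_filter.1 (hfo' t)).2
    rw [Nat.not_even_iff_odd] at this
    exact (ZMod.natCast_eq_one_iff_odd).2 this
  have heven0 : ∀ t, ((fe t : ℕ) : ZMod 2) = 0 := by
    intro t
    have := (Multiset.mem_filter.1 (hfe' t)).2
    exact (ZMod.natCast_eq_zero_iff_even).2 this
  have h11 : (1 : ZMod 2) + 1 = 0 := by decide
  have key : ∀ x : EI A K, edgeLength p s(Φ.symm (g (x, false)), Φ.symm (g (x, true))) = Sum.elim fo fe x := by
    rintro ((_ | i) | (j | j))
    · apply hlen _ _ _ (hfor _).1 (hfor _).2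
      left
      simp only [hg, slot, pos, hodd1, Prod.mk_add_mk, zero_add, hc0]
    · apply hlen _ _ _ (hfor _).1 (hfor _).2
      simp only [hg, slot, pos, hodd1, ptA, ptB, Prod.mk_add_mk, zero_add, Prod.mk.injEq, true_and, h11]
      cases (w.1 (i.1, i.2)).2
      · right
        simp only [sg, hcdef, Bool.false_eq_true, if_false]
        ring
      · left
        simp only [sg, hcdef, if_true]
        ring
    · apply hlen _ _ _ (hfer _).1 (hfer _).2
      simp only [hg, slot, pos, heven0, ptA, Prod.mk_add_mk, zero_add, Prod.mk.injEq, true_and]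
      cases (w.2.1 j).2
      · right
        simp only [sg, hd, Bool.false_eq_true, if_false]
        ring
      · left
        simp only [sg, hd, if_true]
        ring
    · apply hlen _ _ _ (hfer _).1 (hfer _).2
      simp only [hg, slot, pos, heven0, ptB, Prod.mk_add_mk, add_zero, Prod.mk.injEq, true_and]
      cases (w.2.2 j).2
      · right
        simp only [sg, hd', Bool.false_eq_true, if_false]
        ring
      · left
        simp only [sg, hd', if_true]
        ring
  rw [Multiset.map_congr rfl (fun x _ => key x)]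
  have huniv : (univ : Finset (EI A K)).val = (univ : Finset (Option (A × Bool))).val.map Sum.inl +
      (univ : Finset (K ⊕ K)).val.map Sum.inr := rfl
  rw [huniv, Multiset.map_add, Multiset.map_map, Multiset.map_map]
  have e1 : (univ : Finset (Option (A × Bool))).val.map ((fun x => Sum.elim fo fe x) ∘ Sum.inl) = Lod := hfo
  have e2 : (univ : Finset (K ⊕ K)).val.map ((fun x => Sum.elim fo fe x) ∘ Sum.inr) = Lev := hfe
  rw [e1, e2, add_comm, hsplit]

end construction

end Pool.Agent.H71.Match
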