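import Mathlib
import Pool.Agent.H71.MatchDefs

set_option autoImplicit false

namespace Pool.Agent.H71.Match

open Finset

lemma card_even_range (n : ℕ) : ((range (2 * n)).filter (fun x => Even x)).card = n := by
  induction n with
  | zero => simp
  | succ n ih =>
    rw [show 2 * (n + 1) = 2 * n + 1 + 1 by ring, range_add_one, filter_insert, range_add_one, filter_insert]
    have h1 : ¬ Even (2 * n + 1) := by rw [Nat.not_even_iff_odd]; exact odd_two_mul_add_one n
    have h2 : Even (2 * n) := even_two_mul n
    rw [if_neg h1, if_pos h2, card_insert_of_notMem (by simp), ih]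

theorem necessity (n : ℕ) (hn : 0 < n) (F : Finset (Sym2 (ZMod (2 * n)))) (hF : IsPerfectMatching n F) :
    Even ((F.val.map (edgeLength n)).countP (fun l => Even l)) := by
  classical
  have hne : NeZero (2 * n) := ⟨by omega⟩
  obtain ⟨hd, hu⟩ := hF
  -- number of edges at a vertex
  have hone : ∀ v : ZMod (2 * n), (F.filter (fun e => v ∈ e)).card = 1 := by
    intro v
    rw [card_eq_one]
    obtain ⟨e, he, huniq⟩ := hu v
    refine ⟨e, ?_⟩
    ext e'
    rw [mem_filter, mem_singleton]
    constructor
    · intro h; exact huniq e' h
    · rintro rfl; exact he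
  have hdc : ∀ s : Finset (ZMod (2 * n)), s.card = ∑ e ∈ F, (s.filter (fun v => v ∈ e)).card := by
    intro s
    have h := sum_card_bipartiteAbove_eq_sum_card_bipartiteBelow (s := s) (t := F)
      (fun (v : ZMod (2 * n)) (e : Sym2 (ZMod (2 * n))) => v ∈ e)
    simp only [bipartiteAbove, bipartiteBelow] at h
    rw [← h, sum_congr rfl (fun v _ => hone v)]
    simp
  set ev : Finset (ZMod (2 * n)) := univ.filter (fun v => Even v.val) with hev
  have hevcard : ev.card = n := by
    refine Eq.trans ?_ (card_even_range n)
    rw [← card_image_of_injective ev (ZMod.val_injective (2 * n))]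
    congr 1
    ext x
    simp only [hev, mem_image, mem_filter, mem_univ, true_and, mem_range]
    constructor
    · rintro ⟨v, hv, rfl⟩
      exact ⟨ZMod.val_lt v, hv⟩
    · rintro ⟨h1, h2⟩
      refine ⟨(x : ZMod (2 * n)), ?_, ?_⟩
      · rw [ZMod.val_natCast, Nat.mod_eq_of_lt h1]; exact h2
      · rw [ZMod.val_natCast, Nat.mod_eq_of_lt h1]
  have hFcard : F.card = n := by
    have h := hdc univ
    rw [card_univ, ZMod.card] at h
    have h2 : ∀ e ∈ F, (univ.filter (fun v => v ∈ e)).card = 2 := by
      intro e he
      induction e using Sym2.inductionOn with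
      | _ x y =>
        have hxy : x ≠ y := by
          have := hd _ he
          rwa [Sym2.mk_isDiag_iff] at this
        have : (univ.filter (fun v => v ∈ s(x, y))) = {x, y} := by
          ext v; simp [Sym2.mem_iff]
        rw [this, card_pair hxy]
    rw [sum_congr rfl h2, sum_const, smul_eq_mul] at h
    omega
  have hk : ∀ e ∈ F, (((ev.filter (fun v => v ∈ e)).card : ℕ) : ZMod 2) =
      if Even (edgeLength n e) then 0 else 1 := by
    intro e he
    induction e using Sym2.inductionOn with
    | _ x y =>
      have hxy : x ≠ y := by
        have := hd _ he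
        rwa [Sym2.mk_isDiag_iff] at this
      have h1 : (ev.filter (fun v => v ∈ s(x, y))) = ({x, y} : Finset (ZMod (2 * n))).filter (fun v => Even v.val) := by
        ext v
        simp only [hev, mem_filter, mem_univ, true_and, Sym2.mem_iff, mem_insert, mem_singleton]
        tauto
      rw [h1]
      have hlen : Even (edgeLength n s(x, y)) ↔ (Even x.val ↔ Even y.val) := by
        show Even (min ((x.val : ℤ) - (y.val : ℤ)).natAbs (2 * n - ((x.val : ℤ) - (y.val : ℤ)).natAbs)) ↔ _
        have hx := ZMod.val_lt x
        have hy := ZMod.val_lt y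
        simp only [Nat.even_iff]
        omega
      by_cases hx : Even x.val <;> by_cases hy : Even y.val
      · rw [if_pos (hlen.2 (by simp [hx, hy])), filter_insert, if_pos hx, filter_singleton, if_pos hy,
          card_pair hxy]
        rfl
      · rw [if_neg (fun h => by have := hlen.1 h; tauto), filter_insert, if_pos hx, filter_singleton, if_neg hy]
        simp
      · rw [if_neg (fun h => by have := hlen.1 h; tauto), filter_insert, if_neg hx, filter_singleton, if_pos hy]
        simp
      · rw [if_pos (hlen.2 (by simp [hx, hy])), filter_insert, if_neg hx, filter_singleton, if_neg hy]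
        simp
  have hsum : ((n : ℕ) : ZMod 2) = ∑ e ∈ F, (if Even (edgeLength n e) then (0 : ZMod 2) else 1) := by
    rw [← sum_congr rfl hk, ← Nat.cast_sum, ← hdc ev, hevcard]
  have hsum2 : ∑ e ∈ F, (if Even (edgeLength n e) then (0 : ZMod 2) else 1) =
      (((F.filter (fun e => ¬ Even (edgeLength n e))).card : ℕ) : ZMod 2) := by
    rw [card_filter]
    push_cast
    apply sum_congr rfl
    intro e _
    by_cases h : Even (edgeLength n e) <;> simp [h]
  have hcount : (F.val.map (edgeLength n)).countP (fun l => Even l) = (F.filter (fun e => Even (edgeLength n e))).card := by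
    rw [Multiset.countP_map]
    rfl
  rw [hcount]
  have htot : (F.filter (fun e => Even (edgeLength n e))).card + (F.filter (fun e => ¬ Even (edgeLength n e))).card = n := by
    rw [card_filter_add_card_filter_not, hFcard]
  have hz : (((F.filter (fun e => Even (edgeLength n e))).card : ℕ) : ZMod 2) = 0 := by
    have h1 := congrArg (fun m : ℕ => (m : ZMod 2)) htot
    simp only [Nat.cast_add] at h1
    rw [← hsum2, ← hsum] at h1
    simpa using h1
  exact (ZMod.natCast_eq_zero_iff_even).1 hz

end Pool.Agent.H71.Match
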