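import Mathlib

/-!
Definitions for rotation snarks (graphs are simple graphs in the sense of Mathlib).

The tree `T_i` is given by a standard model: the centre is `none`; every other vertex is a pair `(b, h)` where
`b : Fin 3` is the branch at the centre and `h` is a heap index with `1 ≤ h < 2 ^ i`: `(b, 1)` is the neighbour of
the centre in branch `b`, and `(b, 2 h)`, `(b, 2 h + 1)` are the two children of `(b, h)`. The vertices with
`2 ^ (i - 1) ≤ h` are the leaves, `l_i = 3 * 2 ^ (i - 1)` in number, all at distance `i` from the centre.

In a crossing-free plane drawing of `T_i` with all leaves on a circle the leaves behind every edge are consecutive on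
the circle, and the leaves `l_i - 1` and `0` lie on a common face with the centre iff they are in different branches.
So a labelling of the leaves satisfies (1) and (2) of the problem file exactly when the labelled tree is isomorphic to
the standard labelled tree, in which the leaf `(b, h)` has the label `b * 2 ^ (i - 1) + (h - 2 ^ (i - 1))`.
-/

set_option autoImplicit false

namespace Pool.Agent.H71.Rot

open SimpleGraph

section general

variable {V : Type*}

/-- Every vertex of `G` has exactly three neighbours. -/
def IsCubic (G : SimpleGraph V) : Prop := ∀ v, (G.neighborSet v).ncard = 3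

/-- The set of the edges of `G` with exactly one end in `A`. -/
def edgeCut (G : SimpleGraph V) (A : Set V) : Set (Sym2 V) :=
  {e | ∃ u v, u ∈ A ∧ v ∉ A ∧ G.Adj u v ∧ e = s(u, v)}

/-- `G` is cyclically `4`-edge-connected: every edge cut that has a cycle of `G` on either side contains at least
four edges. -/
def CyclicallyFourEdgeConnected (G : SimpleGraph V) : Prop :=
  ∀ A : Set V, ¬ (G.induce A).IsAcyclic → ¬ (G.induce Aᶜ).IsAcyclic → 4 ≤ (edgeCut G A).encard

/-- A snark: a finite cubic graph that is cyclically `4`-edge-connected, has girth at least `5` and admits no proper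
`3`-edge-colouring (a proper vertex colouring of its line graph with three colours). -/
structure IsSnark (G : SimpleGraph V) : Prop where
  finite : Finite V
  cubic : IsCubic G
  cyclicallyConnected : CyclicallyFourEdgeConnected G
  girth : 5 ≤ G.egirth
  uncolourable : ¬ G.lineGraph.Colorable 3

end general

/-- Vertices of the standard model of the tree `T_i`: the centre `none`, and `(b, h)` with `b : Fin 3` and
`1 ≤ h < 2 ^ i`. -/
abbrev TVertex (i : ℕ) : Type := Option (Fin 3 × {h : ℕ // 1 ≤ h ∧ h < 2 ^ i})

/-- `IsParent u v`: `u` is the parent of `v` in the tree rooted at the centre. The parent of `(b, 1)` is the centre,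
the parent of `(b, h)`, `h ≥ 2`, is `(b, ⌊h / 2⌋)`. -/
def IsParent {i : ℕ} : TVertex i → TVertex i → Prop
  | none, some (_, h) => h.1 = 1
  | some (b, h), some (b', h') => b = b' ∧ h'.1 / 2 = h.1
  | _, none => False

/-- The tree `T_i`. -/
def treeGraph (i : ℕ) : SimpleGraph (TVertex i) where
  Adj u v := IsParent u v ∨ IsParent v u
  symm := ⟨fun _ _ h => h.symm⟩
  loopless := ⟨fun v h => by
    rcases v with _ | ⟨b, h1⟩
    · simp [IsParent] at h
    · have := h1.2.1
      simp only [IsParent, true_and, or_self] at h
      omega⟩

/-- The leaves of `T_i`. -/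
def IsLeaf {i : ℕ} : TVertex i → Prop
  | none => False
  | some (_, h) => 2 ^ (i - 1) ≤ h.1

/-- The label (from `0` to `l_i - 1`) of a leaf of `T_i` in the standard plane drawing. -/
def label {i : ℕ} : TVertex i → ℕ
  | none => 0
  | some (b, h) => b.1 * 2 ^ (i - 1) + (h.1 - 2 ^ (i - 1))

/-- `G` is a rotation `T_i`-snark: `G` is a snark and there is a bijection `e` from the vertices of `T_i` to those of
`G` which maps edges of `T_i` to edges of `G` (so its image is a spanning tree isomorphic to `T_i`), such that for all
leaves `a`, `b` of the tree, if `ab` is an edge of `G` then so is `a'b'`, where `a'` and `b'` are the leaves whose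
labels are those of `a` and `b` increased by `l_i / 3 = 2 ^ (i - 1)` modulo `l_i = 3 * 2 ^ (i - 1)`. -/
def IsRotationTSnark {V : Type*} (i : ℕ) (G : SimpleGraph V) : Prop :=
  IsSnark G ∧ ∃ e : TVertex i ≃ V,
    (∀ u v, (treeGraph i).Adj u v → G.Adj (e u) (e v)) ∧
    ∀ a b a' b' : TVertex i, IsLeaf a → IsLeaf b → IsLeaf a' → IsLeaf b' →
      label a' = (label a + 2 ^ (i - 1)) % (3 * 2 ^ (i - 1)) →
      label b' = (label b + 2 ^ (i - 1)) % (3 * 2 ^ (i - 1)) →
      G.Adj (e a) (e b) → G.Adj (e a') (e b')

/-- `G` is a rotation snark: a rotation `T_i`-snark for some `i ≥ 2`. -/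
def IsRotationSnark {V : Type*} (G : SimpleGraph V) : Prop := ∃ i, 2 ≤ i ∧ IsRotationTSnark i G

end Pool.Agent.H71.Rot
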