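import Mathlib
import Pool.Agent.H71.RotDefs

set_option autoImplicit false

namespace Pool.Agent.H71.Rot

open SimpleGraph

lemma isAcyclic_of_rank {V : Type*} (H : SimpleGraph V) (f : V → ℕ)
    (hf : ∀ v a b, H.Adj v a → H.Adj v b → f a ≤ f v → f b ≤ f v → a = b) : H.IsAcyclic := by
  classical
  intro a w hw
  have hne : (w.support.toFinset).Nonempty := ⟨a, by simp⟩
  obtain ⟨v, hv, hmax⟩ := Finset.exists_max_image w.support.toFinset f hne
  have hv' : v ∈ w.support := by simpa using hv
  have hc : (w.rotate v hv').IsCycle := hw.rotate hv'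
  set c := w.rotate v hv' with hcdef
  have hnn : ¬ c.Nil := hc.not_nil
  have h1 : H.Adj v c.snd := c.adj_snd hnn
  have h2 : H.Adj v c.penultimate := (c.adj_penultimate hnn).symm
  have h3 : c.snd ≠ c.penultimate := hc.snd_ne_penultimate
  have hsup : ∀ x ∈ c.support, x ∈ w.support := by
    intro x hx
    rw [hcdef] at hx
    rwa [Walk.mem_support_rotate_iff] at hx
  have h4 : f c.snd ≤ f v := hmax _ (by
    simp only [List.mem_toFinset]
    exact hsup _ (c.getVert_mem_support 1))
  have h5 : f c.penultimate ≤ f v := hmax _ (by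
    simp only [List.mem_toFinset]
    exact hsup _ (c.getVert_mem_support _))
  exact h3 (hf v _ _ h1 h2 h4 h5)

lemma five_le_egirth {V : Type*} (G : SimpleGraph V)
    (h3 : ∀ a b c, G.Adj a b → G.Adj b c → G.Adj c a → False)
    (h4 : ∀ a b c d, G.Adj a b → G.Adj b c → G.Adj c d → G.Adj d a → a ≠ c → b ≠ d → False) :
    5 ≤ G.egirth := by
  rw [show (5 : ℕ∞) = ((5 : ℕ) : ℕ∞) from rfl, le_egirth]
  intro a w hw
  have h3' := hw.three_le_length
  by_contra hlt
  have hlt' : w.length < 5 := by
    rw [not_le] at hlt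
    exact_mod_cast hlt
  have hlen : w.length = 3 ∨ w.length = 4 := by omega
  have hnodup := hw.support_nodup
  rcases hlen with hl | hl
  · match w, hl, hnodup with
    | .cons e1 (.cons e2 (.cons e3 .nil)), _, _ => exact h3 _ _ _ e1 e2 e3
  · match w, hl, hnodup with
    | .cons e1 (.cons e2 (.cons e3 (.cons e4 .nil))), _, hnd =>
      simp only [Walk.support_cons, Walk.support_nil, List.tail_cons, List.nodup_cons, List.mem_cons,
        List.not_mem_nil, or_false, not_or] at hnd
      exact h4 _ _ _ _ e1 e2 e3 e4 (fun h => hnd.2.1.2 h.symm) (fun h => hnd.1.2.1 h)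

end Pool.Agent.H71.Rot
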