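import Mathlib
import Pool.Agent.H71.RotGen

set_option autoImplicit false

namespace Pool.Agent.H71.Rot

open SimpleGraph

instance (i : ℕ) : Finite {h : ℕ // 1 ≤ h ∧ h < 2 ^ i} :=
  Set.Finite.to_subtype (s := {h : ℕ | 1 ≤ h ∧ h < 2 ^ i})
    ((Set.finite_Ico 1 (2 ^ i)).subset (fun _ h => h))

/-- rank: heap index, `0` for the centre -/
def rank {i : ℕ} : TVertex i → ℕ
  | none => 0
  | some (_, h) => h.1

def parentOf {i : ℕ} : TVertex i → TVertex i
  | none => none
  | some (b, h) => if hh : 2 ≤ h.1 then some (b, ⟨h.1 / 2, by have := h.2; omega⟩) else none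

lemma isParent_iff {i : ℕ} (u v : TVertex i) : IsParent u v ↔ v ≠ none ∧ parentOf v = u := by
  rcases u with _ | ⟨b, h, hh⟩ <;> rcases v with _ | ⟨b', h', hh'⟩
  · simp [IsParent]
  · simp only [IsParent, ne_eq, reduceCtorEq, not_false_eq_true, true_and, parentOf]
    split_ifs with h2
    · simp; omega
    · simp; omega
  · simp [IsParent]
  · simp only [IsParent, ne_eq, reduceCtorEq, not_false_eq_true, true_and, parentOf]
    split_ifs with h2
    · simp [eq_comm]
    · simp; omega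

lemma rank_parentOf {i : ℕ} (v : TVertex i) (hv : v ≠ none) : rank (parentOf v) < rank v := by
  rcases v with _ | ⟨b, h, hh⟩
  · exact absurd rfl hv
  · simp only [parentOf]
    split_ifs with h2
    · simp only [rank]; omega
    · simp only [rank]; omega

lemma tree_induction {i : ℕ} (P : TVertex i → Prop) (h0 : P none)
    (hs : ∀ v, v ≠ none → P (parentOf v) → P v) : ∀ v, P v := by
  have key : ∀ n : ℕ, ∀ v : TVertex i, rank v < n → P v := by
    intro n
    induction n with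
    | zero => intro v hv; omega
    | succ n ih =>
      intro v hv
      by_cases hvn : v = none
      · rw [hvn]; exact h0
      · apply hs v hvn
        apply ih
        have := rank_parentOf v hvn
        omega
  intro v
  exact key _ v (Nat.lt_succ_self _)

/-- The leaf test in terms of rank -/
lemma isLeaf_iff {i : ℕ} (v : TVertex i) : IsLeaf v ↔ 2 ^ (i - 1) ≤ rank v := by
  rcases v with _ | ⟨b, h, hh⟩
  · simp [IsLeaf, rank]
  · simp [IsLeaf, rank]

section poles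

variable {k : ℕ}

/-- poles: a branch and an index `8 M ≤ g < 16 M`, `M = 2 ^ k` -/
abbrev Pole (k : ℕ) := Fin 3 × {g : ℕ // 8 * 2 ^ k ≤ g ∧ g < 16 * 2 ^ k}

instance (k : ℕ) : Finite {g : ℕ // 8 * 2 ^ k ≤ g ∧ g < 16 * 2 ^ k} :=
  Set.Finite.to_subtype (s := {h : ℕ | 8 * 2 ^ k ≤ h ∧ h < 16 * 2 ^ k})
    ((Set.finite_Ico (8 * 2 ^ k) (16 * 2 ^ k)).subset (fun _ h => h))

def nxt (p : Pole k) : Pole k :=
  if p.2.1 = 8 * 2 ^ k + 4 then (p.1 + 1, ⟨8 * 2 ^ k, by
    have := Nat.one_le_two_pow (n := k); omega⟩)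
  else if h2 : p.2.1 + 1 = 16 * 2 ^ k then (p.1 + 1, ⟨8 * 2 ^ k + 1, by
    have := Nat.one_le_two_pow (n := k); omega⟩)
  else if h3 : p.2.1 ≤ 8 * 2 ^ k + 3 then (p.1, ⟨p.2.1 + 2, by
    have := Nat.one_le_two_pow (n := k); have := p.2.2; omega⟩)
  else (p.1, ⟨p.2.1 + 1, by
    have := Nat.one_le_two_pow (n := k); have := p.2.2; omega⟩)

def prv (p : Pole k) : Pole k :=
  if h1 : p.2.1 = 8 * 2 ^ k then (p.1 + 2, ⟨8 * 2 ^ k + 4, by
    have := Nat.one_le_two_pow (n := k); omega⟩)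
  else if h2 : p.2.1 = 8 * 2 ^ k + 1 then (p.1 + 2, ⟨16 * 2 ^ k - 1, by
    have := Nat.one_le_two_pow (n := k); omega⟩)
  else if h3 : p.2.1 ≤ 8 * 2 ^ k + 5 then (p.1, ⟨p.2.1 - 2, by
    have := Nat.one_le_two_pow (n := k); have := p.2.2; omega⟩)
  else (p.1, ⟨p.2.1 - 1, by
    have := Nat.one_le_two_pow (n := k); have := p.2.2; omega⟩)

lemma nxt_fst (p : Pole k) : (nxt p).1 = if p.2.1 = 8 * 2 ^ k + 4 ∨ p.2.1 + 1 = 16 * 2 ^ k then p.1 + 1 else p.1 := by
  unfold nxt
  split_ifs <;> first | rfl | omega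

lemma nxt_snd (p : Pole k) : (nxt p).2.1 = if p.2.1 = 8 * 2 ^ k + 4 then 8 * 2 ^ k else
    if p.2.1 + 1 = 16 * 2 ^ k then 8 * 2 ^ k + 1 else if p.2.1 ≤ 8 * 2 ^ k + 3 then p.2.1 + 2 else p.2.1 + 1 := by
  unfold nxt
  split_ifs <;> rfl

lemma prv_fst (p : Pole k) : (prv p).1 = if p.2.1 = 8 * 2 ^ k ∨ p.2.1 = 8 * 2 ^ k + 1 then p.1 + 2 else p.1 := by
  unfold prv
  split_ifs <;> first | rfl | omega

lemma prv_snd (p : Pole k) : (prv p).2.1 = if p.2.1 = 8 * 2 ^ k then 8 * 2 ^ k + 4 else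
    if p.2.1 = 8 * 2 ^ k + 1 then 16 * 2 ^ k - 1 else if p.2.1 ≤ 8 * 2 ^ k + 5 then p.2.1 - 2 else p.2.1 - 1 := by
  unfold prv
  split_ifs <;> rfl

lemma pole_ext {p q : Pole k} (h1 : p.1 = q.1) (h2 : p.2.1 = q.2.1) : p = q :=
  Prod.ext h1 (Subtype.ext h2)

lemma fin3_add (b : Fin 3) : b + 1 + 2 = b := by revert b; decide
lemma fin3_add' (b : Fin 3) : b + 2 + 1 = b := by revert b; decide

lemma prv_nxt (p : Pole k) : prv (nxt p) = p := by
  have hM := Nat.one_le_two_pow (n := k)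
  have hp := p.2.2
  apply pole_ext
  · rw [prv_fst, nxt_fst, nxt_snd]
    split_ifs <;> first | exact fin3_add _ | rfl | omega
  · rw [prv_snd, nxt_snd]
    split_ifs <;> omega

lemma nxt_prv (p : Pole k) : nxt (prv p) = p := by
  have hM := Nat.one_le_two_pow (n := k)
  have hp := p.2.2
  apply pole_ext
  · rw [nxt_fst, prv_fst, prv_snd]
    split_ifs <;> first | exact fin3_add' _ | rfl | omega
  · rw [nxt_snd, prv_snd]
    split_ifs <;> omega

/-- the cyclic shift of the poles -/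
def sg : Equiv.Perm (Pole k) := ⟨nxt, prv, prv_nxt, nxt_prv⟩

lemma fin3_ne (b : Fin 3) : b + 1 ≠ b := by revert b; decide

/-- `sg` strictly increases the index inside a branch -/
lemma nxt_lt (p : Pole k) (h : (nxt p).1 = p.1) : p.2.1 < (nxt p).2.1 := by
  rw [nxt_fst] at h
  rw [nxt_snd]
  split_ifs at h ⊢ <;> first | exact absurd h (fin3_ne _) | omega

lemma nxt_ne (p : Pole k) : nxt p ≠ p := by
  intro h
  have := nxt_lt p (by rw [h])
  rw [h] at this
  exact lt_irrefl _ this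

lemma fin3_ne2 (b : Fin 3) : b + 1 + 1 ≠ b := by revert b; decide

lemma nxt_nxt_ne (p : Pole k) : nxt (nxt p) ≠ p := by
  intro h
  have h1 : (nxt (nxt p)).1 = p.1 := by rw [h]
  have h2 : (nxt (nxt p)).2.1 = p.2.1 := by rw [h]
  have hM := Nat.one_le_two_pow (n := k)
  rw [nxt_fst, nxt_fst, nxt_snd] at h1
  rw [nxt_snd, nxt_snd] at h2
  split_ifs at h1 h2 <;> first | exact absurd h1 (fin3_ne _) | exact absurd h1 (fin3_ne2 _) | omega

/-- rotation of poles -/
def rotP (p : Pole k) : Pole k := (p.1 + 1, p.2)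

lemma nxt_rotP (p : Pole k) : nxt (rotP p) = rotP (nxt p) := by
  apply pole_ext
  · simp only [rotP, nxt_fst]
    split_ifs <;> rfl
  · simp only [rotP, nxt_snd]

end poles

end Pool.Agent.H71.Rot
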