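import Mathlib
import Pool.Agent.H71.RotTree

set_option autoImplicit false

namespace Pool.Agent.H71.Rot

open SimpleGraph

variable {k : ℕ}

lemma pow6 (k : ℕ) : 2 ^ (k + 6) = 64 * 2 ^ k := by ring
lemma pow5 (k : ℕ) : 2 ^ (k + 6 - 1) = 32 * 2 ^ k := by
  rw [show k + 6 - 1 = k + 5 from rfl]; ring

def Y1 (p : Pole k) : TVertex (k + 6) := some (p.1, ⟨4 * p.2.1, by
  have := p.2.2; have := pow6 k; have := Nat.one_le_two_pow (n := k); omega⟩)
def Z1 (p : Pole k) : TVertex (k + 6) := some (p.1, ⟨4 * p.2.1 + 1, by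
  have := p.2.2; have := pow6 k; have := Nat.one_le_two_pow (n := k); omega⟩)
def Y2 (p : Pole k) : TVertex (k + 6) := some (p.1, ⟨4 * p.2.1 + 2, by
  have := p.2.2; have := pow6 k; have := Nat.one_le_two_pow (n := k); omega⟩)
def Z2 (p : Pole k) : TVertex (k + 6) := some (p.1, ⟨4 * p.2.1 + 3, by
  have := p.2.2; have := pow6 k; have := Nat.one_le_two_pow (n := k); omega⟩)

@[simp] lemma rank_Y1 (p : Pole k) : rank (Y1 p) = 4 * p.2.1 := rfl
@[simp] lemma rank_Z1 (p : Pole k) : rank (Z1 p) = 4 * p.2.1 + 1 := rfl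
@[simp] lemma rank_Y2 (p : Pole k) : rank (Y2 p) = 4 * p.2.1 + 2 := rfl
@[simp] lemma rank_Z2 (p : Pole k) : rank (Z2 p) = 4 * p.2.1 + 3 := rfl

lemma Y1_inj {p q : Pole k} (h : Y1 p = Y1 q) : p = q := by
  have h2 := congrArg rank h
  simp only [rank_Y1] at h2
  simp only [Y1, Option.some.injEq, Prod.mk.injEq] at h
  exact pole_ext h.1 (by omega)
lemma Z1_inj {p q : Pole k} (h : Z1 p = Z1 q) : p = q := by
  have h2 := congrArg rank h
  simp only [rank_Z1] at h2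
  simp only [Z1, Option.some.injEq, Prod.mk.injEq] at h
  exact pole_ext h.1 (by omega)
lemma Y2_inj {p q : Pole k} (h : Y2 p = Y2 q) : p = q := by
  have h2 := congrArg rank h
  simp only [rank_Y2] at h2
  simp only [Y2, Option.some.injEq, Prod.mk.injEq] at h
  exact pole_ext h.1 (by omega)
lemma Z2_inj {p q : Pole k} (h : Z2 p = Z2 q) : p = q := by
  have h2 := congrArg rank h
  simp only [rank_Z2] at h2
  simp only [Z2, Option.some.injEq, Prod.mk.injEq] at h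
  exact pole_ext h.1 (by omega)

lemma ne_of_rank {i : ℕ} {u v : TVertex i} (h : rank u ≠ rank v) : u ≠ v := fun e => h (by rw [e])

lemma Y1_ne_Z1 (p q : Pole k) : Y1 p ≠ Z1 q := ne_of_rank (by simp only [rank_Y1, rank_Z1]; omega)
lemma Y1_ne_Y2 (p q : Pole k) : Y1 p ≠ Y2 q := ne_of_rank (by simp only [rank_Y1, rank_Y2]; omega)
lemma Y1_ne_Z2 (p q : Pole k) : Y1 p ≠ Z2 q := ne_of_rank (by simp only [rank_Y1, rank_Z2]; omega)
lemma Z1_ne_Y2 (p q : Pole k) : Z1 p ≠ Y2 q := ne_of_rank (by simp only [rank_Z1, rank_Y2]; omega)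
lemma Z1_ne_Z2 (p q : Pole k) : Z1 p ≠ Z2 q := ne_of_rank (by simp only [rank_Z1, rank_Z2]; omega)
lemma Y2_ne_Z2 (p q : Pole k) : Y2 p ≠ Z2 q := ne_of_rank (by simp only [rank_Y2, rank_Z2]; omega)

/-- leaf-leaf edges, oriented from an even leaf to an odd leaf -/
def Fdir (u v : TVertex (k + 6)) : Prop :=
  ∃ p : Pole k, (u = Y1 p ∧ v = Z2 p) ∨ (u = Y2 p ∧ v = Z1 p) ∨ (u = Y1 (nxt p) ∧ v = Z1 p) ∨
    (u = Y2 (nxt p) ∧ v = Z2 p)

lemma leaf_cases (v : TVertex (k + 6)) (hv : IsLeaf v) :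
    ∃ p : Pole k, v = Y1 p ∨ v = Z1 p ∨ v = Y2 p ∨ v = Z2 p := by
  rcases v with _ | ⟨b, h, hh⟩
  · exact absurd hv (by simp [IsLeaf])
  · have h5 := pow5 k
    have h6 := pow6 k
    simp only [IsLeaf] at hv
    rw [h5] at hv
    refine ⟨(b, ⟨h / 4, by omega⟩), ?_⟩
    have h4 : h % 4 = 0 ∨ h % 4 = 1 ∨ h % 4 = 2 ∨ h % 4 = 3 := by omega
    rcases h4 with h4 | h4 | h4 | h4
    · left; simp only [Y1, Option.some.injEq, Prod.mk.injEq, true_and, Subtype.mk.injEq]; omega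
    · right; left; simp only [Z1, Option.some.injEq, Prod.mk.injEq, true_and, Subtype.mk.injEq]; omega
    · right; right; left; simp only [Y2, Option.some.injEq, Prod.mk.injEq, true_and, Subtype.mk.injEq]; omega
    · right; right; right; simp only [Z2, Option.some.injEq, Prod.mk.injEq, true_and, Subtype.mk.injEq]; omega

lemma isLeaf_Y1 (p : Pole k) : IsLeaf (Y1 p) := by
  rw [isLeaf_iff, pow5, rank_Y1]; have := p.2.2; omega
lemma isLeaf_Z1 (p : Pole k) : IsLeaf (Z1 p) := by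
  rw [isLeaf_iff, pow5, rank_Z1]; have := p.2.2; omega
lemma isLeaf_Y2 (p : Pole k) : IsLeaf (Y2 p) := by
  rw [isLeaf_iff, pow5, rank_Y2]; have := p.2.2; omega
lemma isLeaf_Z2 (p : Pole k) : IsLeaf (Z2 p) := by
  rw [isLeaf_iff, pow5, rank_Z2]; have := p.2.2; omega

lemma Fdir_leaf {u v : TVertex (k + 6)} (h : Fdir u v) : IsLeaf u ∧ IsLeaf v := by
  obtain ⟨p, h | h | h | h⟩ := h <;> obtain ⟨rfl, rfl⟩ := h
  · exact ⟨isLeaf_Y1 _, isLeaf_Z2 _⟩
  · exact ⟨isLeaf_Y2 _, isLeaf_Z1 _⟩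
  · exact ⟨isLeaf_Y1 _, isLeaf_Z1 _⟩
  · exact ⟨isLeaf_Y2 _, isLeaf_Z2 _⟩

lemma Fdir_parity {u v : TVertex (k + 6)} (h : Fdir u v) : rank u % 2 = 0 ∧ rank v % 2 = 1 := by
  obtain ⟨p, h | h | h | h⟩ := h <;> obtain ⟨rfl, rfl⟩ := h <;>
    simp only [rank_Y1, rank_Y2, rank_Z1, rank_Z2] <;> omega

/-- The rotation snark with spanning tree `T_{k+6}`. -/
def theGraph (k : ℕ) : SimpleGraph (TVertex (k + 6)) where
  Adj u v := (IsParent u v ∨ IsParent v u) ∨ (Fdir u v ∨ Fdir v u)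
  symm := ⟨fun _ _ h => h.imp Or.symm Or.symm⟩
  loopless := ⟨fun v h => by
    rcases h with h | h
    · exact (treeGraph (k + 6)).loopless.irrefl v h
    · rcases h with h | h <;> · have := Fdir_parity h; omega⟩

lemma adj_def (u v : TVertex (k + 6)) :
    (theGraph k).Adj u v ↔ (IsParent u v ∨ IsParent v u) ∨ (Fdir u v ∨ Fdir v u) := Iff.rfl

/-- a leaf is not a parent -/
lemma leaf_not_parent {u v : TVertex (k + 6)} (hu : IsLeaf u) : ¬ IsParent u v := by
  intro h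
  rcases u with _ | ⟨b, h1, hh1⟩ <;> rcases v with _ | ⟨b', h2, hh2⟩
  · exact hu
  · exact hu
  · exact h
  · simp only [IsParent] at h
    simp only [IsLeaf, pow5] at hu
    have := pow6 k
    omega

lemma parent_iff (u v : TVertex (k + 6)) (hv : v ≠ none) : IsParent u v ↔ u = parentOf v := by
  rw [isParent_iff]; constructor
  · rintro ⟨-, h⟩; exact h.symm
  · intro h; exact ⟨hv, h.symm⟩

lemma Y1_ne_none (p : Pole k) : Y1 p ≠ none := by simp [Y1]
lemma Z1_ne_none (p : Pole k) : Z1 p ≠ none := by simp [Z1]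
lemma Y2_ne_none (p : Pole k) : Y2 p ≠ none := by simp [Y2]
lemma Z2_ne_none (p : Pole k) : Z2 p ≠ none := by simp [Z2]

lemma Fdir_Y1 (p : Pole k) (w : TVertex (k + 6)) : Fdir (Y1 p) w ↔ w = Z2 p ∨ w = Z1 (prv p) := by
  constructor
  · rintro ⟨q, h | h | h | h⟩ <;> obtain ⟨h1, rfl⟩ := h
    · rw [Y1_inj h1]; simp
    · exact absurd h1 (Y1_ne_Y2 _ _)
    · have := Y1_inj h1; rw [this, prv_nxt]; simp
    · exact absurd h1 (Y1_ne_Y2 _ _)
  · rintro (rfl | rfl)
    · exact ⟨p, by simp⟩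
    · exact ⟨prv p, by simp [nxt_prv]⟩

lemma Fdir_Y2 (p : Pole k) (w : TVertex (k + 6)) : Fdir (Y2 p) w ↔ w = Z1 p ∨ w = Z2 (prv p) := by
  constructor
  · rintro ⟨q, h | h | h | h⟩ <;> obtain ⟨h1, rfl⟩ := h
    · exact absurd h1.symm (Y1_ne_Y2 _ _)
    · rw [Y2_inj h1]; simp
    · exact absurd h1.symm (Y1_ne_Y2 _ _)
    · have := Y2_inj h1; rw [this, prv_nxt]; simp
  · rintro (rfl | rfl)
    · exact ⟨p, by simp⟩
    · exact ⟨prv p, by simp [nxt_prv]⟩

lemma Fdir_Z1 (p : Pole k) (w : TVertex (k + 6)) : Fdir w (Z1 p) ↔ w = Y2 p ∨ w = Y1 (nxt p) := by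
  constructor
  · rintro ⟨q, h | h | h | h⟩ <;> obtain ⟨rfl, h1⟩ := h
    · exact absurd h1 (Z1_ne_Z2 _ _)
    · rw [Z1_inj h1]; simp
    · rw [Z1_inj h1]; simp
    · exact absurd h1 (Z1_ne_Z2 _ _)
  · rintro (rfl | rfl)
    · exact ⟨p, by simp⟩
    · exact ⟨p, by simp⟩

lemma Fdir_Z2 (p : Pole k) (w : TVertex (k + 6)) : Fdir w (Z2 p) ↔ w = Y1 p ∨ w = Y2 (nxt p) := by
  constructor
  · rintro ⟨q, h | h | h | h⟩ <;> obtain ⟨rfl, h1⟩ := h
    · rw [Z2_inj h1]; simp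
    · exact absurd h1.symm (Z1_ne_Z2 _ _)
    · exact absurd h1.symm (Z1_ne_Z2 _ _)
    · rw [Z2_inj h1]; simp
  · rintro (rfl | rfl)
    · exact ⟨p, by simp⟩
    · exact ⟨p, by simp⟩

lemma not_Fdir_left {u v : TVertex (k + 6)} (h : rank u % 2 = 1) : ¬ Fdir u v := by
  intro h2; have := Fdir_parity h2; omega
lemma not_Fdir_right {u v : TVertex (k + 6)} (h : rank v % 2 = 0) : ¬ Fdir u v := by
  intro h2; have := Fdir_parity h2; omega

lemma nbr_Y1 (p : Pole k) (w : TVertex (k + 6)) :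
    (theGraph k).Adj (Y1 p) w ↔ w = parentOf (Y1 p) ∨ w = Z2 p ∨ w = Z1 (prv p) := by
  rw [adj_def, parent_iff _ _ (Y1_ne_none p), Fdir_Y1]
  have h1 := leaf_not_parent (v := w) (isLeaf_Y1 p)
  have h2 : ¬ Fdir w (Y1 p) := not_Fdir_right (by simp only [rank_Y1]; omega)
  tauto

lemma nbr_Y2 (p : Pole k) (w : TVertex (k + 6)) :
    (theGraph k).Adj (Y2 p) w ↔ w = parentOf (Y2 p) ∨ w = Z1 p ∨ w = Z2 (prv p) := by
  rw [adj_def, parent_iff _ _ (Y2_ne_none p), Fdir_Y2]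
  have h1 := leaf_not_parent (v := w) (isLeaf_Y2 p)
  have h2 : ¬ Fdir w (Y2 p) := not_Fdir_right (by simp only [rank_Y2]; omega)
  tauto

lemma nbr_Z1 (p : Pole k) (w : TVertex (k + 6)) :
    (theGraph k).Adj (Z1 p) w ↔ w = parentOf (Z1 p) ∨ w = Y2 p ∨ w = Y1 (nxt p) := by
  rw [adj_def, parent_iff _ _ (Z1_ne_none p), Fdir_Z1]
  have h1 := leaf_not_parent (v := w) (isLeaf_Z1 p)
  have h2 : ¬ Fdir (Z1 p) w := not_Fdir_left (by simp only [rank_Z1]; omega)
  tauto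

lemma nbr_Z2 (p : Pole k) (w : TVertex (k + 6)) :
    (theGraph k).Adj (Z2 p) w ↔ w = parentOf (Z2 p) ∨ w = Y1 p ∨ w = Y2 (nxt p) := by
  rw [adj_def, parent_iff _ _ (Z2_ne_none p), Fdir_Z2]
  have h1 := leaf_not_parent (v := w) (isLeaf_Z2 p)
  have h2 : ¬ Fdir (Z2 p) w := not_Fdir_left (by simp only [rank_Z2]; omega)
  tauto

/-- parent of a leaf is not a leaf; in terms of rank -/
lemma rank_parentOf_eq {i : ℕ} (v : TVertex i) : rank (parentOf v) = rank v / 2 := by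
  rcases v with _ | ⟨b, h, hh⟩
  · simp [rank, parentOf]
  · simp only [parentOf]
    split_ifs with h2
    · rfl
    · simp only [rank]; omega

lemma not_isLeaf_parentOf (v : TVertex (k + 6)) : ¬ IsLeaf (parentOf v) := by
  rw [isLeaf_iff, rank_parentOf_eq, pow5]
  rcases v with _ | ⟨b, h, hh⟩
  · simp only [rank]; have := Nat.one_le_two_pow (n := k); omega
  · have := pow6 k
    simp only [rank]; omega

theorem cubic (k : ℕ) : IsCubic (theGraph k) := by
  intro v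
  rw [Set.ncard_eq_three]
  by_cases hl : IsLeaf v
  · obtain ⟨p, rfl | rfl | rfl | rfl⟩ := leaf_cases v hl
    · refine ⟨parentOf (Y1 p), Z2 p, Z1 (prv p), ?_, ?_, ?_, ?_⟩
      · intro h; exact not_isLeaf_parentOf (Y1 p) (h ▸ isLeaf_Z2 p)
      · intro h; exact not_isLeaf_parentOf (Y1 p) (h ▸ isLeaf_Z1 _)
      · exact (Z1_ne_Z2 _ _).symm
      · ext w; rw [mem_neighborSet, nbr_Y1]; simp
    · refine ⟨parentOf (Z1 p), Y2 p, Y1 (nxt p), ?_, ?_, ?_, ?_⟩
      · intro h; exact not_isLeaf_parentOf (Z1 p) (h ▸ isLeaf_Y2 p)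
      · intro h; exact not_isLeaf_parentOf (Z1 p) (h ▸ isLeaf_Y1 _)
      · exact (Y1_ne_Y2 _ _).symm
      · ext w; rw [mem_neighborSet, nbr_Z1]; simp
    · refine ⟨parentOf (Y2 p), Z1 p, Z2 (prv p), ?_, ?_, ?_, ?_⟩
      · intro h; exact not_isLeaf_parentOf (Y2 p) (h ▸ isLeaf_Z1 p)
      · intro h; exact not_isLeaf_parentOf (Y2 p) (h ▸ isLeaf_Z2 _)
      · exact Z1_ne_Z2 _ _
      · ext w; rw [mem_neighborSet, nbr_Y2]; simp
    · refine ⟨parentOf (Z2 p), Y1 p, Y2 (nxt p), ?_, ?_, ?_, ?_⟩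
      · intro h; exact not_isLeaf_parentOf (Z2 p) (h ▸ isLeaf_Y1 p)
      · intro h; exact not_isLeaf_parentOf (Z2 p) (h ▸ isLeaf_Y2 _)
      · exact Y1_ne_Y2 _ _
      · ext w; rw [mem_neighborSet, nbr_Z2]; simp
  · have hnF : ∀ w, ¬ Fdir v w ∧ ¬ Fdir w v := fun w =>
      ⟨fun h => hl (Fdir_leaf h).1, fun h => hl (Fdir_leaf h).2⟩
    have h6 := pow6 k
    have hM := Nat.one_le_two_pow (n := k)
    rcases v with _ | ⟨b, h, hh⟩
    · refine ⟨some (0, ⟨1, by omega⟩), some (1, ⟨1, by omega⟩), some (2, ⟨1, by omega⟩), ?_, ?_, ?_, ?_⟩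
      · simp
      · simp
      · simp
      · ext w
        rw [mem_neighborSet, adj_def]
        have := hnF w
        rcases w with _ | ⟨b', h', hh'⟩
        · simp [this.1, IsParent]
        · simp only [IsParent, or_false, this.1, this.2, Set.mem_insert_iff, Option.some.injEq, Prod.mk.injEq,
            Subtype.mk.injEq, Set.mem_singleton_iff]
          constructor
          · intro h1
            fin_cases b' <;> simp [h1]
          · rintro (h1 | h1 | h1) <;> exact h1.2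
    · simp only [IsLeaf, pow5, not_le] at hl
      refine ⟨parentOf (some (b, ⟨h, hh⟩)), some (b, ⟨2 * h, by omega⟩), some (b, ⟨2 * h + 1, by omega⟩), ?_, ?_, ?_, ?_⟩
      · apply ne_of_rank; rw [rank_parentOf_eq]; simp only [rank]; omega
      · apply ne_of_rank; rw [rank_parentOf_eq]; simp only [rank]; omega
      · apply ne_of_rank; simp only [rank]; omega
      · ext w
        rw [mem_neighborSet, adj_def, parent_iff w _ (by simp)]
        have := hnF w
        rcases w with _ | ⟨b', h', hh'⟩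
        · simp [this.1, this.2, IsParent]
        · simp only [IsParent, this.1, this.2, or_false, Set.mem_insert_iff, Option.some.injEq, Prod.mk.injEq,
            Subtype.mk.injEq, Set.mem_singleton_iff]
          constructor
          · rintro (⟨rfl, h1⟩ | h1)
            · right
              have : h' = 2 * h ∨ h' = 2 * h + 1 := by omega
              simpa using this
            · left; exact h1
          · rintro (h1 | ⟨rfl, h1⟩ | ⟨rfl, h1⟩)
            · right; exact h1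
            · left; exact ⟨rfl, by omega⟩
            · left; exact ⟨rfl, by omega⟩

end Pool.Agent.H71.Rot
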