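import Mathlib
import Pool.Agent.H71.RotGraph

set_option autoImplicit false

namespace Pool.Agent.H71.Rot

open SimpleGraph

variable {k : ℕ}

/-- undirected leaf edge -/
def Fe (u v : TVertex (k + 6)) : Prop := Fdir u v ∨ Fdir v u

lemma Fe_symm {u v : TVertex (k + 6)} (h : Fe u v) : Fe v u := Or.symm h

lemma Fe_leaf {u v : TVertex (k + 6)} (h : Fe u v) : IsLeaf u ∧ IsLeaf v := by
  rcases h with h | h
  · exact Fdir_leaf h
  · exact (Fdir_leaf h).symm

lemma Fe_parity {u v : TVertex (k + 6)} (h : Fe u v) : rank u % 2 ≠ rank v % 2 := by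
  rcases h with h | h <;> · have := Fdir_parity h; omega

/-- adjacency in terms of `parentOf` -/
lemma adj_iff (u v : TVertex (k + 6)) :
    (theGraph k).Adj u v ↔ (v ≠ none ∧ parentOf v = u) ∨ (u ≠ none ∧ parentOf u = v) ∨ Fe u v := by
  rw [adj_def, isParent_iff, isParent_iff, Fe, or_assoc]

/-- siblings are not joined by a leaf edge -/
lemma siblings_not_Fe {u v : TVertex (k + 6)} (hp : parentOf u = parentOf v) (h : Fe u v) : False := by
  have hr : rank u / 2 = rank v / 2 := by
    rw [← rank_parentOf_eq, ← rank_parentOf_eq, hp]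
  have key : ∀ u v : TVertex (k + 6), parentOf u = parentOf v → rank u / 2 = rank v / 2 → Fdir u v → False := by
    intro u v hp hr h
    obtain ⟨p, h | h | h | h⟩ := h <;> obtain ⟨rfl, rfl⟩ := h
    · simp only [rank_Y1, rank_Z2] at hr; omega
    · simp only [rank_Y2, rank_Z1] at hr; omega
    · simp only [rank_Y1, rank_Z1] at hr
      have h1 : (nxt p).2.1 = p.2.1 := by omega
      have h2 : (nxt p).1 = p.1 := by
        have hpp := p.2.2
        have hqq := (nxt p).2.2
        have hM := Nat.one_le_two_pow (n := k)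
        simp only [parentOf, Y1, Z1] at hp
        rw [dif_pos (by omega), dif_pos (by omega)] at hp
        simp only [Option.some.injEq, Prod.mk.injEq] at hp
        exact hp.1
      exact nxt_ne p (pole_ext h2 h1)
    · simp only [rank_Y2, rank_Z2] at hr
      have h1 : (nxt p).2.1 = p.2.1 := by omega
      have h2 : (nxt p).1 = p.1 := by
        have hpp := p.2.2
        have hqq := (nxt p).2.2
        have hM := Nat.one_le_two_pow (n := k)
        simp only [parentOf, Y2, Z2] at hp
        rw [dif_pos (by omega), dif_pos (by omega)] at hp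
        simp only [Option.some.injEq, Prod.mk.injEq] at hp
        exact hp.1
      exact nxt_ne p (pole_ext h2 h1)
  rcases h with h | h
  · exact key u v hp hr h
  · exact key v u hp.symm hr.symm h

/-- two different children of the same vertex have ranks `2 r` and `2 r + 1` -/
lemma siblings_parity {u v : TVertex (k + 6)} (hu : u ≠ none) (hv : v ≠ none) (hl : IsLeaf u)
    (hp : parentOf u = parentOf v) (hne : u ≠ v) : rank u % 2 ≠ rank v % 2 := by
  intro h
  have hr : rank u / 2 = rank v / 2 := by
    rw [← rank_parentOf_eq, ← rank_parentOf_eq, hp]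
  have hr2 : rank u = rank v := by omega
  rw [isLeaf_iff, pow5] at hl
  have hM := Nat.one_le_two_pow (n := k)
  rcases u with _ | ⟨b, h1, hh1⟩
  · exact hu rfl
  rcases v with _ | ⟨b', h2, hh2⟩
  · exact hv rfl
  simp only [rank] at hr2 hl
  subst hr2
  simp only [parentOf] at hp
  rw [dif_pos (by omega), dif_pos (by omega)] at hp
  simp only [Option.some.injEq, Prod.mk.injEq] at hp
  apply hne
  rw [hp.1]

/-- no 4-cycles in the leaf graph -/
lemma Fe_no_four {a b c d : TVertex (k + 6)} (hab : Fe a b) (hbc : Fe b c) (hcd : Fe c d) (hda : Fe d a)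
    (hac : a ≠ c) (hbd : b ≠ d) : False := by
  -- wlog `a` even
  have key : ∀ a b c d : TVertex (k + 6), rank a % 2 = 0 → Fe a b → Fe b c → Fe c d → Fe d a → a ≠ c → b ≠ d →
      False := by
    clear hab hbc hcd hda hac hbd a b c d
    intro a b c d ha hab hbc hcd hda hac hbd
    have pb : rank b % 2 = 1 := by have := Fe_parity hab; omega
    have pc : rank c % 2 = 0 := by have := Fe_parity hbc; omega
    have pd : rank d % 2 = 1 := by have := Fe_parity hcd; omega
    have fab : Fdir a b := hab.resolve_right (not_Fdir_left pb)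
    have fcb : Fdir c b := hbc.resolve_left (not_Fdir_left pb)
    have fcd : Fdir c d := hcd.resolve_right (not_Fdir_left pd)
    have fad : Fdir a d := hda.resolve_left (not_Fdir_left pd)
    obtain ⟨p, rfl | rfl | rfl | rfl⟩ := leaf_cases a (Fe_leaf hab).1
    · rw [Fdir_Y1] at fab fad
      rcases fab with rfl | rfl
      · rcases fad with rfl | rfl
        · exact hbd rfl
        · rw [Fdir_Z2] at fcb
          rw [Fdir_Z1] at fcd
          rcases fcb with rfl | rfl
          · exact hac rfl
          · rcases fcd with h | h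
            · exact nxt_nxt_ne (prv p) (by rw [nxt_prv]; exact Y2_inj h)
            · exact Y1_ne_Y2 _ _ h.symm
      · rcases fad with rfl | rfl
        · rw [Fdir_Z1] at fcb
          rw [Fdir_Z2] at fcd
          rcases fcd with rfl | rfl
          · exact hac rfl
          · rcases fcb with h | h
            · exact nxt_nxt_ne (prv p) (by rw [nxt_prv]; exact Y2_inj h)
            · exact Y1_ne_Y2 _ _ h.symm
        · exact hbd rfl
    · simp only [rank_Z1] at ha; omega
    · rw [Fdir_Y2] at fab fad
      rcases fab with rfl | rfl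
      · rcases fad with rfl | rfl
        · exact hbd rfl
        · rw [Fdir_Z1] at fcb
          rw [Fdir_Z2] at fcd
          rcases fcb with rfl | rfl
          · exact hac rfl
          · rcases fcd with h | h
            · exact nxt_nxt_ne (prv p) (by rw [nxt_prv]; exact Y1_inj h)
            · exact Y1_ne_Y2 _ _ h
      · rcases fad with rfl | rfl
        · rw [Fdir_Z2] at fcb
          rw [Fdir_Z1] at fcd
          rcases fcd with rfl | rfl
          · exact hac rfl
          · rcases fcb with h | h
            · exact nxt_nxt_ne (prv p) (by rw [nxt_prv]; exact Y1_inj h)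
            · exact Y1_ne_Y2 _ _ h
        · exact hbd rfl
    · simp only [rank_Z2] at ha; omega
  rcases Nat.mod_two_eq_zero_or_one (rank a) with h | h
  · exact key a b c d h hab hbc hcd hda hac hbd
  · have := Fe_parity hab
    exact key b c d a (by omega) hbc hcd hda hab hbd hac.symm

lemma leaf_no_child {u v : TVertex (k + 6)} (hu : IsLeaf u) (h : parentOf v = u) : False :=
  not_isLeaf_parentOf v (h ▸ hu)

/-- if one child of a vertex is a leaf then so is the other -/
lemma leaf_of_sibling {u v : TVertex (k + 6)} (hu : IsLeaf u) (h : parentOf u = parentOf v) :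
    IsLeaf v := by
  have hr : rank u / 2 = rank v / 2 := by
    rw [← rank_parentOf_eq, ← rank_parentOf_eq, h]
  rw [isLeaf_iff, pow5] at hu ⊢
  omega

lemma adj_leaf_nonleaf {u v : TVertex (k + 6)} (h : (theGraph k).Adj u v) (hu : IsLeaf u) (hv : ¬ IsLeaf v) :
    u ≠ none ∧ v = parentOf u := by
  rw [adj_iff] at h
  rcases h with ⟨-, h1⟩ | ⟨h0, h1⟩ | h1
  · exact (leaf_no_child hu h1).elim
  · exact ⟨h0, h1.symm⟩
  · exact absurd (Fe_leaf h1).2 hv

lemma adj_leaf_leaf {u v : TVertex (k + 6)} (h : (theGraph k).Adj u v) (hu : IsLeaf u) (hv : IsLeaf v) :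
    Fe u v := by
  rw [adj_iff] at h
  rcases h with ⟨-, h1⟩ | ⟨-, h1⟩ | h1
  · exact (leaf_no_child hu h1).elim
  · exact (leaf_no_child hv h1).elim
  · exact h1

lemma adj_max {u v : TVertex (k + 6)} (h : (theGraph k).Adj u v) (hr : rank v ≤ rank u) :
    (u ≠ none ∧ v = parentOf u) ∨ Fe u v := by
  rw [adj_iff] at h
  rcases h with ⟨h0, h1⟩ | ⟨h0, h1⟩ | h1
  · have := rank_parentOf v h0
    rw [h1] at this; omega
  · exact Or.inl ⟨h0, h1.symm⟩
  · exact Or.inr h1

lemma no_triangle_max {a b c : TVertex (k + 6)} (hab : (theGraph k).Adj a b) (hbc : (theGraph k).Adj b c)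
    (hca : (theGraph k).Adj c a) (hb : rank b ≤ rank a) (hc : rank c ≤ rank a) : False := by
  rcases adj_max hab hb with ⟨ha, rfl⟩ | h1
  · rcases adj_max hca.symm hc with ⟨-, rfl⟩ | h2
    · exact hbc.ne rfl
    · have h3 := adj_leaf_nonleaf hbc.symm (Fe_leaf h2).2 (not_isLeaf_parentOf a)
      exact siblings_not_Fe h3.2 h2
  · rcases adj_max hca.symm hc with ⟨ha, rfl⟩ | h2
    · have h3 := adj_leaf_nonleaf hbc (Fe_leaf h1).2 (not_isLeaf_parentOf a)
      exact siblings_not_Fe h3.2 h1
    · have h3 := adj_leaf_leaf hbc (Fe_leaf h1).2 (Fe_leaf h2).2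
      have e1 := Fe_parity h1
      have e2 := Fe_parity h2
      have e3 := Fe_parity h3
      omega

/-- the mixed case of a four-cycle -/
lemma no_four_mixed {a c d : TVertex (k + 6)} (ha : a ≠ none) (h1 : Fe a d)
    (hbc : (theGraph k).Adj (parentOf a) c) (hcd : (theGraph k).Adj c d) (hac : a ≠ c) : False := by
  by_cases hcl : IsLeaf c
  · have h2 := adj_leaf_leaf hcd hcl (Fe_leaf h1).2
    have h3 := adj_leaf_nonleaf hbc.symm hcl (not_isLeaf_parentOf a)
    have e0 := siblings_parity ha h3.1 (Fe_leaf h1).1 h3.2 hac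
    have e1 := Fe_parity h1
    have e2 := Fe_parity h2
    omega
  · have h2 := adj_leaf_nonleaf hcd.symm (Fe_leaf h1).2 hcl
    rw [adj_iff] at hbc
    rcases hbc with ⟨h0, h3⟩ | ⟨h0, h3⟩ | h3
    · exact hcl (leaf_of_sibling (Fe_leaf h1).1 h3.symm)
    · exact not_isLeaf_parentOf a (leaf_of_sibling (Fe_leaf h1).2 (by rw [h3, h2.2]))
    · exact hcl (Fe_leaf h3).2

lemma no_four_max {a b c d : TVertex (k + 6)} (hab : (theGraph k).Adj a b) (hbc : (theGraph k).Adj b c)
    (hcd : (theGraph k).Adj c d) (hda : (theGraph k).Adj d a) (hac : a ≠ c) (hbd : b ≠ d)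
    (hb : rank b ≤ rank a) (hd : rank d ≤ rank a) : False := by
  rcases adj_max hab hb with ⟨ha, rfl⟩ | h1
  · rcases adj_max hda.symm hd with ⟨-, rfl⟩ | h2
    · exact hbd rfl
    · exact no_four_mixed ha h2 hbc hcd hac
  · rcases adj_max hda.symm hd with ⟨ha, rfl⟩ | h2
    · exact no_four_mixed ha h1 hcd.symm hbc.symm hac
    · by_cases hcl : IsLeaf c
      · exact Fe_no_four h1 (adj_leaf_leaf hbc (Fe_leaf h1).2 hcl) (adj_leaf_leaf hcd hcl (Fe_leaf h2).2)
          (Fe_symm h2) hac hbd
      · have e1 := adj_leaf_nonleaf hbc (Fe_leaf h1).2 hcl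
        have e2 := adj_leaf_nonleaf hcd.symm (Fe_leaf h2).2 hcl
        have e3 := siblings_parity e1.1 e2.1 (Fe_leaf h1).2 (e1.2.symm.trans e2.2) hbd
        have e4 := Fe_parity h1
        have e5 := Fe_parity h2
        omega

theorem girth (k : ℕ) : 5 ≤ (theGraph k).egirth := by
  apply five_le_egirth
  · intro a b c hab hbc hca
    rcases le_total (rank a) (rank b) with h1 | h1 <;> rcases le_total (rank b) (rank c) with h2 | h2 <;>
      rcases le_total (rank c) (rank a) with h3 | h3
    all_goals first
      | exact no_triangle_max hab hbc hca (by omega) (by omega)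
      | exact no_triangle_max hbc hca hab (by omega) (by omega)
      | exact no_triangle_max hca hab hbc (by omega) (by omega)
  · intro a b c d hab hbc hcd hda hac hbd
    have : (rank b ≤ rank a ∧ rank d ≤ rank a) ∨ (rank c ≤ rank b ∧ rank a ≤ rank b) ∨
        (rank d ≤ rank c ∧ rank b ≤ rank c) ∨ (rank a ≤ rank d ∧ rank c ≤ rank d) := by omega
    rcases this with h | h | h | h
    · exact no_four_max hab hbc hcd hda hac hbd h.1 h.2
    · exact no_four_max hbc hcd hda hab hbd hac.symm h.1 h.2
    · exact no_four_max hcd hda hab hbc hac.symm hbd.symm h.1 h.2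
    · exact no_four_max hda hab hbc hcd hbd.symm hac h.1 h.2

end Pool.Agent.H71.Rot
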