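import Mathlib
import Pool.Agent.H71.RotGirth

set_option autoImplicit false

namespace Pool.Agent.H71.Rot

open SimpleGraph

variable {k : ℕ}

/-! ### Rotation -/

def rotV {i : ℕ} : TVertex i → TVertex i
  | none => none
  | some (b, h) => some (b + 1, h)

lemma Fdir_rotV {u v : TVertex (k + 6)} (h : Fdir u v) : Fdir (rotV u) (rotV v) := by
  obtain ⟨p, h⟩ := h
  refine ⟨rotP p, ?_⟩
  rw [nxt_rotP]
  rcases h with h | h | h | h <;> obtain ⟨rfl, rfl⟩ := h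
  · left; exact ⟨rfl, rfl⟩
  · right; left; exact ⟨rfl, rfl⟩
  · right; right; left; exact ⟨rfl, rfl⟩
  · right; right; right; exact ⟨rfl, rfl⟩

lemma eq_rotV_of_label {a a' : TVertex (k + 6)} (ha : IsLeaf a) (ha' : IsLeaf a')
    (h : label a' = (label a + 2 ^ (k + 6 - 1)) % (3 * 2 ^ (k + 6 - 1))) : a' = rotV a := by
  rcases a with _ | ⟨b, x, hx⟩
  · exact ha.elim
  rcases a' with _ | ⟨b', y, hy⟩
  · exact ha'.elim
  have h6 : 2 ^ (k + 6) = 2 * 2 ^ (k + 6 - 1) := by rw [pow6, pow5]; ring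
  rw [h6] at hx hy
  simp only [IsLeaf] at ha ha'
  simp only [label] at h
  simp only [rotV, Option.some.injEq, Prod.mk.injEq, Subtype.mk.injEq]
  generalize 2 ^ (k + 6 - 1) = N at h ha ha' hx hy
  have hN : 0 < N := by omega
  have hmod : (b.1 * N + (x - N) + N) % (3 * N) = ((b + 1 : Fin 3)).1 * N + (x - N) := by
    fin_cases b
    · simp only [Fin.zero_eta, zero_mul, zero_add, Fin.val_one, one_mul]
      rw [Nat.mod_eq_of_lt (by omega)]; omega
    · have : ((⟨1, by omega⟩ : Fin 3) + 1).1 = 2 := rfl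
      rw [this]
      simp only [one_mul]
      rw [Nat.mod_eq_of_lt (by omega)]; omega
    · have : ((⟨2, by omega⟩ : Fin 3) + 1).1 = 0 := rfl
      rw [this]
      rw [show (2 * N + (x - N) + N) = (x - N) + 3 * N by omega, Nat.add_mod_right, Nat.mod_eq_of_lt (by omega)]
      omega
  rw [hmod] at h
  have hy2 : y - N < N := by omega
  have hx2 : x - N < N := by omega
  have e1 : b'.1 = (b + 1 : Fin 3).1 := by
    have h1 : (b'.1 * N + (y - N)) / N = b'.1 := by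
      rw [mul_comm, Nat.mul_add_div hN, Nat.div_eq_of_lt hy2, add_zero]
    have h2 : ((b + 1 : Fin 3).1 * N + (x - N)) / N = (b + 1 : Fin 3).1 := by
      rw [mul_comm, Nat.mul_add_div hN, Nat.div_eq_of_lt hx2, add_zero]
    rw [← h1, ← h2, h]
  refine ⟨Fin.ext e1, ?_⟩
  rw [e1] at h
  omega

theorem rotation (a b a' b' : TVertex (k + 6)) (ha : IsLeaf a) (hb : IsLeaf b) (ha' : IsLeaf a') (hb' : IsLeaf b')
    (h1 : label a' = (label a + 2 ^ (k + 6 - 1)) % (3 * 2 ^ (k + 6 - 1)))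
    (h2 : label b' = (label b + 2 ^ (k + 6 - 1)) % (3 * 2 ^ (k + 6 - 1)))
    (h : (theGraph k).Adj a b) : (theGraph k).Adj a' b' := by
  rw [eq_rotV_of_label ha ha' h1, eq_rotV_of_label hb hb' h2]
  have hF := adj_leaf_leaf h ha hb
  rw [adj_iff]
  right; right
  exact hF.imp Fdir_rotV Fdir_rotV

/-! ### No 3-edge-colouring -/

set_option synthInstance.maxSize 4000 in
set_option maxRecDepth 4000 in
lemma negator : ∀ u p q : Fin 3, u ≠ p → u ≠ q → p ≠ q → ∀ s t : Fin 3, p ≠ s → p ≠ t → s ≠ t →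
    ∀ s' t' : Fin 3, q ≠ s' → q ≠ t' → s' ≠ t' → ∀ m : Fin 3, s ≠ m → t' ≠ m → ∀ m' : Fin 3, s' ≠ m' → t ≠ m' →
    ∀ a1 : Fin 3, s ≠ a1 → m ≠ a1 → ∀ a2 : Fin 3, s' ≠ a2 → m' ≠ a2 → ∀ b1 : Fin 3, t ≠ b1 → m' ≠ b1 →
    ∀ b2 : Fin 3, t' ≠ b2 → m ≠ b2 → (a1 = a2 ↔ b1 ≠ b2) := by decide

/-- total colour function -/
noncomputable def col (C : (theGraph k).lineGraph.Coloring (Fin 3)) (u v : TVertex (k + 6)) : Fin 3 :=
  open Classical in if h : (theGraph k).Adj u v then C ⟨s(u, v), h⟩ else 0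

lemma col_symm (C : (theGraph k).lineGraph.Coloring (Fin 3)) (u v : TVertex (k + 6)) : col C u v = col C v u := by
  unfold col
  by_cases h : (theGraph k).Adj u v
  · rw [dif_pos h, dif_pos h.symm]
    congr 1
    exact Subtype.ext Sym2.eq_swap
  · rw [dif_neg h, dif_neg (fun h2 => h h2.symm)]

lemma col_ne (C : (theGraph k).lineGraph.Coloring (Fin 3)) {v a b : TVertex (k + 6)}
    (ha : (theGraph k).Adj v a) (hb : (theGraph k).Adj v b) (hab : a ≠ b) : col C v a ≠ col C v b := by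
  unfold col
  rw [dif_pos ha, dif_pos hb]
  apply C.valid
  rw [lineGraph_adj_iff_exists]
  refine ⟨?_, v, by simp, by simp⟩
  intro h
  have h2 := congrArg Subtype.val h
  simp only [Sym2.eq_iff] at h2
  rcases h2 with ⟨-, h2⟩ | ⟨h2, h3⟩
  · exact hab h2
  · exact hab (h3.trans h2)

def rp (p : Pole k) : TVertex (k + 6) := some (p.1, ⟨p.2.1, by
  have := p.2.2; have := pow6 k; have := Nat.one_le_two_pow (n := k); omega⟩)
def c1 (p : Pole k) : TVertex (k + 6) := some (p.1, ⟨2 * p.2.1, by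
  have := p.2.2; have := pow6 k; have := Nat.one_le_two_pow (n := k); omega⟩)
def c2 (p : Pole k) : TVertex (k + 6) := some (p.1, ⟨2 * p.2.1 + 1, by
  have := p.2.2; have := pow6 k; have := Nat.one_le_two_pow (n := k); omega⟩)

lemma parentOf_some {i : ℕ} (b : Fin 3) (h h' : ℕ) (hh : 1 ≤ h ∧ h < 2 ^ i) (hh' : 1 ≤ h' ∧ h' < 2 ^ i)
    (e : h / 2 = h') : parentOf (some (b, ⟨h, hh⟩) : TVertex i) = some (b, ⟨h', hh'⟩) := by
  simp only [parentOf]
  rw [dif_pos (by omega)]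
  simp only [e]

lemma parent_Y1 (p : Pole k) : parentOf (Y1 p) = c1 p := parentOf_some _ _ _ _ _ (by omega)
lemma parent_Z1 (p : Pole k) : parentOf (Z1 p) = c1 p := parentOf_some _ _ _ _ _ (by omega)
lemma parent_Y2 (p : Pole k) : parentOf (Y2 p) = c2 p := parentOf_some _ _ _ _ _ (by omega)
lemma parent_Z2 (p : Pole k) : parentOf (Z2 p) = c2 p := parentOf_some _ _ _ _ _ (by omega)
lemma parent_c1 (p : Pole k) : parentOf (c1 p) = rp p := parentOf_some _ _ _ _ _ (by omega)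
lemma parent_c2 (p : Pole k) : parentOf (c2 p) = rp p := parentOf_some _ _ _ _ _ (by omega)

lemma adj_parent (v : TVertex (k + 6)) (hv : v ≠ none) : (theGraph k).Adj v (parentOf v) := by
  rw [adj_iff]; right; left; exact ⟨hv, rfl⟩

lemma pole_alternate (C : (theGraph k).lineGraph.Coloring (Fin 3)) (p : Pole k) :
    (col C (Y1 p) (Z1 (prv p)) = col C (Y2 p) (Z2 (prv p))) ↔
      col C (Z1 p) (Y1 (nxt p)) ≠ col C (Z2 p) (Y2 (nxt p)) := by
  have hp := p.2.2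
  have hM := Nat.one_le_two_pow (n := k)
  have hc1n : c1 p ≠ none := by simp [c1]
  have hc2n : c2 p ≠ none := by simp [c2]
  have hrn : rp p ≠ none := by simp [rp]
  have A1 := adj_parent (rp p) hrn
  have A2 := (parent_c1 p) ▸ adj_parent (c1 p) hc1n
  have A3 := (parent_c2 p) ▸ adj_parent (c2 p) hc2n
  have A4 := (parent_Y1 p) ▸ adj_parent (Y1 p) (Y1_ne_none p)
  have A5 := (parent_Z1 p) ▸ adj_parent (Z1 p) (Z1_ne_none p)
  have A6 := (parent_Y2 p) ▸ adj_parent (Y2 p) (Y2_ne_none p)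
  have A7 := (parent_Z2 p) ▸ adj_parent (Z2 p) (Z2_ne_none p)
  have A8 : (theGraph k).Adj (Y1 p) (Z2 p) := (nbr_Y1 p _).2 (by simp)
  have A9 : (theGraph k).Adj (Y2 p) (Z1 p) := (nbr_Y2 p _).2 (by simp)
  have A10 : (theGraph k).Adj (Y1 p) (Z1 (prv p)) := (nbr_Y1 p _).2 (by simp)
  have A11 : (theGraph k).Adj (Y2 p) (Z2 (prv p)) := (nbr_Y2 p _).2 (by simp)
  have A12 : (theGraph k).Adj (Z1 p) (Y1 (nxt p)) := (nbr_Z1 p _).2 (by simp)
  have A13 : (theGraph k).Adj (Z2 p) (Y2 (nxt p)) := (nbr_Z2 p _).2 (by simp)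
  have rr : rank (rp p) = p.2.1 := rfl
  have r1 : rank (c1 p) = 2 * p.2.1 := rfl
  have r2 : rank (c2 p) = 2 * p.2.1 + 1 := rfl
  have ru : rank (parentOf (rp p)) = p.2.1 / 2 := by rw [rank_parentOf_eq, rr]
  have lt1 : ¬ IsLeaf (c1 p) := by rw [← parent_Y1]; exact not_isLeaf_parentOf _
  have lt2 : ¬ IsLeaf (c2 p) := by rw [← parent_Y2]; exact not_isLeaf_parentOf _
  refine negator (col C (rp p) (parentOf (rp p))) (col C (rp p) (c1 p)) (col C (rp p) (c2 p)) ?_ ?_ ?_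
    (col C (c1 p) (Y1 p)) (col C (c1 p) (Z1 p)) ?_ ?_ ?_
    (col C (c2 p) (Y2 p)) (col C (c2 p) (Z2 p)) ?_ ?_ ?_
    (col C (Y1 p) (Z2 p)) ?_ ?_ (col C (Y2 p) (Z1 p)) ?_ ?_
    (col C (Y1 p) (Z1 (prv p))) ?_ ?_ (col C (Y2 p) (Z2 (prv p))) ?_ ?_
    (col C (Z1 p) (Y1 (nxt p))) ?_ ?_ (col C (Z2 p) (Y2 (nxt p))) ?_ ?_
  · exact col_ne C A1 A2.symm (ne_of_rank (by rw [ru, r1]; omega))
  · exact col_ne C A1 A3.symm (ne_of_rank (by rw [ru, r2]; omega))
  · exact col_ne C A2.symm A3.symm (ne_of_rank (by rw [r1, r2]; omega))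
  · rw [col_symm C (rp p)]
    exact col_ne C A2 A4.symm (ne_of_rank (by rw [rr, rank_Y1]; omega))
  · rw [col_symm C (rp p)]
    exact col_ne C A2 A5.symm (ne_of_rank (by rw [rr, rank_Z1]; omega))
  · exact col_ne C A4.symm A5.symm (Y1_ne_Z1 _ _)
  · rw [col_symm C (rp p)]
    exact col_ne C A3 A6.symm (ne_of_rank (by rw [rr, rank_Y2]; omega))
  · rw [col_symm C (rp p)]
    exact col_ne C A3 A7.symm (ne_of_rank (by rw [rr, rank_Z2]; omega))
  · exact col_ne C A6.symm A7.symm (Y2_ne_Z2 _ _)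
  · rw [col_symm C (c1 p)]
    exact col_ne C A4 A8 (ne_of_rank (by rw [r1, rank_Z2]; omega))
  · rw [col_symm C (c2 p), col_symm C (Y1 p)]
    exact col_ne C A7 A8.symm (ne_of_rank (by rw [r2, rank_Y1]; omega))
  · rw [col_symm C (c2 p)]
    exact col_ne C A6 A9 (ne_of_rank (by rw [r2, rank_Z1]; omega))
  · rw [col_symm C (c1 p), col_symm C (Y2 p)]
    exact col_ne C A5 A9.symm (ne_of_rank (by rw [r1, rank_Y2]; omega))
  · rw [col_symm C (c1 p)]
    exact col_ne C A4 A10 (fun h => lt1 (h ▸ isLeaf_Z1 _))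
  · exact col_ne C A8 A10 (Z1_ne_Z2 _ _).symm
  · rw [col_symm C (c2 p)]
    exact col_ne C A6 A11 (fun h => lt2 (h ▸ isLeaf_Z2 _))
  · exact col_ne C A9 A11 (Z1_ne_Z2 _ _)
  · rw [col_symm C (c1 p)]
    exact col_ne C A5 A12 (fun h => lt1 (h ▸ isLeaf_Y1 _))
  · rw [col_symm C (Y2 p) (Z1 p)]
    exact col_ne C A9.symm A12 (Y1_ne_Y2 _ _).symm
  · rw [col_symm C (c2 p)]
    exact col_ne C A7 A13 (fun h => lt2 (h ▸ isLeaf_Y2 _))
  · rw [col_symm C (Y1 p) (Z2 p)]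
    exact col_ne C A8.symm A13 (Y1_ne_Y2 _ _)

theorem uncolourable (k : ℕ) : ¬ (theGraph k).lineGraph.Colorable 3 := by
  rintro ⟨C⟩
  set A : Pole k → Prop := fun p => col C (Y1 p) (Z1 (prv p)) = col C (Y2 p) (Z2 (prv p)) with hA
  have step : ∀ p, A p ↔ ¬ A (nxt p) := by
    intro p
    simp only [hA]
    rw [pole_alternate C p, prv_nxt, col_symm C (Y1 (nxt p)), col_symm C (Y2 (nxt p))]
  have hM := Nat.one_le_two_pow (n := k)
  have three : ∀ (b : Fin 3) (h0 : 8 * 2 ^ k ≤ 8 * 2 ^ k ∧ 8 * 2 ^ k < 16 * 2 ^ k),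
      nxt (nxt (nxt ((b, ⟨8 * 2 ^ k, h0⟩) : Pole k))) = (b + 1, ⟨8 * 2 ^ k, h0⟩) := by
    intro b h0
    have e1 : nxt ((b, ⟨8 * 2 ^ k, h0⟩) : Pole k) = (b, ⟨8 * 2 ^ k + 2, by omega⟩) := by
      apply pole_ext
      · rw [nxt_fst]; simp only; rw [if_neg (by omega)]
      · rw [nxt_snd]; simp only; rw [if_neg (by omega), if_neg (by omega), if_pos (by omega)]
    have e2 : nxt ((b, ⟨8 * 2 ^ k + 2, by omega⟩) : Pole k) = (b, ⟨8 * 2 ^ k + 4, by omega⟩) := by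
      apply pole_ext
      · rw [nxt_fst]; simp only; rw [if_neg (by omega)]
      · rw [nxt_snd]; simp only; rw [if_neg (by omega), if_neg (by omega), if_pos (by omega)]
    have e3 : nxt ((b, ⟨8 * 2 ^ k + 4, by omega⟩) : Pole k) = (b + 1, ⟨8 * 2 ^ k, by omega⟩) := by
      apply pole_ext
      · rw [nxt_fst, if_pos (Or.inl rfl)]
      · rw [nxt_snd, if_pos rfl]
    rw [e1, e2, e3]
  have h0 : 8 * 2 ^ k ≤ 8 * 2 ^ k ∧ 8 * 2 ^ k < 16 * 2 ^ k := by omega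
  have step3 : ∀ b : Fin 3, A (b, ⟨8 * 2 ^ k, h0⟩) ↔ ¬ A (b + 1, ⟨8 * 2 ^ k, h0⟩) := by
    intro b
    rw [← three b h0, step, step, step, not_not]
  have s0 := step3 0
  have s1 := step3 (0 + 1)
  have s2 := step3 (0 + 1 + 1)
  have e : (0 + 1 + 1 + 1 : Fin 3) = 0 := rfl
  rw [e] at s2
  tauto

end Pool.Agent.H71.Rot
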