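import Mathlib
import Pool.Agent.H71.RotCol

set_option autoImplicit false

namespace Pool.Agent.H71.Rot

open SimpleGraph

variable {k : ℕ}

lemma four_le_encard {α : Type*} {S : Set α} {a b c d : α} (ha : a ∈ S) (hb : b ∈ S) (hc : c ∈ S) (hd : d ∈ S)
    (hab : a ≠ b) (hac : a ≠ c) (had : a ≠ d) (hbc : b ≠ c) (hbd : b ≠ d) (hcd : c ≠ d) : 4 ≤ S.encard := by
  have h1 : ({a, b, c, d} : Set α) ⊆ S := by
    intro x hx
    simp only [Set.mem_insert_iff, Set.mem_singleton_iff] at hx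
    rcases hx with rfl | rfl | rfl | rfl <;> assumption
  have h2 : ({a, b, c, d} : Set α).encard = 4 := by
    rw [Set.encard_insert_of_notMem (by simp [hab, hac, had]), Set.encard_insert_of_notMem (by simp [hbc, hbd]),
      Set.encard_pair hcd]
    norm_num
  rw [← h2]
  exact Set.encard_le_encard h1

/-- a crossing edge lies in the cut -/
lemma mem_edgeCut {A : Set (TVertex (k + 6))} {u v : TVertex (k + 6)} (h : (theGraph k).Adj u v)
    (hx : ¬ (u ∈ A ↔ v ∈ A)) : s(u, v) ∈ edgeCut (theGraph k) A := by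
  by_cases hu : u ∈ A
  · exact ⟨u, v, hu, fun hv => hx (by simp [hu, hv]), h, rfl⟩
  · exact ⟨v, u, by by_contra hv; exact hx (by simp [hu, hv]), hu, h.symm, Sym2.eq_swap⟩

/-- tree edge above `v` is cut -/
def cutT (A : Set (TVertex (k + 6))) (v : TVertex (k + 6)) : Prop := v ≠ none ∧ ¬ (v ∈ A ↔ parentOf v ∈ A)

lemma cutT_mem {A : Set (TVertex (k + 6))} {v : TVertex (k + 6)} (h : cutT A v) :
    s(v, parentOf v) ∈ edgeCut (theGraph k) A := mem_edgeCut (adj_parent v h.1) h.2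

lemma tree_edge_inj {v w : TVertex (k + 6)} (hv : v ≠ none) (hw : w ≠ none)
    (h : s(v, parentOf v) = s(w, parentOf w)) : v = w := by
  rw [Sym2.eq_iff] at h
  rcases h with ⟨h, -⟩ | ⟨h1, h2⟩
  · exact h
  · have e1 := rank_parentOf v hv
    have e2 := rank_parentOf w hw
    rw [h2] at e1; rw [← h1] at e2; omega

lemma four_cutT {A : Set (TVertex (k + 6))} {a b c d : TVertex (k + 6)} (ha : cutT A a) (hb : cutT A b)
    (hc : cutT A c) (hd : cutT A d) (hab : a ≠ b) (hac : a ≠ c) (had : a ≠ d) (hbc : b ≠ c) (hbd : b ≠ d)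
    (hcd : c ≠ d) : 4 ≤ (edgeCut (theGraph k) A).encard :=
  four_le_encard (cutT_mem ha) (cutT_mem hb) (cutT_mem hc) (cutT_mem hd)
    (fun h => hab (tree_edge_inj ha.1 hb.1 h)) (fun h => hac (tree_edge_inj ha.1 hc.1 h))
    (fun h => had (tree_edge_inj ha.1 hd.1 h)) (fun h => hbc (tree_edge_inj hb.1 hc.1 h))
    (fun h => hbd (tree_edge_inj hb.1 hd.1 h)) (fun h => hcd (tree_edge_inj hc.1 hd.1 h))

/-- even end of the leaf edge with index `x` -/
def eA (x : Pole k × Fin 4) : TVertex (k + 6) :=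
  match x.2 with
  | 0 => Y1 x.1
  | 1 => Y2 x.1
  | 2 => Y1 (nxt x.1)
  | 3 => Y2 (nxt x.1)

/-- odd end of the leaf edge with index `x` -/
def eB (x : Pole k × Fin 4) : TVertex (k + 6) :=
  match x.2 with
  | 0 => Z2 x.1
  | 1 => Z1 x.1
  | 2 => Z1 x.1
  | 3 => Z2 x.1

lemma Fdir_eAB (x : Pole k × Fin 4) : Fdir (eA x) (eB x) := by
  obtain ⟨p, t⟩ := x
  refine ⟨p, ?_⟩
  fin_cases t
  · left; exact ⟨rfl, rfl⟩
  · right; left; exact ⟨rfl, rfl⟩
  · right; right; left; exact ⟨rfl, rfl⟩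
  · right; right; right; exact ⟨rfl, rfl⟩

lemma exists_eAB {u v : TVertex (k + 6)} (h : Fdir u v) : ∃ x : Pole k × Fin 4, u = eA x ∧ v = eB x := by
  obtain ⟨p, h | h | h | h⟩ := h
  · exact ⟨(p, 0), h⟩
  · exact ⟨(p, 1), h⟩
  · exact ⟨(p, 2), h⟩
  · exact ⟨(p, 3), h⟩

lemma eAB_inj {x y : Pole k × Fin 4} (hA : eA x = eA y) (hB : eB x = eB y) : x = y := by
  obtain ⟨p, s⟩ := x
  obtain ⟨q, t⟩ := y
  fin_cases s <;> fin_cases t <;> simp only [eA, eB] at hA hB
  all_goals first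
    | (rw [Z1_inj hB])
    | (rw [Z2_inj hB])
    | exact absurd hB (Z1_ne_Z2 _ _)
    | exact absurd hB (Z1_ne_Z2 _ _).symm
  all_goals first
    | rfl
    | exact absurd hA (Y1_ne_Y2 _ _)
    | exact absurd hA (Y1_ne_Y2 _ _).symm

lemma eAB_edge_inj {x y : Pole k × Fin 4} (h : s(eA x, eB x) = s(eA y, eB y)) : x = y := by
  rw [Sym2.eq_iff] at h
  rcases h with ⟨h1, h2⟩ | ⟨h1, h2⟩
  · exact eAB_inj h1 h2
  · have e1 := (Fdir_parity (Fdir_eAB x)).1
    have e2 := (Fdir_parity (Fdir_eAB y)).2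
    rw [h1] at e1; omega

/-- leaf edge `x` is cut -/
def cutF (A : Set (TVertex (k + 6))) (x : Pole k × Fin 4) : Prop := ¬ (eA x ∈ A ↔ eB x ∈ A)

lemma cutF_mem {A : Set (TVertex (k + 6))} {x : Pole k × Fin 4} (h : cutF A x) :
    s(eA x, eB x) ∈ edgeCut (theGraph k) A :=
  mem_edgeCut (by rw [adj_def]; right; left; exact Fdir_eAB x) h

lemma four_cutF {A : Set (TVertex (k + 6))} {a b c d : Pole k × Fin 4} (ha : cutF A a) (hb : cutF A b)
    (hc : cutF A c) (hd : cutF A d) (hab : a ≠ b) (hac : a ≠ c) (had : a ≠ d) (hbc : b ≠ c) (hbd : b ≠ d)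
    (hcd : c ≠ d) : 4 ≤ (edgeCut (theGraph k) A).encard :=
  four_le_encard (cutF_mem ha) (cutF_mem hb) (cutF_mem hc) (cutF_mem hd)
    (fun h => hab (eAB_edge_inj h)) (fun h => hac (eAB_edge_inj h))
    (fun h => had (eAB_edge_inj h)) (fun h => hbc (eAB_edge_inj h))
    (fun h => hbd (eAB_edge_inj h)) (fun h => hcd (eAB_edge_inj h))

lemma tree_edge_ne_leaf_edge (v : TVertex (k + 6)) (x : Pole k × Fin 4) :
    s(v, parentOf v) ≠ s(eA x, eB x) := by
  intro h
  have h1 := Fdir_leaf (Fdir_eAB x)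
  rw [Sym2.eq_iff] at h
  rcases h with ⟨-, h⟩ | ⟨-, h⟩
  · exact not_isLeaf_parentOf v (h ▸ h1.2)
  · exact not_isLeaf_parentOf v (h ▸ h1.1)

lemma two_two {A : Set (TVertex (k + 6))} {x y : Pole k × Fin 4} {v w : TVertex (k + 6)} (hx : cutF A x)
    (hy : cutF A y) (hv : cutT A v) (hw : cutT A w) (hxy : x ≠ y) (hvw : v ≠ w) :
    4 ≤ (edgeCut (theGraph k) A).encard :=
  four_le_encard (cutF_mem hx) (cutF_mem hy) (cutT_mem hv) (cutT_mem hw)
    (fun h => hxy (eAB_edge_inj h)) (tree_edge_ne_leaf_edge _ _).symm (tree_edge_ne_leaf_edge _ _).symm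
    (tree_edge_ne_leaf_edge _ _).symm (tree_edge_ne_leaf_edge _ _).symm (fun h => hvw (tree_edge_inj hv.1 hw.1 h))

/-- parity: a cut leaf edge is not alone -/
lemma exists_other_cutF {A : Set (TVertex (k + 6))} {x : Pole k × Fin 4} (hx : cutF A x) :
    ∃ y, y ≠ x ∧ cutF A y := by
  classical
  by_contra hcon
  push Not at hcon
  let _ : Fintype (Pole k) := Fintype.ofFinite _
  let χ : TVertex (k + 6) → ZMod 2 := fun v => if v ∈ A then 1 else 0
  have hχ : ∀ u v, (χ u + χ v = 0) ↔ (u ∈ A ↔ v ∈ A) := by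
    intro u v
    simp only [χ]
    by_cases h1 : u ∈ A <;> by_cases h2 : v ∈ A <;> simp [h1, h2] <;> decide
  have hsum : ∑ y : Pole k × Fin 4, (χ (eA y) + χ (eB y)) = 0 := by
    rw [Fintype.sum_prod_type]
    simp only [Fin.sum_univ_four, eA, eB]
    have e1 : ∑ p : Pole k, χ (Y1 (nxt p)) = ∑ p : Pole k, χ (Y1 p) :=
      Equiv.sum_comp (sg : Equiv.Perm (Pole k)) (fun p => χ (Y1 p))
    have e2 : ∑ p : Pole k, χ (Y2 (nxt p)) = ∑ p : Pole k, χ (Y2 p) :=
      Equiv.sum_comp (sg : Equiv.Perm (Pole k)) (fun p => χ (Y2 p))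
    simp only [Finset.sum_add_distrib]
    rw [e1, e2]
    generalize ∑ p : Pole k, χ (Y1 p) = a
    generalize ∑ p : Pole k, χ (Y2 p) = b
    generalize ∑ p : Pole k, χ (Z1 p) = c
    generalize ∑ p : Pole k, χ (Z2 p) = d
    revert a b c d
    decide
  have hsingle : ∑ y : Pole k × Fin 4, (χ (eA y) + χ (eB y)) = χ (eA x) + χ (eB x) := by
    apply Finset.sum_eq_single x
    · intro y _ hy
      rw [hχ]
      have := hcon y hy
      unfold cutF at this
      exact not_not.1 this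
    · intro h; exact absurd (Finset.mem_univ x) h
  rw [hsingle, hχ] at hsum
  exact hx hsum

/-- sides without leaves are acyclic -/
lemma acyclic_of_no_leaf (S : Set (TVertex (k + 6))) (hS : ∀ v ∈ S, ¬ IsLeaf v) :
    ((theGraph k).induce S).IsAcyclic := by
  apply isAcyclic_of_rank _ (fun v : S => rank v.1)
  rintro ⟨v, hv⟩ ⟨a, ha⟩ ⟨b, hb⟩ h1 h2 h3 h4
  have h1' : (theGraph k).Adj v a := h1
  have h2' : (theGraph k).Adj v b := h2
  rcases adj_max h1' h3 with ⟨-, rfl⟩ | h5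
  · rcases adj_max h2' h4 with ⟨-, rfl⟩ | h6
    · rfl
    · exact absurd (Fe_leaf h6).1 (hS v hv)
  · exact absurd (Fe_leaf h5).1 (hS v hv)

lemma acyclic_of_singleton (S : Set (TVertex (k + 6))) (u : TVertex (k + 6)) (hS : ∀ v ∈ S, v = u) :
    ((theGraph k).induce S).IsAcyclic := by
  apply isAcyclic_of_rank _ (fun v : S => rank v.1)
  rintro ⟨v, hv⟩ ⟨a, ha⟩ ⟨b, hb⟩ h1 h2 h3 h4
  exact Subtype.ext ((hS a ha).trans (hS b hb).symm)

/-- branch of a vertex -/
def branch {i : ℕ} : TVertex i → Fin 3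
  | none => 0
  | some (b, _) => b

lemma vertex_ext {i : ℕ} {u v : TVertex i} (hu : u ≠ none) (hv : v ≠ none) (h1 : branch u = branch v)
    (h2 : rank u = rank v) : u = v := by
  rcases u with _ | ⟨b, h, hh⟩
  · exact absurd rfl hu
  rcases v with _ | ⟨b', h', hh'⟩
  · exact absurd rfl hv
  simp only [branch, rank] at h1 h2
  subst h1; subst h2; rfl

lemma branch_parentOf {i : ℕ} (v : TVertex i) (h : parentOf v ≠ none) : branch (parentOf v) = branch v := by
  rcases v with _ | ⟨b, x, hx⟩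
  · rfl
  · simp only [parentOf] at h ⊢
    split_ifs at h ⊢ with h2
    · rfl
    · exact absurd rfl h

lemma rank_pos {i : ℕ} {v : TVertex i} (h : v ≠ none) : 1 ≤ rank v := by
  rcases v with _ | ⟨b, x, hx⟩
  · exact absurd rfl h
  · exact hx.1

lemma ne_none_of_rank {i : ℕ} {v : TVertex i} (h : 1 ≤ rank v) : v ≠ none := by
  intro h2; subst h2; simp [rank] at h

lemma rank_lt (v : TVertex (k + 6)) : rank v < 64 * 2 ^ k := by
  rw [← pow6]
  rcases v with _ | ⟨b, x, hx⟩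
  · simp [rank]
  · exact hx.2

/-- `v` is a descendant of `u` -/
def Desc (u v : TVertex (k + 6)) : Prop := v ≠ none ∧ branch v = branch u ∧ ∃ j, rank v / 2 ^ j = rank u

lemma desc_parent_iff {u v : TVertex (k + 6)} (hu : u ≠ none) (hv : v ≠ none) (hne : v ≠ u) :
    Desc u (parentOf v) ↔ Desc u v := by
  constructor
  · rintro ⟨h1, h2, j, h3⟩
    refine ⟨hv, by rw [← branch_parentOf v h1, h2], j + 1, ?_⟩
    rw [rank_parentOf_eq] at h3
    rw [pow_succ', ← Nat.div_div_eq_div_mul, h3]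
  · rintro ⟨-, h2, j, h3⟩
    cases j with
    | zero =>
      exfalso
      rw [pow_zero, Nat.div_one] at h3
      exact hne (vertex_ext hv hu h2 h3)
    | succ j =>
      have h4 : rank (parentOf v) / 2 ^ j = rank u := by
        rw [rank_parentOf_eq, Nat.div_div_eq_div_mul, ← pow_succ', h3]
      have h5 : 1 ≤ rank (parentOf v) := by
        by_contra h6
        have : rank (parentOf v) = 0 := by omega
        rw [this, Nat.zero_div] at h4
        have := rank_pos hu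
        omega
      have h6 := ne_none_of_rank h5
      exact ⟨h6, by rw [branch_parentOf v h6, h2], j, h4⟩

lemma not_desc_parent {u : TVertex (k + 6)} (hu : u ≠ none) : ¬ Desc u (parentOf u) := by
  rintro ⟨-, -, j, h⟩
  have h1 := rank_parentOf u hu
  have h2 : rank (parentOf u) / 2 ^ j ≤ rank (parentOf u) := Nat.div_le_self _ _
  omega

lemma desc_self {u : TVertex (k + 6)} (hu : u ≠ none) : Desc u u := ⟨hu, rfl, 0, by simp⟩

/-- if exactly one tree edge is cut then `A` is a side of it -/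
lemma side_of_unique {A : Set (TVertex (k + 6))} {u : TVertex (k + 6)} (hu : cutT A u)
    (huniq : ∀ v, cutT A v → v = u) :
    ∀ v, (Desc u v → (v ∈ A ↔ none ∉ A)) ∧ (¬ Desc u v → (v ∈ A ↔ none ∈ A)) := by
  apply tree_induction
  · refine ⟨fun h => absurd rfl h.1, fun _ => Iff.rfl⟩
  · intro v hv ih
    by_cases hvu : v = u
    · subst hvu
      refine ⟨fun _ => ?_, fun h => absurd (desc_self hv) h⟩
      have h1 := ih.2 (not_desc_parent hv)
      have h2 := hu.2
      tauto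
    · have h1 : v ∈ A ↔ parentOf v ∈ A := by
        by_contra h2
        exact hvu (huniq v ⟨hv, h2⟩)
      rw [h1, ← desc_parent_iff hu.1 hv hvu]
      exact ih

lemma mem_const_of_no_cut {A : Set (TVertex (k + 6))} (h : ∀ v, ¬ cutT A v) : ∀ v, (v ∈ A ↔ none ∈ A) := by
  apply tree_induction
  · rfl
  · intro v hv ih
    rw [← ih]
    by_contra h2
    exact h v ⟨hv, h2⟩

end Pool.Agent.H71.Rot
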