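import Mathlib
import Pool.Agent.H71.RotCut

set_option autoImplicit false

namespace Pool.Agent.H71.Rot

open SimpleGraph

variable {k : ℕ}

@[simp] lemma branch_Y1 (p : Pole k) : branch (Y1 p) = p.1 := rfl
@[simp] lemma branch_Z1 (p : Pole k) : branch (Z1 p) = p.1 := rfl
@[simp] lemma branch_Y2 (p : Pole k) : branch (Y2 p) = p.1 := rfl
@[simp] lemma branch_Z2 (p : Pole k) : branch (Z2 p) = p.1 := rfl

lemma pow_two_cases (j : ℕ) : j = 0 ∨ j = 1 ∨ ∃ i, j = i + 2 := by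
  rcases j with _ | _ | j
  · left; rfl
  · right; left; rfl
  · right; right; exact ⟨j, rfl⟩

/-- a leaf is a descendant only of itself -/
lemma desc_leaf {u v : TVertex (k + 6)} (hu : IsLeaf u) (h : Desc u v) : v = u := by
  obtain ⟨h1, h2, j, h3⟩ := h
  have hun : u ≠ none := by rintro rfl; exact hu
  rw [isLeaf_iff, pow5] at hu
  have h4 := rank_lt v
  rcases j with _ | j
  · rw [pow_zero, Nat.div_one] at h3
    exact vertex_ext h1 hun h2 h3
  · exfalso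
    rw [pow_succ', ← Nat.div_div_eq_div_mul] at h3
    have h5 := Nat.div_le_self (rank v / 2) (2 ^ j)
    omega

/-- existence of a pole below a high vertex -/
lemma exists_doubling (M : ℕ) : ∀ n m : ℕ, 16 * M - m ≤ n → 1 ≤ m → m < 16 * M → ∃ j, 8 * M ≤ m * 2 ^ j ∧ m * 2 ^ j < 16 * M := by
  intro n
  induction n with
  | zero => intro m h1 h2 h3; omega
  | succ n ih =>
    intro m h1 h2 h3
    by_cases h4 : 8 * M ≤ m
    · exact ⟨0, by simpa using h4, by simpa using h3⟩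
    · obtain ⟨j, hj1, hj2⟩ := ih (2 * m) (by omega) (by omega) (by omega)
      have e : m * 2 ^ (j + 1) = 2 * m * 2 ^ j := by rw [pow_succ']; ring
      exact ⟨j + 1, by rw [e]; exact hj1, by rw [e]; exact hj2⟩

/-- pole below `u` -/
def DP (u : TVertex (k + 6)) (p : Pole k) : Prop := p.1 = branch u ∧ ∃ j, p.2.1 / 2 ^ j = rank u

lemma desc_leaf_of_pole {u : TVertex (k + 6)} (hu : rank u < 16 * 2 ^ k) (p : Pole k) (v : TVertex (k + 6))
    (hv : v ≠ none) (hb : branch v = p.1) (hr : rank v / 4 = p.2.1) : Desc u v ↔ DP u p := by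
  have hp := p.2.2
  constructor
  · rintro ⟨-, h2, j, h3⟩
    refine ⟨by rw [← hb, h2], ?_⟩
    rcases pow_two_cases j with rfl | rfl | ⟨i, rfl⟩
    · rw [pow_zero, Nat.div_one] at h3; omega
    · rw [pow_one] at h3; omega
    · refine ⟨i, ?_⟩
      rw [← hr, Nat.div_div_eq_div_mul, ← h3, show 2 ^ (i + 2) = 4 * 2 ^ i by ring]
  · rintro ⟨h2, j, h3⟩
    refine ⟨hv, by rw [hb, h2], j + 2, ?_⟩
    rw [show 2 ^ (j + 2) = 4 * 2 ^ j by ring, ← Nat.div_div_eq_div_mul, hr, h3]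

lemma desc_low {u v : TVertex (k + 6)} (hu : 16 * 2 ^ k ≤ rank u) (hu2 : rank u < 32 * 2 ^ k) (hv : IsLeaf v) :
    Desc u v ↔ branch v = branch u ∧ rank v / 2 = rank u := by
  have hvn : v ≠ none := by rintro rfl; exact hv
  rw [isLeaf_iff, pow5] at hv
  have h4 := rank_lt v
  constructor
  · rintro ⟨-, h2, j, h3⟩
    refine ⟨h2, ?_⟩
    rcases pow_two_cases j with rfl | rfl | ⟨i, rfl⟩
    · rw [pow_zero, Nat.div_one] at h3; omega
    · rw [pow_one] at h3; exact h3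
    · exfalso
      rw [show 2 ^ (i + 2) = 4 * 2 ^ i by ring, ← Nat.div_div_eq_div_mul] at h3
      have := Nat.div_le_self (rank v / 4) (2 ^ i)
      omega
  · rintro ⟨h2, h3⟩
    exact ⟨hvn, h2, 1, by rw [pow_one]; exact h3⟩

/-- a subtree of positive height is left by at least four leaf edges -/
lemma four_of_subtree {A : Set (TVertex (k + 6))} {u : TVertex (k + 6)} (hun : u ≠ none) (hul : ¬ IsLeaf u)
    (hA : ∀ v, (Desc u v → (v ∈ A ↔ none ∉ A)) ∧ (¬ Desc u v → (v ∈ A ↔ none ∈ A))) :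
    4 ≤ (edgeCut (theGraph k) A).encard := by
  classical
  have hcross : ∀ x : Pole k × Fin 4, ¬ (Desc u (eA x) ↔ Desc u (eB x)) → cutF A x := by
    intro x hx
    have h1 := hA (eA x)
    have h2 := hA (eB x)
    unfold cutF
    tauto
  rw [isLeaf_iff, pow5, not_le] at hul
  have hpos := rank_pos hun
  have hM := Nat.one_le_two_pow (n := k)
  by_cases hlow : 16 * 2 ^ k ≤ rank u
  · -- children of `u` are leaves
    set p : Pole k := (branch u, ⟨rank u / 2, by omega⟩) with hp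
    have hp1 : p.1 = branch u := rfl
    have hp2 : p.2.1 = rank u / 2 := rfl
    have hdn : ∀ v : TVertex (k + 6), IsLeaf v → (Desc u v ↔ branch v = branch u ∧ rank v / 2 = rank u) :=
      fun v hv => desc_low hlow hul hv
    have hq : ∀ q : Pole k, q ≠ p → ¬ (q.1 = branch u ∧ q.2.1 = rank u / 2) := by
      rintro q hq ⟨h1, h2⟩
      exact hq (pole_ext h1 h2)
    have hnp := hq (nxt p) (nxt_ne p)
    have hpp := hq (prv p) (fun h => nxt_ne p (by rw [← h, nxt_prv]; exact h.symm))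
    have hnepp : prv p ≠ p := fun h => nxt_ne p (by rw [← h, nxt_prv]; exact h.symm)
    rcases Nat.mod_two_eq_zero_or_one (rank u) with hpar | hpar
    · refine four_cutF (a := (p, 0)) (b := (p, 1)) (c := (p, 2)) (d := (prv p, 2)) ?_ ?_ ?_ ?_ (by simp) (by simp)
        (by simp) (by simp) (by simp) (by simp [hnepp.symm])
      · apply hcross
        simp only [eA, eB]
        rw [hdn _ (isLeaf_Y1 p), hdn _ (isLeaf_Z2 p)]
        simp only [branch_Y1, branch_Z2, rank_Y1, rank_Z2, hp1, hp2, true_and]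
        omega
      · apply hcross
        simp only [eA, eB]
        rw [hdn _ (isLeaf_Y2 p), hdn _ (isLeaf_Z1 p)]
        simp only [branch_Y2, branch_Z1, rank_Y2, rank_Z1, hp1, hp2, true_and]
        omega
      · apply hcross
        simp only [eA, eB]
        rw [hdn _ (isLeaf_Y1 _), hdn _ (isLeaf_Z1 p)]
        simp only [branch_Y1, branch_Z1, rank_Y1, rank_Z1, hp1, hp2, true_and]
        intro h
        apply hnp
        have h3 := h.2 (by omega)
        exact ⟨h3.1, by omega⟩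
      · apply hcross
        simp only [eA, eB]
        rw [hdn _ (isLeaf_Y1 _), hdn _ (isLeaf_Z1 _), nxt_prv]
        simp only [branch_Y1, branch_Z1, rank_Y1, rank_Z1, hp1, hp2, true_and]
        intro h
        apply hpp
        have h3 := h.1 (by omega)
        exact ⟨h3.1, by omega⟩
    · refine four_cutF (a := (p, 0)) (b := (p, 1)) (c := (p, 3)) (d := (prv p, 3)) ?_ ?_ ?_ ?_ (by simp) (by simp)
        (by simp) (by simp) (by simp) (by simp [hnepp.symm])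
      · apply hcross
        simp only [eA, eB]
        rw [hdn _ (isLeaf_Y1 p), hdn _ (isLeaf_Z2 p)]
        simp only [branch_Y1, branch_Z2, rank_Y1, rank_Z2, hp1, hp2, true_and]
        omega
      · apply hcross
        simp only [eA, eB]
        rw [hdn _ (isLeaf_Y2 p), hdn _ (isLeaf_Z1 p)]
        simp only [branch_Y2, branch_Z1, rank_Y2, rank_Z1, hp1, hp2, true_and]
        omega
      · apply hcross
        simp only [eA, eB]
        rw [hdn _ (isLeaf_Y2 _), hdn _ (isLeaf_Z2 p)]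
        simp only [branch_Y2, branch_Z2, rank_Y2, rank_Z2, hp1, hp2, true_and]
        intro h
        apply hnp
        have h3 := h.2 (by omega)
        exact ⟨h3.1, by omega⟩
      · apply hcross
        simp only [eA, eB]
        rw [hdn _ (isLeaf_Y2 _), hdn _ (isLeaf_Z2 _), nxt_prv]
        simp only [branch_Y2, branch_Z2, rank_Y2, rank_Z2, hp1, hp2, true_and]
        intro h
        apply hpp
        have h3 := h.1 (by omega)
        exact ⟨h3.1, by omega⟩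
  · rw [not_le] at hlow
    -- `u` has poles below it
    let _ : Fintype (Pole k) := Fintype.ofFinite _
    have hne : (Finset.univ.filter (fun p : Pole k => DP u p)).Nonempty := by
      obtain ⟨j, hj1, hj2⟩ := exists_doubling (2 ^ k) _ (rank u) le_rfl hpos hlow
      refine ⟨(branch u, ⟨rank u * 2 ^ j, hj1, hj2⟩), ?_⟩
      simp only [Finset.mem_filter, Finset.mem_univ, true_and]
      exact ⟨rfl, j, Nat.mul_div_cancel _ (by positivity)⟩
    obtain ⟨q, hq, hqmax⟩ := Finset.exists_max_image _ (fun p : Pole k => p.2.1) hne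
    obtain ⟨r, hr, hrmin⟩ := Finset.exists_min_image _ (fun p : Pole k => p.2.1) hne
    simp only [Finset.mem_filter, Finset.mem_univ, true_and] at hq hqmax hr hrmin
    have hnq : ¬ DP u (nxt q) := by
      intro h
      have h1 := nxt_lt q (by rw [h.1, hq.1])
      have h2 := hqmax _ h
      omega
    have hpr : ¬ DP u (prv r) := by
      intro h
      have h1 := nxt_lt (prv r) (by rw [nxt_prv, hr.1, h.1])
      rw [nxt_prv] at h1
      have h2 := hrmin _ h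
      omega
    have hneq : q ≠ prv r := fun h => hpr (h ▸ hq)
    have dY1 : ∀ p : Pole k, Desc u (Y1 p) ↔ DP u p := fun p =>
      desc_leaf_of_pole hlow p _ (Y1_ne_none p) rfl (by rw [rank_Y1]; omega)
    have dZ1 : ∀ p : Pole k, Desc u (Z1 p) ↔ DP u p := fun p =>
      desc_leaf_of_pole hlow p _ (Z1_ne_none p) rfl (by rw [rank_Z1]; omega)
    have dY2 : ∀ p : Pole k, Desc u (Y2 p) ↔ DP u p := fun p =>
      desc_leaf_of_pole hlow p _ (Y2_ne_none p) rfl (by rw [rank_Y2]; omega)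
    have dZ2 : ∀ p : Pole k, Desc u (Z2 p) ↔ DP u p := fun p =>
      desc_leaf_of_pole hlow p _ (Z2_ne_none p) rfl (by rw [rank_Z2]; omega)
    refine four_cutF (a := (q, 2)) (b := (q, 3)) (c := (prv r, 2)) (d := (prv r, 3)) ?_ ?_ ?_ ?_ (by simp)
      (by simp [hneq]) (by simp) (by simp) (by simp [hneq]) (by simp)
    · apply hcross; simp only [eA, eB]; rw [dY1, dZ1]; tauto
    · apply hcross; simp only [eA, eB]; rw [dY2, dZ2]; tauto
    · apply hcross; simp only [eA, eB]; rw [dY1, dZ1, nxt_prv]; tauto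
    · apply hcross; simp only [eA, eB]; rw [dY2, dZ2, nxt_prv]; tauto

/-- Case I: some leaf edge is cut. -/
lemma case_leaf_edge {A : Set (TVertex (k + 6))} (hA : ¬ ((theGraph k).induce A).IsAcyclic)
    (hAc : ¬ ((theGraph k).induce Aᶜ).IsAcyclic) {x : Pole k × Fin 4} (hx : cutF A x) :
    4 ≤ (edgeCut (theGraph k) A).encard := by
  obtain ⟨y, hyx, hy⟩ := exists_other_cutF hx
  by_cases h0 : ∃ u, cutT A u
  · obtain ⟨u, hu⟩ := h0
    by_cases h1 : ∃ v, v ≠ u ∧ cutT A v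
    · obtain ⟨v, hvu, hv⟩ := h1
      exact two_two hx hy hu hv hyx.symm hvu.symm
    · push Not at h1
      have huniq : ∀ v, cutT A v → v = u := by
        intro v hv
        by_contra h
        exact h1 v h hv
      have hside := side_of_unique hu huniq
      by_cases hul : IsLeaf u
      · exfalso
        by_cases hn : (none : TVertex (k + 6)) ∈ A
        · apply hAc
          apply acyclic_of_singleton _ u
          intro v hv
          by_contra hvu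
          have : ¬ Desc u v := fun h => hvu (desc_leaf hul h)
          exact hv (((hside v).2 this).2 hn)
        · apply hA
          apply acyclic_of_singleton _ u
          intro v hv
          by_contra hvu
          have : ¬ Desc u v := fun h => hvu (desc_leaf hul h)
          exact hn (((hside v).2 this).1 hv)
      · exact four_of_subtree hu.1 hul hside
  · exfalso
    push Not at h0
    have h1 := mem_const_of_no_cut h0
    exact hx (by rw [h1 (eA x), h1 (eB x)])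

/-- Case II: no leaf edge is cut. -/
lemma case_no_leaf_edge {A : Set (TVertex (k + 6))} (hA : ¬ ((theGraph k).induce A).IsAcyclic)
    (hAc : ¬ ((theGraph k).induce Aᶜ).IsAcyclic) (hx : ∀ x : Pole k × Fin 4, ¬ cutF A x) :
    4 ≤ (edgeCut (theGraph k) A).encard := by
  have hM := Nat.one_le_two_pow (n := k)
  have h0 : ∀ p : Pole k, (Y1 p ∈ A ↔ Z2 p ∈ A) := fun p => not_not.1 (hx (p, 0))
  have h1 : ∀ p : Pole k, (Y2 p ∈ A ↔ Z1 p ∈ A) := fun p => not_not.1 (hx (p, 1))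
  have h2 : ∀ p : Pole k, (Y1 (nxt p) ∈ A ↔ Z1 p ∈ A) := fun p => not_not.1 (hx (p, 2))
  have h3 : ∀ p : Pole k, (Y2 (nxt p) ∈ A ↔ Z2 p ∈ A) := fun p => not_not.1 (hx (p, 3))
  by_cases hdiff : ∃ p : Pole k, ¬ (Y1 p ∈ A ↔ Y2 p ∈ A)
  · obtain ⟨p, hp⟩ := hdiff
    have hp' : ¬ (Y1 (nxt p) ∈ A ↔ Y2 (nxt p) ∈ A) := by
      rw [h2, h3, ← h1, ← h0]; tauto
    have two : ∀ p : Pole k, ¬ (Y1 p ∈ A ↔ Y2 p ∈ A) →
        (∃ v, cutT A v ∧ (v = Y1 p ∨ v = Z1 p)) ∧ (∃ v, cutT A v ∧ (v = Y2 p ∨ v = Z2 p)) := by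
      intro p hp
      constructor
      · by_cases h : Y1 p ∈ A ↔ c1 p ∈ A
        · refine ⟨Z1 p, ⟨Z1_ne_none p, ?_⟩, Or.inr rfl⟩
          rw [parent_Z1, ← h, ← h1]; tauto
        · exact ⟨Y1 p, ⟨Y1_ne_none p, by rw [parent_Y1]; exact h⟩, Or.inl rfl⟩
      · by_cases h : Y2 p ∈ A ↔ c2 p ∈ A
        · refine ⟨Z2 p, ⟨Z2_ne_none p, ?_⟩, Or.inr rfl⟩
          rw [parent_Z2, ← h, ← h0]; tauto
        · exact ⟨Y2 p, ⟨Y2_ne_none p, by rw [parent_Y2]; exact h⟩, Or.inl rfl⟩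
    obtain ⟨⟨v1, hv1, e1⟩, ⟨v2, hv2, e2⟩⟩ := two p hp
    obtain ⟨⟨v3, hv3, e3⟩, ⟨v4, hv4, e4⟩⟩ := two (nxt p) hp'
    have hnn := nxt_ne p
    have hdist : ∀ v w : TVertex (k + 6), (v = Y1 p ∨ v = Z1 p ∨ v = Y2 p ∨ v = Z2 p) →
        (w = Y1 (nxt p) ∨ w = Z1 (nxt p) ∨ w = Y2 (nxt p) ∨ w = Z2 (nxt p)) → v ≠ w := by
      intro v w hv hw h
      apply hnn
      have hb : branch w = branch v := by rw [h]
      have hr : rank w / 4 = rank v / 4 := by rw [h]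
      apply pole_ext
      · rcases hv with rfl | rfl | rfl | rfl <;> rcases hw with rfl | rfl | rfl | rfl <;>
          simpa only [branch_Y1, branch_Y2, branch_Z1, branch_Z2] using hb
      · rcases hv with rfl | rfl | rfl | rfl <;> rcases hw with rfl | rfl | rfl | rfl <;>
          simp only [rank_Y1, rank_Y2, rank_Z1, rank_Z2] at hr <;> omega
    have hd12 : ∀ (q : Pole k) (v w : TVertex (k + 6)), (v = Y1 q ∨ v = Z1 q) → (w = Y2 q ∨ w = Z2 q) → v ≠ w := by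
      rintro q v w (rfl | rfl) (rfl | rfl)
      · exact Y1_ne_Y2 _ _
      · exact Y1_ne_Z2 _ _
      · exact Z1_ne_Y2 _ _
      · exact Z1_ne_Z2 _ _
    have l1 : ∀ (q : Pole k) (v : TVertex (k + 6)), (v = Y1 q ∨ v = Z1 q) →
        (v = Y1 q ∨ v = Z1 q ∨ v = Y2 q ∨ v = Z2 q) := fun q v h => h.elim Or.inl (fun h => Or.inr (Or.inl h))
    have l2 : ∀ (q : Pole k) (v : TVertex (k + 6)), (v = Y2 q ∨ v = Z2 q) →
        (v = Y1 q ∨ v = Z1 q ∨ v = Y2 q ∨ v = Z2 q) := fun q v h => Or.inr (Or.inr h)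
    exact four_cutT hv1 hv2 hv3 hv4 (hd12 p _ _ e1 e2) (hdist _ _ (l1 _ _ e1) (l1 _ _ e3))
      (hdist _ _ (l1 _ _ e1) (l2 _ _ e4)) (hdist _ _ (l2 _ _ e2) (l1 _ _ e3))
      (hdist _ _ (l2 _ _ e2) (l2 _ _ e4)) (hd12 _ _ _ e3 e4)
  · push Not at hdiff
    have hstep : ∀ p : Pole k, (Y1 (nxt p) ∈ A ↔ Y1 p ∈ A) := by
      intro p; rw [h2, ← h1, ← hdiff]
    -- all leaves of a pole agree
    have hleaf : ∀ (p : Pole k) (v : TVertex (k + 6)), (v = Y1 p ∨ v = Z1 p ∨ v = Y2 p ∨ v = Z2 p) →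
        (v ∈ A ↔ Y1 p ∈ A) := by
      rintro p v (rfl | rfl | rfl | rfl)
      · rfl
      · rw [← h1, hdiff]
      · rw [hdiff]
      · rw [h0]
    let P : Fin 3 → ℕ → Prop := fun b g => ∀ hg : 8 * 2 ^ k ≤ g ∧ g < 16 * 2 ^ k, Y1 ((b, ⟨g, hg⟩) : Pole k) ∈ A
    -- the even orbit
    have hmem : ∀ (b : Fin 3) (g : ℕ) (hg : 8 * 2 ^ k ≤ g ∧ g < 16 * 2 ^ k) (b' : Fin 3) (g' : ℕ)
        (hg' : 8 * 2 ^ k ≤ g' ∧ g' < 16 * 2 ^ k), nxt ((b, ⟨g, hg⟩) : Pole k) = (b', ⟨g', hg'⟩) →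
        (Y1 ((b', ⟨g', hg'⟩) : Pole k) ∈ A ↔ Y1 ((b, ⟨g, hg⟩) : Pole k) ∈ A) := by
      intro b g hg b' g' hg' h
      rw [← h]; exact hstep _
    have n0 : ∀ (b : Fin 3) (g : ℕ) (hg : 8 * 2 ^ k ≤ g ∧ g < 16 * 2 ^ k) (h : g ≤ 8 * 2 ^ k + 3),
        nxt ((b, ⟨g, hg⟩) : Pole k) = (b, ⟨g + 2, by omega⟩) := by
      intro b g hg h
      apply pole_ext
      · rw [nxt_fst]; simp only; rw [if_neg (by omega)]
      · rw [nxt_snd]; simp only; rw [if_neg (by omega), if_neg (by omega), if_pos (by omega)]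
    have n1 : ∀ (b : Fin 3) (g : ℕ) (hg : 8 * 2 ^ k ≤ g ∧ g < 16 * 2 ^ k) (h : 8 * 2 ^ k + 5 ≤ g)
        (h' : g + 1 < 16 * 2 ^ k), nxt ((b, ⟨g, hg⟩) : Pole k) = (b, ⟨g + 1, by omega⟩) := by
      intro b g hg h h'
      apply pole_ext
      · rw [nxt_fst]; simp only; rw [if_neg (by omega)]
      · rw [nxt_snd]; simp only; rw [if_neg (by omega), if_neg (by omega), if_neg (by omega)]
    have n2 : ∀ (b : Fin 3) (g : ℕ) (hg : 8 * 2 ^ k ≤ g ∧ g < 16 * 2 ^ k) (h : g = 8 * 2 ^ k + 4),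
        nxt ((b, ⟨g, hg⟩) : Pole k) = (b + 1, ⟨8 * 2 ^ k, by omega⟩) := by
      intro b g hg h
      apply pole_ext
      · rw [nxt_fst, if_pos (Or.inl h)]
      · rw [nxt_snd, if_pos h]
    have n3 : ∀ (b : Fin 3) (g : ℕ) (hg : 8 * 2 ^ k ≤ g ∧ g < 16 * 2 ^ k) (h : g + 1 = 16 * 2 ^ k),
        nxt ((b, ⟨g, hg⟩) : Pole k) = (b + 1, ⟨8 * 2 ^ k + 1, by omega⟩) := by
      intro b g hg h
      apply pole_ext
      · rw [nxt_fst, if_pos (Or.inr h)]
      · rw [nxt_snd]; simp only; rw [if_neg (by omega), if_pos (by omega)]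
    have a0 : 8 * 2 ^ k ≤ 8 * 2 ^ k ∧ 8 * 2 ^ k < 16 * 2 ^ k := by omega
    have a1 : 8 * 2 ^ k ≤ 8 * 2 ^ k + 1 ∧ 8 * 2 ^ k + 1 < 16 * 2 ^ k := by omega
    have a2 : 8 * 2 ^ k ≤ 8 * 2 ^ k + 2 ∧ 8 * 2 ^ k + 2 < 16 * 2 ^ k := by omega
    have a3 : 8 * 2 ^ k ≤ 8 * 2 ^ k + 3 ∧ 8 * 2 ^ k + 3 < 16 * 2 ^ k := by omega
    have a4 : 8 * 2 ^ k ≤ 8 * 2 ^ k + 4 ∧ 8 * 2 ^ k + 4 < 16 * 2 ^ k := by omega
    have a5 : 8 * 2 ^ k ≤ 8 * 2 ^ k + 5 ∧ 8 * 2 ^ k + 5 < 16 * 2 ^ k := by omega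
    -- orbit relations inside a branch
    have e02 : ∀ b : Fin 3, (Y1 ((b, ⟨8 * 2 ^ k + 2, a2⟩) : Pole k) ∈ A ↔ Y1 ((b, ⟨8 * 2 ^ k, a0⟩) : Pole k) ∈ A) :=
      fun b => hmem _ _ _ _ _ _ (n0 b _ a0 (by omega))
    have e24 : ∀ b : Fin 3, (Y1 ((b, ⟨8 * 2 ^ k + 4, a4⟩) : Pole k) ∈ A ↔ Y1 ((b, ⟨8 * 2 ^ k + 2, a2⟩) : Pole k) ∈ A) :=
      fun b => hmem _ _ _ _ _ _ (n0 b _ a2 (by omega))
    have e40 : ∀ b : Fin 3, (Y1 ((b + 1, ⟨8 * 2 ^ k, a0⟩) : Pole k) ∈ A ↔ Y1 ((b, ⟨8 * 2 ^ k + 4, a4⟩) : Pole k) ∈ A) :=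
      fun b => hmem _ _ _ _ _ _ (n2 b _ a4 rfl)
    have e13 : ∀ b : Fin 3, (Y1 ((b, ⟨8 * 2 ^ k + 3, a3⟩) : Pole k) ∈ A ↔ Y1 ((b, ⟨8 * 2 ^ k + 1, a1⟩) : Pole k) ∈ A) :=
      fun b => hmem _ _ _ _ _ _ (n0 b _ a1 (by omega))
    have e35 : ∀ b : Fin 3, (Y1 ((b, ⟨8 * 2 ^ k + 5, a5⟩) : Pole k) ∈ A ↔ Y1 ((b, ⟨8 * 2 ^ k + 3, a3⟩) : Pole k) ∈ A) :=
      fun b => hmem _ _ _ _ _ _ (n0 b _ a3 (by omega))
    have e5g : ∀ (b : Fin 3) (n : ℕ) (hn : 8 * 2 ^ k ≤ 8 * 2 ^ k + 5 + n ∧ 8 * 2 ^ k + 5 + n < 16 * 2 ^ k),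
        (Y1 ((b, ⟨8 * 2 ^ k + 5 + n, hn⟩) : Pole k) ∈ A ↔ Y1 ((b, ⟨8 * 2 ^ k + 5, a5⟩) : Pole k) ∈ A) := by
      intro b n
      induction n with
      | zero => intro hn; rfl
      | succ n ih =>
        intro hn
        rw [← ih (by omega)]
        exact hmem _ _ _ _ _ _ (n1 b (8 * 2 ^ k + 5 + n) (by omega) (by omega) (by omega))
    have e51 : ∀ b : Fin 3, (Y1 ((b + 1, ⟨8 * 2 ^ k + 1, a1⟩) : Pole k) ∈ A ↔ Y1 ((b, ⟨8 * 2 ^ k + 5, a5⟩) : Pole k) ∈ A) := by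
      intro b
      have h5 : 8 * 2 ^ k ≤ 8 * 2 ^ k + 5 + (8 * 2 ^ k - 6) ∧ 8 * 2 ^ k + 5 + (8 * 2 ^ k - 6) < 16 * 2 ^ k := by omega
      rw [← e5g b (8 * 2 ^ k - 6) h5]
      exact hmem _ _ _ _ _ _ (n3 b _ h5 (by omega))
    have ev : ∀ b : Fin 3, (Y1 ((b + 1, ⟨8 * 2 ^ k, a0⟩) : Pole k) ∈ A ↔ Y1 ((b, ⟨8 * 2 ^ k, a0⟩) : Pole k) ∈ A) :=
      fun b => by rw [e40, e24, e02]
    have od : ∀ b : Fin 3, (Y1 ((b + 1, ⟨8 * 2 ^ k + 1, a1⟩) : Pole k) ∈ A ↔ Y1 ((b, ⟨8 * 2 ^ k + 1, a1⟩) : Pole k) ∈ A) :=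
      fun b => by rw [e51, e35, e13]
    have ev' : ∀ b : Fin 3, (Y1 ((b, ⟨8 * 2 ^ k, a0⟩) : Pole k) ∈ A ↔ Y1 ((0, ⟨8 * 2 ^ k, a0⟩) : Pole k) ∈ A) := by
      intro b
      have s0 := ev 0
      have s1 := ev (0 + 1)
      fin_cases b
      · rfl
      · exact s0
      · exact s1.trans s0
    have od' : ∀ b : Fin 3, (Y1 ((b, ⟨8 * 2 ^ k + 1, a1⟩) : Pole k) ∈ A ↔ Y1 ((0, ⟨8 * 2 ^ k + 1, a1⟩) : Pole k) ∈ A) := by
      intro b
      have s0 := od 0
      have s1 := od (0 + 1)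
      fin_cases b
      · rfl
      · exact s0
      · exact s1.trans s0
    by_cases hsame : Y1 ((0, ⟨8 * 2 ^ k, a0⟩) : Pole k) ∈ A ↔ Y1 ((0, ⟨8 * 2 ^ k + 1, a1⟩) : Pole k) ∈ A
    · -- all leaves on one side
      exfalso
      have hall : ∀ v : TVertex (k + 6), IsLeaf v → (v ∈ A ↔ Y1 ((0, ⟨8 * 2 ^ k, a0⟩) : Pole k) ∈ A) := by
        intro v hv
        obtain ⟨p, hp⟩ := leaf_cases v hv
        rw [hleaf p v hp]
        obtain ⟨b, g, hg⟩ := p
        rcases Nat.lt_or_ge g (8 * 2 ^ k + 5) with h5 | h5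
        · have : g = 8 * 2 ^ k ∨ g = 8 * 2 ^ k + 1 ∨ g = 8 * 2 ^ k + 2 ∨ g = 8 * 2 ^ k + 3 ∨ g = 8 * 2 ^ k + 4 := by omega
          rcases this with rfl | rfl | rfl | rfl | rfl
          · exact ev' b
          · rw [od' b, ← hsame]
          · rw [e02, ev']
          · rw [e13, od' b, ← hsame]
          · rw [e24, e02, ev']
        · obtain ⟨n, rfl⟩ := Nat.exists_eq_add_of_le h5
          rw [e5g, e35, e13, od', ← hsame]
      by_cases hin : Y1 ((0, ⟨8 * 2 ^ k, a0⟩) : Pole k) ∈ A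
      · apply hAc
        apply acyclic_of_no_leaf
        intro v hv hl
        exact hv ((hall v hl).2 hin)
      · apply hA
        apply acyclic_of_no_leaf
        intro v hv hl
        exact hin ((hall v hl).1 hv)
    · -- the two orbits are separated
      have group : ∀ (b : Fin 3) (g : ℕ) (hg : 8 * 2 ^ k ≤ g ∧ g < 16 * 2 ^ k)
          (hg' : 8 * 2 ^ k ≤ g + 1 ∧ g + 1 < 16 * 2 ^ k), g % 2 = 0 →
          ¬ (Y1 ((b, ⟨g, hg⟩) : Pole k) ∈ A ↔ Y1 ((b, ⟨g + 1, hg'⟩) : Pole k) ∈ A) →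
          ∃ v, cutT A v ∧ branch v = b ∧ (rank v = g ∨ rank v = 2 * g ∨ rank v = 4 * g ∨ rank v = g + 1 ∨
            rank v = 2 * (g + 1) ∨ rank v = 4 * (g + 1)) := by
        intro b g hg hg' hpar hne
        by_contra hcon
        push Not at hcon
        have f : ∀ v : TVertex (k + 6), v ≠ none → branch v = b → (rank v = g ∨ rank v = 2 * g ∨ rank v = 4 * g ∨
            rank v = g + 1 ∨ rank v = 2 * (g + 1) ∨ rank v = 4 * (g + 1)) → (v ∈ A ↔ parentOf v ∈ A) := by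
          intro v hv hb hr
          by_contra h
          have := hcon v ⟨hv, h⟩ hb
          omega
        set p : Pole k := (b, ⟨g, hg⟩) with hp
        set q : Pole k := (b, ⟨g + 1, hg'⟩) with hq
        have hgp : p.2.1 = g := rfl
        have hgq : q.2.1 = g + 1 := rfl
        have s1 := f (Y1 p) (Y1_ne_none p) rfl (by rw [rank_Y1, hgp]; omega)
        have s2 := f (c1 p) (by simp [c1]) rfl (by right; left; rfl)
        have s3 := f (rp p) (by simp [rp]) rfl (by left; rfl)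
        have t1 := f (Y1 q) (Y1_ne_none q) rfl (by rw [rank_Y1, hgq]; omega)
        have t2 := f (c1 q) (by simp [c1]) rfl (by right; right; right; right; left; rfl)
        have t3 := f (rp q) (by simp [rp]) rfl (by right; right; right; left; rfl)
        rw [parent_Y1] at s1 t1
        rw [parent_c1] at s2 t2
        have hpq : parentOf (rp p) = parentOf (rp q) := by
          simp only [rp, parentOf]
          rw [dif_pos (by rw [hgp]; omega), dif_pos (by rw [hgq]; omega)]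
          simp only [hp, hq, Option.some.injEq, Prod.mk.injEq, true_and, Subtype.mk.injEq]
          omega
        rw [hpq] at s3
        apply hne
        rw [s1, s2, s3, t1, t2, t3]
      have d0 : ∀ b : Fin 3, ¬ (Y1 ((b, ⟨8 * 2 ^ k, a0⟩) : Pole k) ∈ A ↔ Y1 ((b, ⟨8 * 2 ^ k + 1, a1⟩) : Pole k) ∈ A) := by
        intro b; rw [ev', od']; exact hsame
      have d1 : ∀ b : Fin 3, ¬ (Y1 ((b, ⟨8 * 2 ^ k + 2, a2⟩) : Pole k) ∈ A ↔ Y1 ((b, ⟨8 * 2 ^ k + 2 + 1, a3⟩) : Pole k) ∈ A) := by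
        intro b; rw [e02, e13, ev', od']; exact hsame
      obtain ⟨v1, c1, b1, r1⟩ := group 0 _ a0 a1 (by omega) (d0 0)
      obtain ⟨v2, c2, b2, r2⟩ := group 1 _ a0 a1 (by omega) (d0 1)
      obtain ⟨v3, c3, b3, r3⟩ := group 0 _ a2 a3 (by omega) (d1 0)
      obtain ⟨v4, c4, b4, r4⟩ := group 1 _ a2 a3 (by omega) (d1 1)
      have hb01 : (0 : Fin 3) ≠ 1 := by decide
      refine four_cutT c1 c2 c3 c4 ?_ ?_ ?_ ?_ ?_ ?_
      · intro h; apply hb01; rw [← b1, ← b2, h]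
      · apply ne_of_rank; omega
      · intro h; apply hb01; rw [← b1, ← b4, h]
      · intro h; apply hb01; rw [← b3, ← b2, h]
      · apply ne_of_rank; omega
      · intro h; apply hb01; rw [← b3, ← b4, h]

theorem cyclicallyConnected (k : ℕ) : CyclicallyFourEdgeConnected (theGraph k) := by
  intro A hA hAc
  by_cases h : ∃ x : Pole k × Fin 4, cutF A x
  · obtain ⟨x, hx⟩ := h
    exact case_leaf_edge hA hAc hx
  · push Not at h
    exact case_no_leaf_edge hA hAc h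

end Pool.Agent.H71.Rot
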